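import Pool.Agent.Lib.MP_343fe0_pr.Up.Par

set_option autoImplicit false

/-! The choice of the parameters for large `n`. -/

namespace Pool.Agent.Lib.MP_343fe0_pr.Up

open Finset

lemma asym_G {n : ℕ} (hn : 3 ≤ n) (hL : 21 ≤ Real.log n) :
    (GG (Nat.clog 2 (Nat.clog 2 n)) : ℝ) ≤ (5 * Real.log n) ^ 38 := by
  have h1 : 1 < Nat.clog 2 n := (Nat.lt_clog_iff_pow_lt (by norm_num)).2 (by omega)
  have h2 := Nat.pow_pred_clog_lt_self (b := 2) (by norm_num) h1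
  have h3 := Nat.pow_pred_clog_lt_self (b := 2) (by norm_num) (show 1 < n by omega)
  have h4 := Nat.clog_pos (b := 2) (by norm_num) h1
  generalize Nat.clog 2 (Nat.clog 2 n) = T at *
  generalize Nat.clog 2 n = m at *
  obtain ⟨T, rfl⟩ : ∃ k, T = k + 1 := ⟨T - 1, by omega⟩
  obtain ⟨m, rfl⟩ : ∃ k, m = k + 1 := ⟨m - 1, by omega⟩
  rw [Nat.pred_succ] at h2 h3
  have h5 : (m : ℝ) * Real.log 2 ≤ Real.log n := by
    rw [← Real.log_pow]
    exact Real.log_le_log (by positivity) (by exact_mod_cast h3.le)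
  have h6 : (2 : ℝ) ^ T ≤ m := by exact_mod_cast Nat.lt_succ_iff.1 h2
  have h7 : (2 : ℝ) ^ (T + 1) ≤ 5 * Real.log n := by
    have := Real.log_two_gt_d9
    have h0 : (0 : ℝ) ≤ m := by positivity
    rw [pow_succ]
    nlinarith
  calc (GG (T + 1) : ℝ) ≤ ((2 ^ 38) ^ (T + 1) : ℕ) := by
        exact_mod_cast Nat.pow_le_pow_left (by norm_num [C8]) _
    _ = ((2 : ℝ) ^ (T + 1)) ^ 38 := by
        rw [← pow_mul, ← pow_mul, mul_comm, Nat.cast_pow, Nat.cast_ofNat]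
    _ ≤ _ := by gcongr

/-- `T = clog 2 (clog 2 n)`, `ℓ = ⌈3 log n⌉₊ + 20 ≤ 4 log n`.  `2^T ≤ 2 clog 2 n ≤ 5 log n`, so
`GG T ≤ (2^38)^T = (2^T)^38 ≤ (5 log n)^38`.  The first size is `n^2 c G^4 ℓ` with the constant
`c = 200 C8 12800^3`, at most `n^3 ≤ exp ℓ` once `4 c 5^152 (log n)^153 ≤ n`
(`isLittleO_pow_log_id_atTop` or `Real.tendsto_pow_log_div_mul_add_atTop`).  And
`8 G B = 8 * 10240000 C8 G^3 ℓ ≤ c' (log n)^115`, `100 (n+4) + 1 ≤ exp (log n ^ 2)`, so the total is at most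
`exp ((log n)^116)` once `log n ≥ c' + 1`. -/
theorem asym : ∃ N0 : ℕ, ∀ n ≥ N0, ∃ T ℓ : ℕ, 1 ≤ T ∧ n ≤ 2 ^ 2 ^ T ∧ 20 ≤ ℓ ∧
    100 * ((n : ℝ) ^ 2 * k0f T ^ 2 * (C8 * (b0f T ℓ * GG T))) ≤ Real.exp ℓ ∧
    100 * ((n : ℝ) + 4) * Real.exp (8 * (GG T : ℝ) * Bf T ℓ) + 1 ≤
      Real.exp (Real.log n ^ 116) := by
  obtain ⟨c, hc⟩ : ∃ c : ℝ, c = 4 * (200 * C8 * 12800 ^ 3) * 5 ^ 152 := ⟨_, rfl⟩
  obtain ⟨c', hc'⟩ : ∃ c : ℝ, c = 4 * (8 * 10240000 * C8) * 5 ^ 114 := ⟨_, rfl⟩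
  have c0 : 0 < c := by rw [hc]; norm_num [C8]
  have e1 : ∀ᶠ x : ℝ in Filter.atTop, c * Real.log x ^ 153 ≤ x := by
    filter_upwards [(Real.isLittleO_pow_log_id_atTop (n := 153)).def (inv_pos.2 c0),
      Filter.eventually_ge_atTop 0] with x h hx
    rw [id, Real.norm_of_nonneg hx, ← div_eq_inv_mul, le_div_iff₀ c0, mul_comm] at h
    exact (mul_le_mul_of_nonneg_left (le_abs_self _) c0.le).trans h
  have e2 := (Real.tendsto_log_atTop.eventually_ge_atTop (max 21 (c' + 1))).and e1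
  obtain ⟨N0, hN⟩ := Filter.eventually_atTop.1
    ((tendsto_natCast_atTop_atTop.eventually e2).and (Filter.eventually_ge_atTop 104))
  refine ⟨N0, fun n hn => ?_⟩
  obtain ⟨⟨h1, h2⟩, h3⟩ := hN n hn
  obtain ⟨hL, hL'⟩ := max_le_iff.1 h1
  have hG := asym_G (by omega) hL
  have h4 : 1 < Nat.clog 2 n := (Nat.lt_clog_iff_pow_lt (by norm_num)).2 (by omega)
  have hn0 : (104 : ℝ) ≤ n := by exact_mod_cast h3
  have hexp : Real.exp (Real.log n) = n := Real.exp_log (by linarith)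
  have hl : ((⌈3 * Real.log n⌉₊ + 20 : ℕ) : ℝ) ≤ 4 * Real.log n := by
    have := Nat.ceil_lt_add_one (show 0 ≤ 3 * Real.log n by linarith)
    push_cast
    linarith
  have hl' : 3 * Real.log n ≤ ((⌈3 * Real.log n⌉₊ + 20 : ℕ) : ℝ) := by
    have := Nat.le_ceil (3 * Real.log n)
    push_cast
    linarith
  refine ⟨Nat.clog 2 (Nat.clog 2 n), ⌈3 * Real.log n⌉₊ + 20, Nat.clog_pos (by norm_num) h4,
    (Nat.le_pow_clog (by norm_num) n).trans
      (Nat.pow_le_pow_right (by norm_num) (Nat.le_pow_clog (by norm_num) _)), by omega, ?_, ?_⟩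
  all_goals
    generalize ⌈3 * Real.log n⌉₊ + 20 = l at *
    simp only [Bf, b0f, k0f]
    generalize GG (Nat.clog 2 (Nat.clog 2 n)) = G at *
    generalize Real.log n = L at *
    have hL0 : 0 ≤ L := by linarith
    push_cast
  · calc _ = (n : ℝ) ^ 2 * ((200 * C8 * 12800 ^ 3) * (G ^ 4 * l)) := by ring
      _ ≤ (n : ℝ) ^ 2 * ((200 * C8 * 12800 ^ 3) * (((5 * L) ^ 38) ^ 4 * (4 * L))) := by gcongr
      _ = (n : ℝ) ^ 2 * (c * L ^ 153) := by rw [hc]; ring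
      _ ≤ (n : ℝ) ^ 2 * n := by gcongr
      _ = Real.exp (3 * L) := by
        rw [show 3 * L = L + L + L by ring, Real.exp_add, Real.exp_add, hexp]
        ring
      _ ≤ _ := Real.exp_le_exp.2 hl'
  · have k1 : 8 * (G : ℝ) * (400 * C8 * (2 * (12800 * G) * l) * G) ≤ c' * L ^ 115 :=
      calc _ = (8 * 10240000 * C8 : ℝ) * (G ^ 3 * l) := by ring
        _ ≤ (8 * 10240000 * C8 : ℝ) * (((5 * L) ^ 38) ^ 3 * (4 * L)) := by gcongr
        _ = _ := by rw [hc']; ring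
    have k2 : 100 * ((n : ℝ) + 4) + 1 ≤ Real.exp (L ^ 115) :=
      calc _ ≤ (n : ℝ) * n := by nlinarith
        _ = Real.exp (L + L) := by rw [Real.exp_add, hexp]
        _ ≤ _ := Real.exp_le_exp.2
          (le_trans (by nlinarith) (pow_le_pow_right₀ (by linarith) (show 2 ≤ 115 by norm_num)))
    have k3 := Real.one_le_exp (x := 8 * (G : ℝ) * (400 * C8 * (2 * (12800 * G) * l) * G))
      (by positivity)
    calc _ ≤ (100 * ((n : ℝ) + 4) + 1) *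
          Real.exp (8 * (G : ℝ) * (400 * C8 * (2 * (12800 * G) * l) * G)) := by linarith
      _ ≤ Real.exp (L ^ 115) * Real.exp (c' * L ^ 115) := by gcongr
      _ = Real.exp ((c' + 1) * L ^ 115) := by rw [← Real.exp_add]; ring_nf
      _ ≤ Real.exp (L * L ^ 115) := by gcongr
      _ = _ := by ring_nf

end Pool.Agent.Lib.MP_343fe0_pr.Up
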