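import Pool.Agent.Lib.MP_343fe0_pr.Up.RegL

set_option autoImplicit false

/-! Discrete Fourier inversion at radius `ρ` with the off-band frequencies dropped. -/

namespace Pool.Agent.Lib.MP_343fe0_pr.Up

open Finset

lemma band_orth (N : ℕ) (hN : 0 < N) (η : Fin N → ℝ)
    (hη : ∀ m, Complex.exp ((η m : ℂ) * Complex.I) = Complex.exp (2 * Real.pi * Complex.I / N) ^ (m : ℕ))
    {ρ : ℝ} (hρ : 0 < ρ) (j s : ℕ) (hj : j < N) (hs : s < N) :
    ∑ m, pol ρ⁻¹ (-η m) ^ j * pol ρ (η m) ^ s = if j = s then (N : ℂ) else 0 := by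
  have hω := Complex.isPrimitiveRoot_exp N hN.ne'
  set ω := Complex.exp (2 * Real.pi * Complex.I / N) with hω'
  have hω0 : ω ≠ 0 := Complex.exp_ne_zero _
  have hρ0 : (ρ : ℂ) ≠ 0 := by exact_mod_cast hρ.ne'
  have e1 : ∀ m, pol ρ⁻¹ (-η m) ^ j * pol ρ (η m) ^ s =
      ((ρ : ℂ)⁻¹ ^ j * (ρ : ℂ) ^ s) * (ω ^ s / ω ^ j) ^ (m : ℕ) := fun m => by
    simp only [pol, Complex.ofReal_neg, neg_mul, Complex.exp_neg, hη, Complex.ofReal_inv, mul_pow, div_pow,
      inv_pow, ← pow_mul, mul_comm (m : ℕ)]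
    field_simp
  simp only [e1, ← mul_sum]
  rw [Fin.sum_univ_eq_sum_range (fun m => (ω ^ s / ω ^ j) ^ m) N]
  split_ifs with h
  · subst h
    rw [div_self (pow_ne_zero _ hω0), ← mul_pow, inv_mul_cancel₀ hρ0]; simp
  · have h1 : ω ^ s / ω ^ j ≠ 1 := fun h1 =>
      h (hω.pow_inj hs hj ((div_eq_one_iff_eq (pow_ne_zero _ hω0)).1 h1)).symm
    rw [geom_sum_eq h1, div_pow, ← pow_mul, ← pow_mul, mul_comm s, mul_comm j, pow_mul, pow_mul,
      hω.pow_eq_one]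
    simp

lemma band_eta (N : ℕ) (hN : 0 < N) : ∃ η : Fin N → ℝ, (∀ m, |η m| ≤ Real.pi) ∧
    ∀ m, Complex.exp ((η m : ℂ) * Complex.I) = Complex.exp (2 * Real.pi * Complex.I / N) ^ (m : ℕ) := by
  have hN' : (0 : ℝ) < N := by exact_mod_cast hN
  have hπ := Real.pi_pos
  refine ⟨fun m => if 2 * (m : ℕ) ≤ N then 2 * Real.pi * (m : ℕ) / N else 2 * Real.pi * (m : ℕ) / N - 2 * Real.pi,
    fun m => ?_, fun m => ?_⟩
  · have h0 : (0 : ℝ) ≤ 2 * Real.pi * (m : ℕ) / N := by positivity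
    dsimp only
    split_ifs with h
    · have h' : (2 * (m : ℕ) : ℝ) ≤ N := by exact_mod_cast h
      rw [abs_of_nonneg h0, div_le_iff₀ hN']; nlinarith
    · have h' : (N : ℝ) ≤ 2 * (m : ℕ) := by exact_mod_cast (not_le.1 h).le
      have h2 : ((m : ℕ) : ℝ) ≤ N := by exact_mod_cast m.2.le
      have a1 : 2 * Real.pi * (m : ℕ) / N ≤ 2 * Real.pi := by rw [div_le_iff₀ hN']; nlinarith
      have a2 : Real.pi ≤ 2 * Real.pi * (m : ℕ) / N := by rw [le_div_iff₀ hN']; nlinarith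
      rw [abs_le]; constructor <;> linarith
  · have e : Complex.exp (2 * Real.pi * Complex.I / N) ^ (m : ℕ) =
        Complex.exp (((2 * Real.pi * (m : ℕ) / N : ℝ) : ℂ) * Complex.I) := by
      rw [← Complex.exp_nat_mul]; congr 1; push_cast; ring
    rw [e]
    dsimp only
    split_ifs
    · rfl
    · rw [Complex.ofReal_sub, sub_mul, Complex.exp_sub]
      have : Complex.exp (((2 * Real.pi : ℝ) : ℂ) * Complex.I) = 1 := by
        push_cast; exact Complex.exp_two_pi_mul_I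
      rw [this, div_one]

/-- For `m : Fin N` let `η' m ∈ [-π, π]` be `2 π m / N` if `2 m ≤ N` and `2 π (m - N) / N` otherwise,
`c' m = (∑_{j<D} q j * pol ρ⁻¹ (-η' m) ^ j) / N`.  Orthogonality of the `N`-th roots of unity gives
`∑ m, c' m * pol ρ (η' m) ^ s = q s` for `s < N` (for `j, s < N` the sum over `m` of
`exp (2 π i m (s - j) / N)` is `N` if `j = s` and `0` otherwise).  Put `c m = c' m`, `η m = η' m` if
`|η' m| ≤ β` and `c m = 0`, `η m = 0` otherwise. -/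
theorem band (q : ℕ → ℂ) (D N : ℕ) (hD : D ≤ N) (hN : 0 < N) (hq : ∀ s, D ≤ s → q s = 0)
    {ρ β C ε : ℝ} (hρ : 0 < ρ) (hβ : 0 ≤ β) (hε : 0 ≤ ε)
    (hC : ∀ η : ℝ, ‖∑ s ∈ range D, q s * pol ρ⁻¹ η ^ s‖ ≤ C)
    (hoff : ∀ η : ℝ, β < |η| → |η| ≤ Real.pi → ‖∑ s ∈ range D, q s * pol ρ⁻¹ η ^ s‖ ≤ ε) :
    ∃ (c : Fin N → ℂ) (η : Fin N → ℝ), (∀ m, |η m| ≤ β) ∧ ∑ m, ‖c m‖ ≤ C ∧
      ∀ s < N, ‖q s - ∑ m, c m * pol ρ (η m) ^ s‖ ≤ ε * ρ ^ s := by
  obtain ⟨η, hη1, hη2⟩ := band_eta N hN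
  have hN' : (0 : ℝ) < N := by exact_mod_cast hN
  have hN0 : (N : ℂ) ≠ 0 := by exact_mod_cast hN.ne'
  obtain ⟨c, hc⟩ : ∃ c : Fin N → ℂ, ∀ m, c m = (∑ j ∈ range D, q j * pol ρ⁻¹ (-η m) ^ j) / N := ⟨_, fun _ => rfl⟩
  have hcn : ∀ m, ‖c m‖ = ‖∑ j ∈ range D, q j * pol ρ⁻¹ (-η m) ^ j‖ / N := fun m => by
    rw [hc, norm_div, Complex.norm_natCast]
  have hinv : ∀ s < N, q s = ∑ m, c m * pol ρ (η m) ^ s := fun s hs => by
    simp only [hc, div_mul_eq_mul_div, ← sum_div, sum_mul, mul_assoc]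
    rw [sum_comm, eq_div_iff hN0]
    simp only [← mul_sum]
    rw [sum_congr rfl fun j hj => by
      rw [band_orth N hN η hη2 hρ j s ((mem_range.1 hj).trans_le hD) hs]]
    simp only [mul_ite, mul_zero, sum_ite_eq', mem_range]
    split_ifs with h
    · rfl
    · rw [hq s (not_lt.1 h), zero_mul]
  refine ⟨fun m => if |η m| ≤ β then c m else 0, fun m => if |η m| ≤ β then η m else 0, fun m => ?_, ?_,
    fun s hs => ?_⟩
  · dsimp only
    split_ifs with h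
    · exact h
    · simpa using hβ
  · have hC0 : 0 ≤ C := (norm_nonneg _).trans (hC 0)
    refine (sum_le_sum (g := fun _ => C / N) fun m _ => ?_).trans (by simp; field_simp; rfl)
    dsimp only
    split_ifs with h
    · rw [hcn]; exact div_le_div_of_nonneg_right (hC _) hN'.le
    · rw [norm_zero]; positivity
  · rw [hinv s hs, ← sum_sub_distrib]
    refine (norm_sum_le _ _).trans ((sum_le_sum (g := fun _ => ε / N * ρ ^ s) fun m _ => ?_).trans
      (by simp; field_simp; rfl))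
    dsimp only
    split_ifs with h
    · rw [sub_self, norm_zero]; positivity
    · rw [zero_mul, sub_zero, norm_mul, norm_pow, norm_pol, abs_of_pos hρ, hcn]
      refine mul_le_mul_of_nonneg_right (div_le_div_of_nonneg_right ?_ hN'.le) (by positivity)
      exact hoff _ (by rw [abs_neg]; exact not_le.1 h) (by rw [abs_neg]; exact hη1 m)

end Pool.Agent.Lib.MP_343fe0_pr.Up
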