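import Pool.Agent.Lib.MP_343fe0_pr.Up.KerB

set_option autoImplicit false

/-! The generating function of the smoothed plateau. -/

namespace Pool.Agent.Lib.MP_343fe0_pr.Up

open Finset

/-- `Polynomial.aeval_eq_sum_range'` style: the sum is the value of `Qp` at `z`
(`ker_eq_zero_of_ge` for the degree bound; the case `D = 0` forces `a = 0`). -/
theorem ker_eval (o a k b D : ℕ) (hD : o + a + b * k ≤ D) (z : ℂ) :
    ∑ s ∈ range D, (ker o a k b s : ℂ) * z ^ s =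
      z ^ o * (∑ i ∈ range a, z ^ i) * ((1 / (k : ℂ)) * ∑ i ∈ range k, z ^ i) ^ b := by
  have hdeg : (Qp o a k b).natDegree < D + 1 :=
    Nat.lt_succ_of_le (Polynomial.natDegree_le_iff_coeff_eq_zero.2 fun n hn =>
      ker_eq_zero_of_ge o a k b n (by omega))
  have h := Polynomial.aeval_eq_sum_range' hdeg z
  have h0 : (Qp o a k b).coeff D = 0 := ker_eq_zero_of_ge o a k b D hD
  simp only [sum_range_succ, h0, Complex.ofReal_zero, zero_mul, add_zero, Complex.real_smul] at h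
  unfold ker
  rw [← h, Qp]
  simp

lemma kere_geom (n : ℕ) (z : ℂ) (hz : 1 ≤ ‖z‖) : ‖∑ i ∈ range n, z ^ i‖ ≤ n * ‖z‖ ^ n := by
  refine (norm_sum_le _ _).trans ((sum_le_sum (g := fun _ => ‖z‖ ^ n) fun i hi => ?_).trans (by simp))
  rw [norm_pow]
  exact pow_le_pow_right₀ hz (mem_range.1 hi).le

lemma kere_aux (o a k b D : ℕ) (hD : o + a + b * k ≤ D) (z : ℂ) (hz : 1 ≤ ‖z‖) {γ : ℝ}
    (h : ‖(1 / (k : ℂ)) * ∑ i ∈ range k, z ^ i‖ ≤ ‖z‖ ^ k * γ) :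
    ‖∑ s ∈ range D, (ker o a k b s : ℂ) * z ^ s‖ ≤ a * ‖z‖ ^ (o + a + b * k) * γ ^ b := by
  rw [ker_eval o a k b D hD, norm_mul, norm_mul, norm_pow, norm_pow]
  calc _ ≤ ‖z‖ ^ o * (a * ‖z‖ ^ a) * (‖z‖ ^ k * γ) ^ b :=
        mul_le_mul (mul_le_mul_of_nonneg_left (kere_geom a z hz) (by positivity))
          (pow_le_pow_left₀ (norm_nonneg _) h b) (by positivity) (by positivity)
    _ = _ := by ring

theorem ker_eval_le (o a k b D : ℕ) (hk : 1 ≤ k) (hD : o + a + b * k ≤ D) (z : ℂ) (hz : 1 ≤ ‖z‖) :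
    ‖∑ s ∈ range D, (ker o a k b s : ℂ) * z ^ s‖ ≤ a * ‖z‖ ^ (o + a + b * k) := by
  have hk0 : (0 : ℝ) < k := by exact_mod_cast hk
  have := kere_aux o a k b D hD z hz (γ := 1) (by
    rw [norm_mul, norm_div, norm_one, Complex.norm_natCast, mul_one, one_div, inv_mul_le_iff₀ hk0]
    exact kere_geom k z hz)
  simpa using this

/-- `‖∑_{i<k} z^i‖ = ‖z^k - 1‖ / ‖z - 1‖ ≤ 2 ‖z‖^k / β` (`geom_sum_eq`, `mul_geom_sum`). -/
theorem ker_eval_off (o a k b D : ℕ) (hk : 1 ≤ k) (hD : o + a + b * k ≤ D) (z : ℂ) (hz : 1 ≤ ‖z‖)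
    {β : ℝ} (hβ : 0 < β) (hzβ : β ≤ ‖1 - z‖) :
    ‖∑ s ∈ range D, (ker o a k b s : ℂ) * z ^ s‖ ≤
      a * ‖z‖ ^ (o + a + b * k) * (2 / (k * β)) ^ b := by
  have hk0 : (0 : ℝ) < k := by exact_mod_cast hk
  refine kere_aux o a k b D hD z hz ?_
  have h1 : ‖∑ i ∈ range k, z ^ i‖ * ‖1 - z‖ ≤ 2 * ‖z‖ ^ k := by
    rw [← norm_mul, geom_sum_mul_neg]
    have := norm_sub_le 1 (z ^ k)
    rw [norm_one, norm_pow] at this
    linarith [one_le_pow₀ (n := k) hz]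
  have h2 : ‖∑ i ∈ range k, z ^ i‖ * β ≤ 2 * ‖z‖ ^ k :=
    (mul_le_mul_of_nonneg_left hzβ (norm_nonneg _)).trans h1
  rw [norm_mul, norm_div, norm_one, Complex.norm_natCast, ← mul_div_assoc, le_div_iff₀ (by positivity)]
  calc 1 / (k : ℝ) * ‖∑ i ∈ range k, z ^ i‖ * (k * β) = ‖∑ i ∈ range k, z ^ i‖ * β := by field_simp
    _ ≤ _ := by linarith

end Pool.Agent.Lib.MP_343fe0_pr.Up
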