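import Pool.Agent.Lib.MP_343fe0_pr.Up.Band
import Pool.Agent.Lib.MP_343fe0_pr.Up.KerE

set_option autoImplicit false

/-! The band expansion of the smoothed plateau. -/

namespace Pool.Agent.Lib.MP_343fe0_pr.Up

open Finset

/-- `band` with `D = o + a + b k`, `ker_eval_le`, `ker_eval_off` at `β / 2` via `norm_one_sub_pol`. -/
theorem ker_band (o a k b N : ℕ) (hk : 1 ≤ k) (hN : o + a + b * k < N) {ρ β : ℝ} (hρ : 0 < ρ)
    (hρ1 : ρ ≤ 1) (hβ : 0 < β) :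
    ∃ (c : Fin N → ℂ) (η : Fin N → ℝ), (∀ m, |η m| ≤ β) ∧
      ∑ m, ‖c m‖ ≤ a * ρ⁻¹ ^ (o + a + b * k) ∧
      ∀ s < N, ‖(ker o a k b s : ℂ) - ∑ m, c m * pol ρ (η m) ^ s‖ ≤
        a * ρ⁻¹ ^ (o + a + b * k) * (4 / (k * β)) ^ b * ρ ^ s := by
  have h1 : ∀ η : ℝ, ‖pol ρ⁻¹ η‖ = ρ⁻¹ := fun η => by rw [norm_pol, abs_of_pos (inv_pos.2 hρ)]
  have h2 : 1 ≤ ρ⁻¹ := (one_le_inv₀ hρ).2 hρ1
  refine band (fun s => (ker o a k b s : ℂ)) (o + a + b * k) N hN.le (by omega)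
    (fun s hs => by rw [ker_eq_zero_of_ge o a k b s hs, Complex.ofReal_zero]) hρ hβ.le (by positivity)
    (fun η => ?_) fun η h3 h4 => ?_
  · have := ker_eval_le o a k b _ hk le_rfl (pol ρ⁻¹ η) (by rw [h1]; exact h2)
    rwa [h1] at this
  · have := ker_eval_off o a k b _ hk le_rfl (pol ρ⁻¹ η) (by rw [h1]; exact h2) (β := β / 2) (by positivity)
      (le_trans (by linarith) (norm_one_sub_pol h2 h4))
    rw [h1] at this
    refine this.trans (le_of_eq ?_)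
    congr 2
    field_simp
    norm_num

/-- `(1 - lam)⁻¹ ≤ exp (2 lam)` for `0 ≤ lam ≤ 1 / 2`. -/
theorem inv_one_sub_pow_le {lam : ℝ} (h0 : 0 ≤ lam) (h1 : lam ≤ 1 / 2) (n : ℕ) :
    (1 - lam)⁻¹ ^ n ≤ Real.exp (2 * lam * n) := by
  rw [mul_comm, Real.exp_nat_mul]
  refine pow_le_pow_left₀ (inv_nonneg.2 (by linarith)) ?_ n
  refine le_trans ?_ (Real.add_one_le_exp _)
  rw [inv_le_iff_one_le_mul₀ (by linarith)]
  nlinarith

/-- `exp 2 < 8`. -/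
theorem eighth_pow_le (n : ℕ) : (1 / 8 : ℝ) ^ n ≤ Real.exp (-(2 * n)) := by
  rw [show -(2 * (n : ℝ)) = n * (-2) by ring, Real.exp_nat_mul]
  refine pow_le_pow_left₀ (by norm_num) ?_ n
  rw [Real.exp_neg, one_div]
  refine inv_anti₀ (Real.exp_pos _) ?_
  have h := Real.exp_one_lt_d9
  have e : Real.exp 2 = Real.exp 1 * Real.exp 1 := by rw [← Real.exp_add]; norm_num
  rw [e]; nlinarith [Real.exp_pos 1]

/-- `exp (-1/k) ≤ 1 - 1 / (2 k)` for `k ≥ 1`. -/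
theorem exp_neg_inv_le {k : ℝ} (hk : 1 ≤ k) : Real.exp (-(1 / k)) ≤ 1 - 1 / (2 * k) := by
  have h0 : 0 < 1 / k := by positivity
  have h1 : 1 / k ≤ 1 := by rw [div_le_one (by linarith)]; exact hk
  have e : 1 / (2 * k) = 1 / k / 2 := by field_simp
  rw [e, Real.exp_neg, inv_le_iff_one_le_mul₀ (Real.exp_pos _)]
  have h2 := Real.add_one_le_exp (1 / k)
  nlinarith [mul_le_mul_of_nonneg_left h2 (show 0 ≤ 1 - 1 / k / 2 by linarith)]

/-- A finite geometric sum with ratio at most `1 - lam`. -/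
theorem geom_le_inv {r lam : ℝ} (hr0 : 0 ≤ r) (hlam : 0 < lam) (hr : r ≤ 1 - lam) (n : ℕ) :
    ∑ s ∈ range n, r ^ s ≤ 1 / lam := by
  rw [le_div_iff₀ hlam]
  have h1 := geom_sum_mul_neg r n
  have h2 : 0 ≤ ∑ s ∈ range n, r ^ s := sum_nonneg fun s _ => by positivity
  nlinarith [mul_le_mul_of_nonneg_left (show lam ≤ 1 - r by linarith) h2, pow_nonneg hr0 n]

end Pool.Agent.Lib.MP_343fe0_pr.Up
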