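import Pool.Agent.Lib.MP_343fe0_pr.Up.ClB
import Pool.Agent.Lib.MP_343fe0_pr.Up.KerBand

set_option autoImplicit false

/-! The first scale. -/

namespace Pool.Agent.Lib.MP_343fe0_pr.Up

open Finset

theorem IH_mono {ℓ t t' K K' e e' : ℝ} {Λ k b d d' : ℕ} {x y : List Bool}
    (h : IH ℓ Λ k b t d K e x y) (ht : t ≤ t') (hd : d ≤ d') (hK : K ≤ K') (he : e ≤ e') :
    IH ℓ Λ k b t' d' K' e' x y := by
  obtain ⟨α, h1, h2, h3, h4⟩ := h
  exact ⟨α, h1, h2, apx_mono h3 ht hd hK he, h4⟩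

/-- `α l = if l.getD 0 false then 1 else 1 / 3`, the loop with ratio `0` and constant parts `1/3`,
`2/3`; `x0 = 2`, `θ0 = 0`.  The lists are nonempty, the term `s = 0` has norm `2/3`, the others at most
`2/3 * exp (-2) ^ s` with `exp (-2) ≤ 1/7`, in total at most `1/9`; and
`exp (-(b / (2k))) ≤ exp (-1) ≤ 1/2`. -/
theorem base0 {ℓ t : ℝ} (k b : ℕ) (x y : List Bool) (hlen : x.length = y.length)
    (hne : x.getD 0 false ≠ y.getD 0 false) (hk : 1 ≤ k) (hℓ : 1 ≤ ℓ) (hb : 2 * k * ℓ ≤ b) :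
    IH ℓ 0 k b t 1 2 0 x y := by
  have k1 : (1 : ℝ) ≤ k := Nat.one_le_cast.2 hk
  have e2 : Real.exp (-2) ≤ 1 / 7 := by
    have h := Real.exp_one_gt_d9
    rw [Real.exp_neg, show (2 : ℝ) = 1 + 1 by norm_num, Real.exp_add, one_div]
    exact inv_anti₀ (by norm_num) (by nlinarith)
  have e0 := Real.exp_pos (-2)
  let α : List Bool → ℝ := fun l => if l.getD 0 false then 1 else 1 / 3
  have hα : ∀ l, 1 / 3 ≤ α l ∧ α l ≤ 1 := fun l => by
    simp only [α]
    split_ifs <;> norm_num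
  refine ⟨α, hα, fun l l' h => by simp only [α, h 0 (by omega)], ⟨_, ?_, fun _ => by
    rw [sub_self, norm_zero]⟩, 2, 0, ?_, by norm_num, by linarith, Or.inr ?_, ?_⟩
  · have := Cl.loop (t := t) 0 (1 / 3) (2 / 3) 1 0 (fun _ => 1 / 3) (fun _ => 2 / 3)
      (fun l => (α l : ℂ)) (Or.inl rfl) (Cl.const _ _ _ (by norm_num))
      (Cl.const _ _ _ (by norm_num)) (by simp [α]; norm_num) fun b x => by
        cases b <;> simp [α, bit]
        norm_num
    rwa [show (1 / 3 + 2 / 3 + 1 : ℝ) = 2 by norm_num] at this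
  · rw [div_le_iff₀ (by linarith)]
    linarith
  · rw [pol_zero, ← Complex.ofReal_sub, Complex.norm_real, Real.norm_eq_abs, abs_le]
    constructor <;> linarith
  · obtain ⟨n, hn⟩ : ∃ n, x.length = n + 1 := Nat.exists_eq_succ_of_ne_zero fun h => hne (by
      rw [List.length_eq_zero_iff.1 h, List.length_eq_zero_iff.1 (hlen.symm.trans h)])
    have h1 : Real.exp (-(b / (k * 2))) ≤ 1 / 2 := by
      have : (1 : ℝ) ≤ b / (k * 2) := by
        rw [le_div_iff₀ (by linarith)]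
        nlinarith
      rw [Real.exp_neg, one_div]
      exact inv_anti₀ two_pos (by linarith [Real.add_one_le_exp ((b : ℝ) / (k * 2))])
    have h2 : ‖((α (x.drop 0) - α (y.drop 0) : ℝ) : ℂ) * pol (Real.exp (-2)) 0 ^ 0‖ = 2 / 3 := by
      rw [pow_zero, mul_one, Complex.norm_real, Real.norm_eq_abs]
      simp only [α, List.drop_zero]
      revert hne
      cases x.getD 0 false <;> cases y.getD 0 false <;> norm_num
    have h3 : ‖∑ s ∈ range n, ((α (x.drop (s + 1)) - α (y.drop (s + 1)) : ℝ) : ℂ) *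
        pol (Real.exp (-2)) 0 ^ (s + 1)‖ ≤ 2 / 21 * ∑ s ∈ range n, Real.exp (-2) ^ s := by
      rw [mul_sum]
      refine norm_sum_le_of_le _ fun s _ => ?_
      have := hα (x.drop (s + 1))
      have := hα (y.drop (s + 1))
      rw [norm_mul, norm_pow, norm_pol, abs_of_pos e0, Complex.norm_real, Real.norm_eq_abs, pow_succ',
        ← mul_assoc]
      refine mul_le_mul_of_nonneg_right ?_ (by positivity)
      exact (mul_le_mul (abs_le.2 ⟨by linarith, by linarith⟩ : _ ≤ (2 / 3 : ℝ)) e2 e0.le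
        (by norm_num)).trans (by norm_num)
    have h4 := geom_le_inv (lam := 6 / 7) e0.le (by norm_num) (by linarith) n
    have h5 : ∀ a c : ℂ, ‖a‖ - ‖c‖ ≤ ‖c + a‖ := fun a c => by
      simpa [add_comm] using norm_sub_norm_le a (-c)
    rw [hn, sum_range_succ']
    refine le_trans ?_ (h5 _ _)
    rw [h2]
    linarith

end Pool.Agent.Lib.MP_343fe0_pr.Up
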