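import Pool.Agent.Lib.MP_343fe0_pr.Up.Comb

set_option autoImplicit false

/-! The three-point test. -/

namespace Pool.Agent.Lib.MP_343fe0_pr.Up

open Finset

theorem bisp_ph {a : ℂ} (ha : a ≠ 0) : ‖a / (‖a‖ : ℂ)‖ = 1 := by
  rw [norm_div, Complex.norm_real, norm_norm, div_self (norm_ne_zero_iff.2 ha)]

theorem bisp_cj (p : ℂ) {q : ℂ} (hq : ‖q‖ = 1) : ‖p * (starRingEnd ℂ) q - 1‖ = ‖p - q‖ := by
  have : q * (starRingEnd ℂ) q = 1 := by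
    rw [Complex.mul_conj', hq]
    simp
  rw [← this, ← sub_mul, norm_mul, Complex.norm_conj, hq, mul_one]

theorem bisp_dist {a b : ℂ} (ha : a ≠ 0) (hb : b ≠ 0) :
    ‖a - b‖ ≤ ‖b / (‖b‖ : ℂ) - a / (‖a‖ : ℂ)‖ * ‖a‖ + |‖a‖ - ‖b‖| := by
  have ha2 : (‖a‖ : ℂ) ≠ 0 := by exact_mod_cast norm_ne_zero_iff.2 ha
  have hb2 : (‖b‖ : ℂ) ≠ 0 := by exact_mod_cast norm_ne_zero_iff.2 hb
  have e : a - b = -((b / (‖b‖ : ℂ) - a / (‖a‖ : ℂ)) * (‖a‖ : ℂ)) +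
      b / (‖b‖ : ℂ) * ((‖a‖ - ‖b‖ : ℝ) : ℂ) := by
    push_cast
    field_simp
    ring
  refine (congrArg norm e).trans_le ((norm_add_le _ _).trans_eq ?_)
  rw [norm_neg, norm_mul, norm_mul, bisp_ph hb, one_mul, Complex.norm_real, norm_norm,
    Complex.norm_real, Real.norm_eq_abs]

/-- `‖a / ‖a‖ - b / ‖b‖‖ ≤ 2 ‖a - b‖ / ‖b‖`. -/
theorem phase_sub_le (a b : ℂ) (ha : a ≠ 0) (hb : b ≠ 0) :
    ‖a / (‖a‖ : ℂ) - b / (‖b‖ : ℂ)‖ ≤ 2 * ‖a - b‖ / ‖b‖ := by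
  have ha' : 0 < ‖a‖ := norm_pos_iff.2 ha
  have hb' : 0 < ‖b‖ := norm_pos_iff.2 hb
  have ha2 : (‖a‖ : ℂ) ≠ 0 := by exact_mod_cast ha'.ne'
  have hb2 : (‖b‖ : ℂ) ≠ 0 := by exact_mod_cast hb'.ne'
  have e : a / (‖a‖ : ℂ) - b / (‖b‖ : ℂ) =
      (a / (‖a‖ : ℂ) * ((‖b‖ - ‖a‖ : ℝ) : ℂ) + (a - b)) / (‖b‖ : ℂ) := by
    push_cast
    field_simp
    ring
  rw [e, norm_div, Complex.norm_real, norm_norm]
  refine div_le_div_of_nonneg_right ((norm_add_le _ _).trans ?_) hb'.le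
  rw [norm_mul, bisp_ph ha, one_mul, Complex.norm_real, Real.norm_eq_abs, abs_sub_comm]
  linarith [abs_norm_sub_norm_le a b]

/-- By contradiction, all triples are closer than `ε = η^4 / (1000 M^3 N)`.  `S 0`, `T 0` are real
and `≥ 1`; the triple `(0,0,0)` gives `|S 0 - T 0| ≤ ε / 3`, the triple `(i,-i,0)` gives
`|‖S i‖^2 - ‖T i‖^2| ≤ 2 M^2 ε`.  Let `Bad` be the filter and `A = Bad.erase 0`.  For `|i| ≤ N`,
`i ∉ A`: `‖S i‖, ‖T i‖ ≥ η / 3`.  Put `u i = T i / ‖T i‖ * conj (S i / ‖S i‖)`; `phase_sub_le` for the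
products gives `‖u i u j u l - 1‖ ≤ 54 ε / η^3`.  Some `a ≤ N / 10` is not in `Bad`
(`N / 10 + 1 > card Bad`); `comb` gives `‖u a - 1‖ ≤ 216 ε a / η^3`, while
`η < ‖S a - T a‖ ≤ M ‖u a - 1‖ + |‖S a‖ - ‖T a‖|` and `|‖S a‖ - ‖T a‖| ≤ 3 M^2 ε / η`. -/
theorem bisp (N : ℕ) (hN : 1 ≤ N) (S T : ℤ → ℂ) {M η : ℝ} (hM : 1 ≤ M) (hη0 : 0 < η) (hη : η ≤ 1)
    (hS : ∀ i, ‖S i‖ ≤ M) (hT : ∀ i, ‖T i‖ ≤ M)
    (hSc : ∀ i, S (-i) = (starRingEnd ℂ) (S i)) (hTc : ∀ i, T (-i) = (starRingEnd ℂ) (T i))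
    (hS0 : 1 ≤ (S 0).re) (hT0 : 1 ≤ (T 0).re)
    (hcard : 100 * ((Icc (-(N : ℤ)) N).filter (fun i => ‖S i - T i‖ ≤ η)).card < N) :
    ∃ i j l : ℤ, |i| ≤ N ∧ |j| ≤ N ∧ |l| ≤ N ∧ |i + j + l| ≤ 1 ∧
      η ^ 4 / (1000 * M ^ 3 * N) ≤ ‖S i * S j * S l - T i * T j * T l‖ := by
  classical
  by_contra hcon
  push Not at hcon
  have hN1 : (1 : ℝ) ≤ N := by exact_mod_cast hN
  have hM0 : 0 < M := by linarith
  set ε := η ^ 4 / (1000 * M ^ 3 * N) with hε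
  have ε0 : 0 < ε := by positivity
  have hεe : ε * (1000 * M ^ 3 * N) = η ^ 4 := div_mul_cancel₀ _ (by positivity)
  set Bad := (Icc (-(N : ℤ)) N).filter (fun i => ‖S i - T i‖ ≤ η) with hBad
  have re : ∀ F : ℤ → ℂ, (∀ i, F (-i) = (starRingEnd ℂ) (F i)) → F 0 = ((F 0).re : ℂ) :=
    fun F h => (Complex.conj_eq_iff_re.1 (by simpa using (h 0).symm)).symm
  obtain ⟨s, hs, s1⟩ : ∃ s : ℝ, S 0 = s ∧ 1 ≤ s := ⟨_, re S hSc, hS0⟩
  obtain ⟨t, ht, t1⟩ : ∃ t : ℝ, T 0 = t ∧ 1 ≤ t := ⟨_, re T hTc, hT0⟩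
  have z0 : |(0 : ℤ)| ≤ N := by simp
  have h0 : |s - t| ≤ ε := by
    have h := hcon 0 0 0 z0 z0 z0 (by simp)
    rw [hs, ht, show (s : ℂ) * s * s - t * t * t = (((s - t) * (s ^ 2 + s * t + t ^ 2) : ℝ) : ℂ) by
      push_cast; ring, Complex.norm_real, Real.norm_eq_abs, abs_mul,
      abs_of_nonneg (show 0 ≤ s ^ 2 + s * t + t ^ 2 by positivity)] at h
    exact le_trans (le_mul_of_one_le_right (abs_nonneg _) (by nlinarith)) h.le
  have M2 : 1 ≤ M ^ 2 := one_le_pow₀ hM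
  have hsq : ∀ i : ℤ, |i| ≤ N → |‖S i‖ ^ 2 - ‖T i‖ ^ 2| ≤ 2 * M ^ 2 * ε := fun i hi => by
    have h := hcon i (-i) 0 hi (by rwa [abs_neg]) z0 (by simp)
    rw [hs, ht, hSc, hTc, Complex.mul_conj', Complex.mul_conj', show (‖S i‖ : ℂ) ^ 2 * s -
      (‖T i‖ : ℂ) ^ 2 * t = ((‖S i‖ ^ 2 * s - ‖T i‖ ^ 2 * t : ℝ) : ℂ) by push_cast; ring,
      Complex.norm_real, Real.norm_eq_abs] at h
    have h1 : ‖T i‖ ^ 2 ≤ M ^ 2 := pow_le_pow_left₀ (norm_nonneg _) (hT i) 2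
    have h2 : |‖T i‖ ^ 2 * (s - t)| ≤ M ^ 2 * ε := by
      rw [abs_mul, abs_of_nonneg (sq_nonneg _)]
      exact mul_le_mul h1 h0 (abs_nonneg _) (by positivity)
    have h3 : |(‖S i‖ ^ 2 - ‖T i‖ ^ 2) * s| ≤ ε + M ^ 2 * ε := by
      rw [show (‖S i‖ ^ 2 - ‖T i‖ ^ 2) * s =
        (‖S i‖ ^ 2 * s - ‖T i‖ ^ 2 * t) - ‖T i‖ ^ 2 * (s - t) by ring]
      exact (abs_sub _ _).trans (add_le_add h.le h2)
    rw [abs_mul, abs_of_pos (show 0 < s by linarith)] at h3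
    have h4 := le_mul_of_one_le_right (abs_nonneg (‖S i‖ ^ 2 - ‖T i‖ ^ 2)) s1
    nlinarith
  have hMε : M ^ 2 * ε ≤ η ^ 4 / 1000 := by
    rw [le_div_iff₀ (by norm_num), ← hεe]
    have : M ^ 2 * 1 ≤ M ^ 2 * (M * N) :=
      mul_le_mul_of_nonneg_left (one_le_mul_of_one_le_of_one_le hM hN1) (by positivity)
    nlinarith
  have η2 : η ^ 4 ≤ η ^ 2 := pow_le_pow_of_le_one hη0.le hη (by norm_num)
  have big : ∀ i : ℤ, |i| ≤ N → i ∉ Bad.erase 0 → η / 3 ≤ ‖S i‖ ∧ η / 3 ≤ ‖T i‖ := by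
    intro i hi hb
    by_cases h : i = 0
    · rw [h, hs, ht, Complex.norm_real, Complex.norm_real, Real.norm_eq_abs, Real.norm_eq_abs,
        abs_of_pos (by linarith), abs_of_pos (by linarith)]
      constructor <;> linarith
    · have h1 : η < ‖S i - T i‖ := not_le.1 fun h' =>
        hb (mem_erase.2 ⟨h, mem_filter.2 ⟨mem_Icc.2 (abs_le.1 hi), h'⟩⟩)
      have h2 := h1.trans_le (norm_sub_le _ _)
      have h3 := abs_le.1 (hsq i hi)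
      have a := norm_nonneg (S i)
      have b := norm_nonneg (T i)
      constructor <;> by_contra hn <;> rw [not_le] at hn <;> nlinarith
  have nz : ∀ {x : ℂ}, η / 3 ≤ ‖x‖ → x ≠ 0 := fun h => norm_pos_iff.1 (by linarith)
  set u : ℤ → ℂ := fun i => T i / (‖T i‖ : ℂ) * (starRingEnd ℂ) (S i / (‖S i‖ : ℂ)) with hu
  have hc1 : (Bad.erase 0).card ≤ Bad.card := card_erase_le
  obtain ⟨a, ha1, ha2⟩ := exists_mem_notMem_of_card_lt_card (s := Bad)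
    (t := (range (N / 10 + 1)).image fun a : ℕ => (a : ℤ))
    (by rw [card_image_of_injective _ Nat.cast_injective, card_range]; omega)
  obtain ⟨a, ha3, rfl⟩ := mem_image.1 ha1
  have ha4 : 10 * a ≤ N := by have := mem_range.1 ha3; omega
  have ha5 : |(a : ℤ)| ≤ N := by rw [Nat.abs_cast]; omega
  have ha6 : (a : ℤ) ∉ Bad.erase 0 := fun h => ha2 (mem_of_mem_erase h)
  have hc := comb N u (Bad.erase 0) (ε := 54 * ε / η ^ 3) (by omega)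
    (fun i hi => by
      obtain ⟨h1, h2⟩ := mem_erase.1 hi
      obtain ⟨h2, h3⟩ := mem_filter.1 h2
      rw [mem_Icc] at h2
      refine mem_erase.2 ⟨neg_ne_zero.2 h1, mem_filter.2 ⟨mem_Icc.2 ⟨by omega, by omega⟩, ?_⟩⟩
      rwa [hSc, hTc, ← map_sub, Complex.norm_conj])
    (notMem_erase _ _)
    (fun i hi hb => by
      simp only [hu]
      rw [norm_mul, Complex.norm_conj, bisp_ph (nz (big i hi hb).1), bisp_ph (nz (big i hi hb).2),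
        one_mul])
    (fun i => by simp [hu, hSc, hTc])
    (by
      have s0 : (s : ℂ) ≠ 0 := by exact_mod_cast (show s ≠ 0 by linarith)
      have t0 : (t : ℂ) ≠ 0 := by exact_mod_cast (show t ≠ 0 by linarith)
      simp [hu, hs, ht, abs_of_pos (show 0 < s by linarith), abs_of_pos (show 0 < t by linarith),
        s0, t0])
    (fun i j l hi hj hl bi bj bl hsum => by
      obtain ⟨a1, b1⟩ := big i hi bi
      obtain ⟨a2, b2⟩ := big j hj bj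
      obtain ⟨a3, b3⟩ := big l hl bl
      have n1 : S i * S j * S l ≠ 0 := mul_ne_zero (mul_ne_zero (nz a1) (nz a2)) (nz a3)
      have n2 : T i * T j * T l ≠ 0 := mul_ne_zero (mul_ne_zero (nz b1) (nz b2)) (nz b3)
      have e : u i * u j * u l = T i * T j * T l / (‖T i * T j * T l‖ : ℂ) *
          (starRingEnd ℂ) (S i * S j * S l / (‖S i * S j * S l‖ : ℂ)) := by
        simp only [hu, norm_mul, Complex.ofReal_mul, ← div_mul_div_comm, map_mul]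
        ring
      rw [e, bisp_cj _ (bisp_ph n1)]
      refine (phase_sub_le _ _ n2 n1).trans ?_
      have lo : η / 3 * (η / 3) * (η / 3) ≤ ‖S i * S j * S l‖ := by
        rw [norm_mul, norm_mul]
        gcongr
      have up := (hcon i j l hi hj hl hsum).le
      rw [norm_sub_rev] at up
      calc _ ≤ 2 * ε / (η / 3 * (η / 3) * (η / 3)) := by gcongr
        _ = _ := by field_simp; ring)
    a ha4 ha6
  obtain ⟨a1, b1⟩ := big a ha5 ha6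
  have h1 : η < ‖S a - T a‖ := not_le.1 fun h' =>
    ha2 (mem_filter.2 ⟨mem_Icc.2 (abs_le.1 ha5), h'⟩)
  simp only [hu] at hc
  rw [bisp_cj _ (bisp_ph (nz a1))] at hc
  have h2 := bisp_dist (nz a1) (nz b1)
  have h3 : 4 * (54 * ε / η ^ 3) * a * M ≤ η / 10 := by
    have ha7 : (10 : ℝ) * a ≤ N := by exact_mod_cast ha4
    have : 4 * (54 * ε / η ^ 3) * a * M = 216 * (ε * (a * M)) / η ^ 3 := by ring
    rw [this, div_le_iff₀ (by positivity)]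
    have h4 : a * M ≤ N / 10 * M ^ 3 :=
      mul_le_mul (by linarith) (le_self_pow₀ hM (by norm_num)) hM0.le (by positivity)
    have h5 := mul_le_mul_of_nonneg_left h4 ε0.le
    have h6 : 0 < η ^ 4 := by positivity
    nlinarith
  have h4 := mul_le_mul hc (hS a) (norm_nonneg _) (by positivity)
  have h5 : |‖S a‖ - ‖T a‖| ≤ η / 10 := by
    have h6 := hsq a ha5
    rw [sq_sub_sq, abs_mul, abs_of_nonneg (by positivity)] at h6
    have h7 := mul_le_mul_of_nonneg_right (show 2 * η / 3 ≤ ‖S a‖ + ‖T a‖ by linarith)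
      (abs_nonneg (‖S a‖ - ‖T a‖))
    by_contra hn
    rw [not_le] at hn
    nlinarith
  linarith

end Pool.Agent.Lib.MP_343fe0_pr.Up
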