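import Pool.Agent.Lib.MP_343fe0_pr.Up.UDefs

set_option autoImplicit false

/-! A Chernoff bound by counting. -/

namespace Pool.Agent.Lib.MP_343fe0_pr.Up

open Finset

/-- With `τ = δ / 16`: `exp v ≤ 1 + v + v^2` for `|v| ≤ 1`, so `∑ ω, exp (τ Z ω) ≤ card (1 + 4 τ^2) ≤
card exp (4 τ^2)`; `∑ s, ∏ i, f (s i) = (∑ f) ^ m` (`Finset.prod_univ_sum`, `Fintype.piFinset_univ`);
each counted `s` contributes at least `exp (τ m δ / 2)`. -/
theorem chern {Ω : Type} [Fintype Ω] [DecidableEq Ω] (Z : Ω → ℝ) (hZ : ∀ ω, |Z ω| ≤ 2)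
    (h0 : ∑ ω, Z ω = 0) {δ : ℝ} (hδ0 : 0 < δ) (hδ : δ ≤ 1) (m : ℕ) :
    ((univ.filter fun s : Fin m → Ω => m * δ / 2 ≤ ∑ i, Z (s i)).card : ℝ) ≤
      (Fintype.card Ω : ℝ) ^ m * Real.exp (-(m * δ ^ 2 / 64)) := by
  have h1 : ∑ ω, Real.exp (δ / 16 * Z ω) ≤ Fintype.card Ω * Real.exp (δ ^ 2 / 64) := by
    have a (ω : Ω) : Real.exp (δ / 16 * Z ω) ≤ 1 + δ ^ 2 / 64 + δ / 16 * Z ω := by
      have b := abs_le.1 (hZ ω)
      have c := (abs_le.1 (Real.abs_exp_sub_one_sub_id_le (x := δ / 16 * Z ω)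
        (abs_le.2 ⟨by nlinarith, by nlinarith⟩))).2
      have : Z ω ^ 2 ≤ 4 := by nlinarith
      nlinarith [mul_le_mul_of_nonneg_left this (sq_nonneg δ)]
    refine (sum_le_sum fun ω _ => a ω).trans ?_
    rw [sum_add_distrib, ← mul_sum, h0, mul_zero, add_zero, sum_const, card_univ, nsmul_eq_mul]
    exact mul_le_mul_of_nonneg_left (by linarith [Real.add_one_le_exp (δ ^ 2 / 64)])
      (Nat.cast_nonneg _)
  have h2 : ∑ s : Fin m → Ω, Real.exp (δ / 16 * ∑ i, Z (s i)) =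
      (∑ ω, Real.exp (δ / 16 * Z ω)) ^ m := by
    simp only [mul_sum, Real.exp_sum]
    rw [← Fintype.piFinset_univ, ← prod_univ_sum (fun _ => univ) fun _ ω => Real.exp (δ / 16 * Z ω),
      prod_const, card_univ, Fintype.card_fin]
  have h3 : ((univ.filter fun s : Fin m → Ω => m * δ / 2 ≤ ∑ i, Z (s i)).card : ℝ) *
      Real.exp (m * δ ^ 2 / 32) ≤ ∑ s : Fin m → Ω, Real.exp (δ / 16 * ∑ i, Z (s i)) := by
    rw [← nsmul_eq_mul]
    refine (card_nsmul_le_sum _ _ _ fun s hs => Real.exp_le_exp.2 ?_).trans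
      (sum_le_sum_of_subset_of_nonneg (filter_subset _ _) fun _ _ _ => (Real.exp_pos _).le)
    nlinarith [(mem_filter.1 hs).2]
  have h4 := pow_le_pow_left₀ (sum_nonneg fun _ _ => (Real.exp_pos _).le) h1 m
  rw [mul_pow, ← Real.exp_nat_mul] at h4
  refine le_of_mul_le_mul_right (h3.trans (h2.le.trans (h4.trans_eq ?_))) (Real.exp_pos _)
  rw [mul_assoc, ← Real.exp_add]
  congr 2
  ring

end Pool.Agent.Lib.MP_343fe0_pr.Up
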