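import Pool.Agent.Lib.MP_343fe0_pr.Up.RegL

set_option autoImplicit false

/-! Basic closure properties of the class. -/

namespace Pool.Agent.Lib.MP_343fe0_pr.Up

open Finset

theorem cl_nonneg {t : ℝ} {d : ℕ} {K : ℝ} {F : List Bool → ℂ} (h : Cl t d K F) : 0 ≤ K := by
  induction h with
  | const d K c h => exact (norm_nonneg _).trans h
  | add d K K' F G _ _ h h' => exact add_nonneg h h'
  | loop d K0 K1 K2 ζ U0 U1 F _ _ _ h _ h0 h1 =>
    exact add_nonneg (add_nonneg h0 h1) ((norm_nonneg _).trans h)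

theorem cl_nil {t : ℝ} {d : ℕ} {K : ℝ} {F : List Bool → ℂ} (h : Cl t d K F) : ‖F []‖ ≤ K := by
  induction h with
  | const d K c h => exact h
  | add d K K' F G _ _ h h' => exact (norm_add_le _ _).trans (add_le_add h h')
  | loop d K0 K1 K2 ζ U0 U1 F _ h0 h1 h _ _ _ =>
    exact h.trans (le_add_of_nonneg_left (add_nonneg (cl_nonneg h0) (cl_nonneg h1)))

theorem clb_congr {t : ℝ} {d : ℕ} {K K' : ℝ} {F F' : List Bool → ℂ} (h : Cl t d K F) (hK : K = K')
    (hF : ∀ x, F x = F' x) : Cl t d K' F' := by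
  rwa [← hK, ← funext hF]

theorem cl_monoK {t : ℝ} {d : ℕ} {K K' : ℝ} {F : List Bool → ℂ} (h : Cl t d K F) (hK : K ≤ K') :
    Cl t d K' F :=
  clb_congr (.add d K (K' - K) F _ h (.const d _ 0 (by simpa using hK))) (add_sub_cancel _ _)
    fun _ => add_zero _

theorem cl_monod {t : ℝ} {d d' : ℕ} {K : ℝ} {F : List Bool → ℂ} (h : Cl t d K F) (hd : d ≤ d') :
    Cl t d' K F := by
  induction h generalizing d' with
  | const d K c h => exact .const _ _ _ h
  | add d K K' F G _ _ h h' => exact .add _ _ _ _ _ (h hd) (h' hd)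
  | loop d K0 K1 K2 ζ U0 U1 F hζ _ _ h e h0 h1 =>
    obtain ⟨n, rfl⟩ : ∃ n, d' = n + 1 := ⟨d' - 1, by omega⟩
    exact .loop _ _ _ _ ζ U0 U1 F hζ (h0 (by omega)) (h1 (by omega)) h e

theorem cl_monot {t t' : ℝ} {d : ℕ} {K : ℝ} {F : List Bool → ℂ} (h : Cl t d K F) (ht : t ≤ t') :
    Cl t' d K F := by
  induction h with
  | const d K c h => exact .const _ _ _ h
  | add d K K' F G _ _ h h' => exact .add _ _ _ _ _ h h'
  | loop d K0 K1 K2 ζ U0 U1 F hζ _ _ h e h0 h1 =>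
    exact .loop _ _ _ _ ζ U0 U1 F (reg_mono hζ ht) h0 h1 h e

theorem cl_smul {t : ℝ} {d : ℕ} {K : ℝ} {F : List Bool → ℂ} (h : Cl t d K F) (c : ℂ) :
    Cl t d (‖c‖ * K) (fun x => c * F x) := by
  induction h with
  | const d K a h =>
    exact .const _ _ _ ((norm_mul _ _).trans_le (mul_le_mul_of_nonneg_left h (norm_nonneg _)))
  | add d K K' F G _ _ h h' =>
    exact clb_congr (.add _ _ _ _ _ h h') (mul_add _ _ _).symm fun _ => (mul_add _ _ _).symm
  | loop d K0 K1 K2 ζ U0 U1 F hζ _ _ h e h0 h1 =>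
    refine clb_congr (.loop _ _ _ (‖c‖ * K2) ζ _ _ (fun x => c * F x) hζ h0 h1
      ((norm_mul _ _).trans_le (mul_le_mul_of_nonneg_left h (norm_nonneg _))) fun b x => ?_)
      (by ring) fun _ => rfl
    rw [e]
    ring

theorem cl_conj {t : ℝ} {d : ℕ} {K : ℝ} {F : List Bool → ℂ} (h : Cl t d K F) :
    Cl t d K (fun x => (starRingEnd ℂ) (F x)) := by
  induction h with
  | const d K a h => exact .const _ _ _ ((Complex.norm_conj a).trans_le h)
  | add d K K' F G _ _ h h' =>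
    exact clb_congr (.add _ _ _ _ _ h h') rfl fun _ => (map_add _ _ _).symm
  | loop d K0 K1 K2 ζ U0 U1 F hζ _ _ h e h0 h1 =>
    refine .loop _ _ _ _ _ _ _ _ (reg_conj hζ) h0 h1 ((Complex.norm_conj _).trans_le h)
      fun b x => ?_
    cases b <;> simp [e, bit]

theorem cl_sum {ι : Type} (s : Finset ι) {t : ℝ} {d : ℕ} (K : ι → ℝ) (F : ι → List Bool → ℂ)
    (h : ∀ i ∈ s, Cl t d (K i) (F i)) : Cl t d (∑ i ∈ s, K i) (fun x => ∑ i ∈ s, F i x) := by
  induction s using Finset.cons_induction with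
  | empty => exact .const _ _ 0 (by simp)
  | cons i s hi ih =>
    simp only [sum_cons]
    exact .add _ _ _ _ _ (h i (mem_cons_self _ _)) (ih fun j hj => h j (mem_cons_of_mem hj))

theorem cl_re {t : ℝ} {d : ℕ} {K : ℝ} {F : List Bool → ℂ} (h : Cl t d K F) :
    Cl t d K (fun x => (((F x).re : ℝ) : ℂ)) := by
  refine clb_congr (cl_smul (.add _ _ _ _ _ h (cl_conj h)) (1 / 2)) ?_ fun x => ?_
  · rw [norm_div, norm_one, Complex.norm_two]
    ring
  · rw [Complex.add_conj]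
    push_cast
    ring

theorem apx_mono {t t' : ℝ} {d d' : ℕ} {K K' e e' : ℝ} {α : List Bool → ℂ} (h : Apx t d K e α)
    (ht : t ≤ t') (hd : d ≤ d') (hK : K ≤ K') (he : e ≤ e') : Apx t' d' K' e' α := by
  obtain ⟨G, h1, h2⟩ := h
  exact ⟨G, cl_monoK (cl_monod (cl_monot h1 ht) hd) hK, fun x => (h2 x).trans he⟩

theorem apx_nonneg {t : ℝ} {d : ℕ} {K e : ℝ} {α : List Bool → ℂ} (h : Apx t d K e α) :
    0 ≤ K ∧ 0 ≤ e := by
  obtain ⟨G, h1, h2⟩ := h
  exact ⟨cl_nonneg h1, (norm_nonneg _).trans (h2 [])⟩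

end Pool.Agent.Lib.MP_343fe0_pr.Up
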