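import Pool.Agent.Lib.MP_343fe0_pr.Up.ClB

set_option autoImplicit false

/-! The class is closed under products. -/

namespace Pool.Agent.Lib.MP_343fe0_pr.Up

open Finset

theorem clmul_one {t : ℝ} {d : ℕ} {K : ℝ} {F : List Bool → ℂ} (h : Cl t d K F) {c : ℂ}
    (hc : ‖c‖ ≤ 1) : Cl t d K (fun x => c * F x) :=
  cl_monoK (cl_smul h c) (mul_le_of_le_one_left (cl_nonneg h) hc)

theorem clmul_const {t t' : ℝ} {d D : ℕ} {K K' : ℝ} {F : List Bool → ℂ} (h : Cl t d K F) {c : ℂ}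
    (hc : ‖c‖ ≤ K') (ht : t ≤ t') (hd : d ≤ D) :
    Cl t' D (3 ^ D * (K' * K)) (fun x => c * F x) := by
  have h0 := cl_nonneg h
  refine cl_monoK (cl_monod (cl_monot (cl_smul h c) ht) hd)
    ((mul_le_mul_of_nonneg_right hc h0).trans (le_mul_of_one_le_left ?_ (one_le_pow₀ ?_)))
  · exact mul_nonneg ((norm_nonneg _).trans hc) h0
  · norm_num

theorem clmul_aux {t t' : ℝ} (ht0 : 0 ≤ t) (ht : t ≤ 1) (ht0' : 0 ≤ t') (ht' : t' ≤ 1) (D : ℕ) :
    ∀ {d : ℕ} {K : ℝ} {F : List Bool → ℂ}, Cl t d K F → ∀ {d' : ℕ} {K' : ℝ} {G : List Bool → ℂ},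
      Cl t' d' K' G → d + d' ≤ D → Cl (t + t') D (3 ^ D * (K * K')) (fun x => F x * G x) := by
  induction D using Nat.strong_induction_on with
  | _ D IH =>
  intro d K F hF
  induction hF with
  | const d K c h => exact fun hG hd => clmul_const hG h (by linarith) (by omega)
  | add d K1 K2 F1 F2 _ _ h1 h2 =>
    exact fun hG hd => clb_congr (.add _ _ _ _ _ (h1 hG hd) (h2 hG hd)) (by ring)
      fun _ => (add_mul _ _ _).symm
  | loop d K0 K1 K2 ζ U0 U1 F hζ u0 u1 h e _ _ =>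
    have hF : Cl t (d + 1) _ F := .loop _ _ _ _ ζ U0 U1 F hζ u0 u1 h e
    intro d' K' G hG
    induction hG with
    | const d' K' c h =>
      exact fun hd => clb_congr (clmul_const hF h (by linarith) (by omega)) (by ring)
        fun _ => mul_comm _ _
    | add d' K1 K2 G1 G2 _ _ h1 h2 =>
      exact fun hd => clb_congr (.add _ _ _ _ _ (h1 hd) (h2 hd)) (by ring)
        fun _ => (mul_add _ _ _).symm
    | loop d' L0 L1 L2 ξ V0 V1 G hξ v0 v1 h' e' _ _ =>
      have hG : Cl t' (d' + 1) _ G := .loop _ _ _ _ ξ V0 V1 G hξ v0 v1 h' e'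
      intro hd
      obtain ⟨D, rfl⟩ : ∃ n, D = n + 1 := ⟨D - 1, by omega⟩
      have I := @IH D (Nat.lt_succ_self D)
      have a := reg_norm_le hζ ht
      have a' := reg_norm_le hξ ht'
      have p0 := Cl.add _ _ _ _ _ (Cl.add _ _ _ _ _ (clmul_one (I hF v0 (by omega)) a)
        (clmul_one (I u0 hG (by omega)) a')) (I u0 v0 (by omega))
      have p1 := Cl.add _ _ _ _ _ (Cl.add _ _ _ _ _ (Cl.add _ _ _ _ _ (Cl.add _ _ _ _ _
        (clmul_one (I hF v1 (by omega)) a) (clmul_one (I u1 hG (by omega)) a'))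
        (I u0 v1 (by omega))) (I u1 v0 (by omega))) (I u1 v1 (by omega))
      have k2 := (norm_nonneg _).trans h
      refine cl_monoK (.loop _ _ _ (K2 * L2) (ζ * ξ) _ _ (fun x => F x * G x)
        (reg_mul hζ hξ ht0 ht ht0' ht') p0 p1
        ((norm_mul _ _).trans_le (mul_le_mul h h' (norm_nonneg _) k2)) fun b x => ?_) ?_
      · rw [e, e']
        cases b <;> simp only [bit, if_true, if_false, Bool.false_eq_true] <;> ring
      · have k0 := add_nonneg (cl_nonneg u0) (cl_nonneg u1)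
        have l0 := add_nonneg (cl_nonneg v0) (cl_nonneg v1)
        have l2 := (norm_nonneg _).trans h'
        have s : (1 : ℝ) ≤ 3 ^ D := one_le_pow₀ (by norm_num)
        have s0 : (0 : ℝ) ≤ 3 ^ D := by positivity
        rw [pow_succ]
        linarith [le_mul_of_one_le_left (mul_nonneg k2 l2) s, mul_nonneg k2 l2,
          mul_nonneg s0 (mul_nonneg k0 l2), mul_nonneg s0 (mul_nonneg k2 l0)]

theorem cl_mul {t t' : ℝ} (ht0 : 0 ≤ t) (ht : t ≤ 1) (ht0' : 0 ≤ t') (ht' : t' ≤ 1)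
    {d d' : ℕ} {K K' : ℝ} {F G : List Bool → ℂ} (hF : Cl t d K F) (hG : Cl t' d' K' G) :
    Cl (t + t') (d + d') (3 ^ (d + d') * (K * K')) (fun x => F x * G x) :=
  clmul_aux ht0 ht ht0' ht' _ hF hG le_rfl

end Pool.Agent.Lib.MP_343fe0_pr.Up
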