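import Pool.Agent.Lib.MP_343fe0_pr.Up.UDefs

set_option autoImplicit false

/-! Approximate characters on dense symmetric sets are trivial. -/

namespace Pool.Agent.Lib.MP_343fe0_pr.Up

open Finset

theorem comb_pick (A : Finset ℤ) (r : ℕ) (p q s t : ℤ)
    (h : (s = p ∧ t = p ∧ A.card ≤ r) ∨ 2 * A.card ≤ r) :
    ∃ e : ℤ, |e| ≤ r ∧ p + e ∉ A ∧ q + e ∉ A ∧ s + e ∉ A ∧ t + e ∉ A := by
  classical
  have hc : (Icc (-(r : ℤ)) r).card = 2 * r + 1 := by
    rw [Int.card_Icc]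
    omega
  have hm : ∀ (p e : ℤ), e ∉ A.image (fun i => i - p) → p + e ∉ A := fun p e h h' =>
    h (mem_image.2 ⟨_, h', by ring⟩)
  have c1 : ∀ p : ℤ, (A.image fun i => i - p).card ≤ A.card := fun p => card_image_le
  have c2 : ∀ p q : ℤ, ((A.image fun i => i - p) ∪ A.image fun i => i - q).card ≤ 2 * A.card :=
    fun p q => (card_union_le _ _).trans (by have := c1 p; have := c1 q; omega)
  rcases h with ⟨rfl, rfl, h⟩ | h
  · obtain ⟨e, h1, h2⟩ := exists_mem_notMem_of_card_lt_card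
      (s := (A.image fun i => i - t) ∪ A.image fun i => i - q) (t := Icc (-(r : ℤ)) r)
      (by have := c2 t q; omega)
    rw [mem_union, not_or] at h2
    exact ⟨e, abs_le.2 (mem_Icc.1 h1), hm _ _ h2.1, hm _ _ h2.2, hm _ _ h2.1, hm _ _ h2.1⟩
  · obtain ⟨e, h1, h2⟩ := exists_mem_notMem_of_card_lt_card
      (s := ((A.image fun i => i - p) ∪ A.image fun i => i - q) ∪
        ((A.image fun i => i - s) ∪ A.image fun i => i - t)) (t := Icc (-(r : ℤ)) r)
      ((card_union_le _ _).trans_lt (by have := c2 p q; have := c2 s t; omega))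
    simp only [mem_union, not_or] at h2
    exact ⟨e, abs_le.2 (mem_Icc.1 h1), hm _ _ h2.1.1, hm _ _ h2.1.2, hm _ _ h2.2.1, hm _ _ h2.2.2⟩

theorem comb_mul {x y : ℂ} {a b : ℝ} (hx : ‖x‖ = 1) (h1 : ‖x - 1‖ ≤ a) (h2 : ‖y - 1‖ ≤ b) :
    ‖x * y - 1‖ ≤ a + b := by
  rw [show x * y - 1 = (x - 1) + x * (y - 1) by ring]
  refine (norm_add_le _ _).trans ?_
  rw [norm_mul, hx, one_mul]
  exact add_le_add h1 h2

theorem comb_step {b e p c q r s t : ℂ} {ε : ℝ} (hb : ‖b‖ = 1) (he : ‖e‖ = 1) (hp : ‖p‖ = 1)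
    (hc : ‖c‖ = 1) (hq : ‖q‖ = 1) (hr : ‖r‖ = 1) (hs : ‖s‖ = 1) (ht : ‖t‖ = 1)
    (t1 : ‖b * e * (starRingEnd ℂ) p - 1‖ ≤ ε)
    (t2 : ‖p * (starRingEnd ℂ) c * (starRingEnd ℂ) q - 1‖ ≤ ε)
    (t3 : ‖q * r * (starRingEnd ℂ) s - 1‖ ≤ ε) (t4 : ‖s * t * (starRingEnd ℂ) e - 1‖ ≤ ε) :
    ‖c * (starRingEnd ℂ) t - b * r‖ ≤ 4 * ε := by
  have cj : ∀ {x : ℂ}, ‖x‖ = 1 → x * (starRingEnd ℂ) x = 1 := fun h => by
    rw [Complex.mul_conj', h]
    simp
  have h := comb_mul (by simp [hb, he, hp]) t1 (comb_mul (by simp [hp, hc, hq]) t2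
    (comb_mul (by simp [hq, hr, hs]) t3 t4))
  have e1 : c * (starRingEnd ℂ) t - b * r = -(c * (starRingEnd ℂ) t) *
      (b * e * (starRingEnd ℂ) p * (p * (starRingEnd ℂ) c * (starRingEnd ℂ) q *
        (q * r * (starRingEnd ℂ) s * (s * t * (starRingEnd ℂ) e))) - 1) := by
    have : -(c * (starRingEnd ℂ) t) *
        (b * e * (starRingEnd ℂ) p * (p * (starRingEnd ℂ) c * (starRingEnd ℂ) q *
          (q * r * (starRingEnd ℂ) s * (s * t * (starRingEnd ℂ) e))) - 1) =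
        c * (starRingEnd ℂ) t - b * r * ((c * (starRingEnd ℂ) c) * (t * (starRingEnd ℂ) t) *
          (e * (starRingEnd ℂ) e) * (p * (starRingEnd ℂ) p) * (q * (starRingEnd ℂ) q) *
          (s * (starRingEnd ℂ) s)) := by ring
    rw [this, cj hc, cj ht, cj he, cj hp, cj hq, cj hs]
    ring
  rw [e1, norm_mul, norm_neg, norm_mul, hc, Complex.norm_conj, ht, one_mul, one_mul]
  linarith

/-- Call `i` good if `|i| ≤ N` and `i ∉ A`.  Show by induction on `m ≤ N / 10`: for every `b` with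
`10 |b| ≤ N`, `b` and `m - b` good, `‖u b * u (m - b) - 1‖ ≤ 4 ε m`.  For `m = 0` the product is
`u b * conj (u b) = 1`.  Step to `m' = m + 1` with `b'`: such a `b` exists for `m` (there are
`2 (N / 10) + 1 > 2 card A` candidates), and an `e` with `2 |e| ≤ N` and `e, b + e, b + e - b',
m + e - b'` all good (`2 (N / 2) + 1 ≥ N > 4 card A` candidates, or `A` empty).  The triples
`(b, e, -(b+e))`, `(b+e, -b', -(b+e-b'))`, `(b+e-b', m-b, -(m+e-b'))`, `(m+e-b', b'-m', -e)` have sums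
`0, 0, 0, -1` and multiply (all factors unimodular, `u (-i) = conj (u i)`) to
`u b u (m-b) conj (u b') conj (u (m'-b'))`.  Finish with `b = 0`. -/
theorem comb (N : ℕ) (u : ℤ → ℂ) (A : Finset ℤ) {ε : ℝ} (hcard : 100 * A.card ≤ N)
    (hsym : ∀ i ∈ A, -i ∈ A) (h0 : (0 : ℤ) ∉ A)
    (hu : ∀ i : ℤ, |i| ≤ N → i ∉ A → ‖u i‖ = 1)
    (hconj : ∀ i, u (-i) = (starRingEnd ℂ) (u i)) (hu0 : u 0 = 1)
    (h3 : ∀ i j l : ℤ, |i| ≤ N → |j| ≤ N → |l| ≤ N → i ∉ A → j ∉ A → l ∉ A → |i + j + l| ≤ 1 →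
      ‖u i * u j * u l - 1‖ ≤ ε)
    (a : ℕ) (ha : 10 * a ≤ N) (haA : (a : ℤ) ∉ A) : ‖u a - 1‖ ≤ 4 * ε * a := by
  have hA : ∀ i, i ∉ A → -i ∉ A := fun i hi h => hi (by simpa using hsym _ h)
  have key : ∀ m : ℕ, 10 * m ≤ N → ∀ b : ℤ, 10 * |b| ≤ N → b ∉ A → (m : ℤ) - b ∉ A →
      ‖u b * u (m - b) - 1‖ ≤ 4 * ε * m := by
    intro m
    induction m with
    | zero =>
      intro _ b hb h1 _
      rw [Nat.cast_zero, zero_sub, hconj, Complex.mul_conj', hu b (by omega) h1]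
      simp
    | succ m ih =>
      intro hm c hc hc1 hc2
      obtain ⟨b, hb, hb1, hb2, -, -⟩ := comb_pick A (N / 10) 0 (-m) 0 0 (by
        left
        exact ⟨rfl, rfl, by omega⟩)
      obtain ⟨e, he, he1, he2, he3, he4⟩ := comb_pick A (N / 2) 0 b (b - c) (m - c) (by
        right
        omega)
      rw [zero_add] at hb1 he1
      have hb2' : (m : ℤ) - b ∉ A := by
        have := hA _ hb2
        rwa [show -(-(m : ℤ) + b) = m - b by ring] at this
      have hc2' : c - (m + 1) ∉ A := by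
        have := hA _ hc2
        rwa [show -(((m + 1 : ℕ) : ℤ) - c) = c - (m + 1) by push_cast; ring] at this
      have ab := abs_le.1 hb
      have ae := abs_le.1 he
      have ac : -(N : ℤ) ≤ 10 * c ∧ 10 * c ≤ N := by
        have := le_abs_self c
        have := neg_abs_le c
        omega
      have bd : ∀ i : ℤ, -(N : ℤ) ≤ i → i ≤ N → |i| ≤ N := fun i h h' => abs_le.2 ⟨h, h'⟩
      have n1 := bd b (by omega) (by omega)
      have n2 := bd e (by omega) (by omega)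
      have n3 := bd (b + e) (by omega) (by omega)
      have n4 := bd c (by omega) (by omega)
      have n5 := bd (b - c + e) (by omega) (by omega)
      have n6 := bd (m - b) (by omega) (by omega)
      have n7 := bd (m - c + e) (by omega) (by omega)
      have n8 := bd (c - (m + 1)) (by omega) (by omega)
      have t1 := h3 b e (-(b + e)) n1 n2 (by rwa [abs_neg]) hb1 he1 (hA _ he2) (by simp)
      have t2 := h3 (b + e) (-c) (-(b - c + e)) n3 (by rwa [abs_neg]) (by rwa [abs_neg]) he2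
        (hA _ hc1) (hA _ he3) (abs_le.2 ⟨by omega, by omega⟩)
      have t3 := h3 (b - c + e) (m - b) (-(m - c + e)) n5 n6 (by rwa [abs_neg]) he3 hb2'
        (hA _ he4) (abs_le.2 ⟨by omega, by omega⟩)
      have t4 := h3 (m - c + e) (c - (m + 1)) (-e) n7 n8 (by rwa [abs_neg]) he4 hc2' (hA _ he1)
        (abs_le.2 ⟨by omega, by omega⟩)
      have e0 : u (((m + 1 : ℕ) : ℤ) - c) = (starRingEnd ℂ) (u (c - (m + 1))) := by
        rw [← hconj]
        congr 1
        push_cast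
        ring
      rw [hconj] at t1 t3 t4
      rw [hconj, hconj] at t2
      have h := comb_step (hu _ n1 hb1) (hu _ n2 he1) (hu _ n3 he2) (hu _ n4 hc1) (hu _ n5 he3)
        (hu _ n6 hb2') (hu _ n7 he4) (hu _ n8 hc2') t1 t2 t3 t4
      have h' := ih (by omega) b (by
        have : |b| ≤ (N / 10 : ℕ) := hb
        omega) hb1 hb2'
      rw [e0]
      have h'' := norm_sub_le_norm_sub_add_norm_sub (u c * (starRingEnd ℂ) (u (c - (m + 1))))
        (u b * u (m - b)) 1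
      push_cast
      linarith
  have := key a ha 0 (by simp) h0 (by simpa using haA)
  rwa [hu0, one_mul, sub_zero] at this

end Pool.Agent.Lib.MP_343fe0_pr.Up
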