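import Pool.Agent.Lib.MP_343fe0_pr.Up.Geo

set_option autoImplicit false

/-! Moving averages with band-limited kernels are approximable. -/

namespace Pool.Agent.Lib.MP_343fe0_pr.Up

open Finset

theorem fg {t : ℝ} {d : ℕ} {K e : ℝ} {α : List Bool → ℂ} (hα : Apx t d K e α)
    (hα1 : ∀ x, ‖α x‖ ≤ 1) (κ : ℕ → ℂ) (D : ℕ) {M lam C ε : ℝ}
    (hκ0 : ∀ s, D ≤ s → κ s = 0) (hM : ∑ s ∈ range D, ‖κ s‖ ≤ M)
    (hlam0 : 0 < lam) (hlam : lam ≤ 1) (hε : 0 < ε)
    (hexp : ∀ N : ℕ, D < N → ∃ c ζ : Fin N → ℂ, (∀ m, Reg t (ζ m) ∧ ‖ζ m‖ ≤ 1 - lam) ∧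
      ∑ m, ‖c m‖ ≤ C ∧ ∀ s < N, ‖κ s - ∑ m, c m * ζ m ^ s‖ ≤ ε * (1 - lam) ^ s) :
    Apx t (d + 1) (3 * C * K / lam) (M * e + 2 * ε * (1 + e) / lam)
      (fun x => ∑ s ∈ range D, κ s * α (x.drop s)) := by
  have l0 : 0 ≤ 1 - lam := sub_nonneg.2 hlam
  obtain ⟨K0, e0⟩ := apx_nonneg hα
  obtain ⟨N, hN, hC⟩ : ∃ N, D < N ∧ C * (1 - lam) ^ N ≤ ε := by
    have h := (tendsto_pow_atTop_nhds_zero_of_lt_one l0 (by linarith)).const_mul C
    rw [mul_zero] at h
    exact ((Filter.eventually_gt_atTop D).and (h.eventually (ge_mem_nhds hε))).exists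
  obtain ⟨c, ζ, h1, h2, h3⟩ := hexp N hN
  obtain ⟨G, hG, hGe⟩ := hα
  have hs : ∀ x, ‖G x‖ ≤ 1 + e := fun x => by
    linarith [norm_le_norm_add_norm_sub' (G x) (α x), hα1 x, hGe x]
  choose H H1 H2 H3 using fun m => geo hG hs hlam0 hlam (h1 m).1 (h1 m).2
  refine ⟨_, cl_monoK (cl_sum univ _ _ fun m _ => cl_smul (H1 m) (c m)) ?_, fun x => ?_⟩
  · rw [← sum_mul]
    exact (mul_le_mul_of_nonneg_right h2 (by positivity)).trans_eq (by ring)
  have E : ∑ m, c m * H m x - ∑ s ∈ range D, κ s * α (x.drop s) =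
      ∑ s ∈ range D, κ s * (G (x.drop s) - α (x.drop s)) +
        ∑ s ∈ range N, (∑ m, c m * ζ m ^ s - κ s) * G (x.drop s) +
        ∑ m, c m * (ζ m ^ N * H m (x.drop N)) := by
    have a : ∑ s ∈ range D, κ s * G (x.drop s) = ∑ s ∈ range N, κ s * G (x.drop s) :=
      sum_subset (range_mono hN.le) fun s _ h => by
        rw [hκ0 s (by simpa using h), zero_mul]
    have b : ∑ m, c m * H m x = ∑ s ∈ range N, ∑ m, c m * ζ m ^ s * G (x.drop s) +
        ∑ m, c m * (ζ m ^ N * H m (x.drop N)) := by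
      rw [sum_comm, ← sum_add_distrib]
      refine sum_congr rfl fun m _ => ?_
      rw [H3 m x N, mul_add, mul_sum]
      simp only [mul_assoc]
    simp only [mul_sub, sub_mul, sum_sub_distrib, sum_mul, a, b]
    ring
  have a1 : ‖∑ s ∈ range D, κ s * (G (x.drop s) - α (x.drop s))‖ ≤ M * e := by
    refine (norm_sum_le _ _).trans (le_trans ?_ (mul_le_mul_of_nonneg_right hM e0))
    rw [sum_mul]
    exact sum_le_sum fun s _ => (norm_mul _ _).trans_le
      (mul_le_mul_of_nonneg_left (hGe _) (norm_nonneg _))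
  have a2 : ‖∑ s ∈ range N, (∑ m, c m * ζ m ^ s - κ s) * G (x.drop s)‖ ≤ ε * (1 + e) / lam := by
    have g : ∑ s ∈ range N, (1 - lam) ^ s ≤ 1 / lam := by
      have := mul_neg_geom_sum (1 - lam) N
      rw [sub_sub_cancel] at this
      rw [le_div_iff₀' hlam0, this]
      exact sub_le_self _ (pow_nonneg l0 _)
    refine (norm_sum_le _ _).trans ((sum_le_sum fun s h => (norm_mul _ _).trans_le (mul_le_mul
      ((norm_sub_rev _ _).trans_le (h3 s (mem_range.1 h))) (hs _) (norm_nonneg _)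
      (by positivity))).trans ?_)
    rw [← sum_mul, ← mul_sum]
    calc _ ≤ ε * (1 / lam) * (1 + e) := by gcongr
      _ = _ := by ring
  have a3 : ‖∑ m, c m * (ζ m ^ N * H m (x.drop N))‖ ≤ ε * (1 + e) / lam := by
    refine (norm_sum_le _ _).trans ((sum_le_sum (g := fun m => ‖c m‖ *
      ((1 - lam) ^ N * ((1 + e) / lam))) fun m _ => ?_).trans ?_)
    · rw [norm_mul, norm_mul, norm_pow]
      gcongr
      exacts [(h1 m).2, H2 m _]
    · rw [← sum_mul, mul_div_assoc]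
      refine (mul_le_mul_of_nonneg_right h2 (by positivity)).trans ?_
      rw [← mul_assoc]
      gcongr
  beta_reduce
  rw [E]
  refine norm_add₃_le.trans ((add_le_add (add_le_add a1 a2) a3).trans_eq ?_)
  ring

end Pool.Agent.Lib.MP_343fe0_pr.Up
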