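import Pool.Agent.Lib.MP_343fe0_pr.Up.FG
import Pool.Agent.Lib.MP_343fe0_pr.Up.KerBand

set_option autoImplicit false

/-! Modulated moving averages with the smoothed plateau kernels. -/

namespace Pool.Agent.Lib.MP_343fe0_pr.Up

open Finset

theorem fg_ker {t : ℝ} {d : ℕ} {K e : ℝ} {α : List Bool → ℝ}
    (hα : Apx t d K e (fun l => (α l : ℂ))) (hα1 : ∀ x, |α x| ≤ 1) (he : e ≤ 1)
    (ht0 : 0 < t) (ht : t ≤ 1 / 2) (k B o a L : ℕ) (hkt : 4 ≤ k * t)
    (hD : o + a + B * (32 * k) ≤ 9 * L) (ha1 : 1 ≤ a) (ha : a ≤ 8 * L)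
    {ρ ψ : ℝ} (hρ : 1 - ρ ≤ t / 4) (hρ1 : ρ ≤ 1) (hψ : |ψ| ≤ 2 / k) :
    Apx t (d + 1) (8 * L * k ^ 2 * Real.exp (162 * L / (k ^ 2 * t)) * K)
      (8 * L * e + 8 * L * k ^ 2 * Real.exp (162 * L / (k ^ 2 * t) - 2 * B))
      (fun x => Av (9 * L) (ker o a (32 * k) B) (pol ρ ψ) (fun j => α (x.drop j)) 0) := by
  obtain ⟨K0, e0⟩ := apx_nonneg hα
  have k0 : (0 : ℝ) < k := by
    by_contra h
    nlinarith
  have k1 : 1 ≤ 32 * k := by
    have : 0 < k := by exact_mod_cast k0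
    omega
  have L0 : (0 : ℝ) < L := by exact_mod_cast (by omega : 0 < L)
  have ρ0 : 0 ≤ ρ := by linarith
  obtain ⟨lam, hl⟩ : ∃ lam : ℝ, lam = 9 / (k ^ 2 * t) := ⟨_, rfl⟩
  have l0 : 0 < lam := by rw [hl]; positivity
  have l1 : t * lam = (3 / k) ^ 2 := by rw [hl]; field_simp; norm_num
  have l2 : lam ≤ 9 * t / 16 := by
    rw [hl, div_le_div_iff₀ (by positivity) (by norm_num)]
    nlinarith
  have l3 : 1 / lam ≤ k ^ 2 / 18 := by
    rw [hl, one_div_div, div_le_div_iff₀ (by norm_num) (by norm_num)]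
    nlinarith [mul_le_mul_of_nonneg_left ht (sq_nonneg (k : ℝ))]
  have hz : ‖pol ρ ψ‖ ≤ 1 := by rwa [norm_pol, abs_of_nonneg ρ0]
  have a8 : (a : ℝ) ≤ 8 * L := by exact_mod_cast ha
  obtain ⟨C, hC⟩ : ∃ C : ℝ, C = 8 * L * Real.exp (162 * L / (k ^ 2 * t)) := ⟨_, rfl⟩
  have C0 : 0 < C := by rw [hC]; positivity
  have hb : a * (1 - lam)⁻¹ ^ (o + a + B * (32 * k)) ≤ C := by
    rw [hC]
    refine mul_le_mul a8 ((inv_one_sub_pow_le l0.le (by linarith) _).trans
      (Real.exp_le_exp.2 ?_)) (pow_nonneg (inv_nonneg.2 (by linarith)) _) (by positivity)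
    have : ((o + a + B * (32 * k) : ℕ) : ℝ) ≤ 9 * L := by exact_mod_cast hD
    refine (mul_le_mul_of_nonneg_left this (by positivity)).trans_eq ?_
    rw [hl]
    ring
  have h := fg hα (fun x => by rw [Complex.norm_real]; exact hα1 x)
    (fun s => (ker o a (32 * k) B s : ℂ) * pol ρ ψ ^ s) (9 * L) (M := 8 * L) (C := C)
    (ε := C * Real.exp (-(2 * B))) (fun s hs => by
      rw [ker_eq_zero_of_ge _ _ _ _ _ (hD.trans hs), Complex.ofReal_zero, zero_mul])
    (le_trans (sum_le_sum fun s _ => by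
      rw [norm_mul, norm_pow, Complex.norm_of_nonneg (ker_nonneg ..)]
      exact mul_le_of_le_one_right (ker_nonneg ..) (pow_le_one₀ (norm_nonneg _) hz))
      ((ker_sum o a _ B _ k1 hD).trans_le a8)) l0 (by linarith) (by positivity) fun N hN => by
      obtain ⟨c, η, h1, h2, h3⟩ := ker_band o a (32 * k) B N k1 (hD.trans_lt hN) (ρ := 1 - lam)
        (β := 1 / k) (by linarith) (by linarith) (by positivity)
      refine ⟨c, fun m => pol (1 - lam) (η m) * pol ρ ψ, fun m => ⟨?_, ?_⟩, h2.trans hb,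
        fun s hs => ?_⟩
      · have m1 : lam ≤ 1 - (1 - lam) * ρ := by nlinarith
        beta_reduce
        rw [pol_mul, ← sub_sub_cancel 1 ((1 - lam) * ρ)]
        refine reg_pol (l0.le.trans m1) (by nlinarith) (by linarith)
          (le_trans ?_ (mul_le_mul_of_nonneg_left m1 ht0.le))
        rw [l1, sq_le_sq, abs_of_pos (by positivity : (0 : ℝ) < 3 / k)]
        refine (abs_add_le _ _).trans ((add_le_add (h1 m) hψ).trans_eq ?_)
        ring
      · rw [norm_mul, norm_pol, abs_of_nonneg (by linarith)]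
        exact mul_le_of_le_one_right (by linarith) hz
      · simp only [mul_pow, ← mul_assoc, ← sum_mul, ← sub_mul, norm_mul, norm_pow]
        refine (mul_le_of_le_one_right (norm_nonneg _) (pow_le_one₀ (norm_nonneg _) hz)).trans
          ((h3 s hs).trans (mul_le_mul_of_nonneg_right (mul_le_mul hb ?_ (by positivity) C0.le)
            (pow_nonneg (by linarith) _)))
        refine le_trans (le_of_eq ?_) (eighth_pow_le B)
        refine congrArg (· ^ B) ?_
        push_cast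
        field_simp
        norm_num
  simp only [Av, zero_add]
  refine apx_mono h le_rfl le_rfl ?_ (add_le_add_right ?_ _)
  · calc _ = 3 * (C * K) * (1 / lam) := by ring
      _ ≤ 18 * (C * K) * (k ^ 2 / 18) := by gcongr; norm_num
      _ = _ := by rw [hC]; ring
  · calc _ = 2 * (1 + e) * (C * Real.exp (-(2 * B))) * (1 / lam) := by ring
      _ ≤ 18 * (C * Real.exp (-(2 * B))) * (k ^ 2 / 18) := by gcongr; linarith
      _ = _ := by rw [hC, sub_eq_add_neg, Real.exp_add]; ring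

end Pool.Agent.Lib.MP_343fe0_pr.Up
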