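import Pool.Agent.Lib.MP_343fe0_pr.Up.UDefs

set_option autoImplicit false

/-! The discs `Reg t` and the points `pol r θ`. -/

namespace Pool.Agent.Lib.MP_343fe0_pr.Up

open Finset

theorem norm_pol (r θ : ℝ) : ‖pol r θ‖ = |r| := by
  rw [pol, norm_mul, Complex.norm_exp_ofReal_mul_I, mul_one, Complex.norm_real, Real.norm_eq_abs]

theorem pol_mul (r r' θ θ' : ℝ) : pol r θ * pol r' θ' = pol (r * r') (θ + θ') := by
  simp only [pol, Complex.ofReal_mul, Complex.ofReal_add, add_mul, Complex.exp_add]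
  ring

theorem pol_pow (r θ : ℝ) (n : ℕ) : pol r θ ^ n = pol (r ^ n) (n * θ) := by
  rw [pol, pol, mul_pow, ← Complex.exp_nat_mul, Complex.ofReal_pow, Complex.ofReal_mul,
    Complex.ofReal_natCast, mul_assoc]

theorem pol_conj (r θ : ℝ) : (starRingEnd ℂ) (pol r θ) = pol r (-θ) := by
  simp [pol, ← Complex.exp_conj]

theorem pol_zero (r : ℝ) : pol r 0 = (r : ℂ) := by
  simp [pol]

/-- `pol (exp (-x)) θ = exp (-(x - θ i))`. -/
theorem pol_exp (x θ : ℝ) :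
    pol (Real.exp (-x)) θ = Complex.exp (-((x : ℂ) + ((-θ : ℝ) : ℂ) * Complex.I)) := by
  rw [pol, Complex.ofReal_exp, ← Complex.exp_add]
  refine congrArg _ ?_
  push_cast
  ring

theorem reg_mono {t t' : ℝ} {ζ : ℂ} (h : Reg t ζ) (htt : t ≤ t') : Reg t' ζ := by
  refine h.imp id fun h => ?_
  have e : ζ - ((1 - t' : ℝ) : ℂ) = ζ - ((1 - t : ℝ) : ℂ) + ((t' - t : ℝ) : ℂ) := by
    push_cast
    ring
  have h1 := norm_add_le (ζ - ((1 - t : ℝ) : ℂ)) ((t' - t : ℝ) : ℂ)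
  rw [Complex.norm_of_nonneg (sub_nonneg.2 htt), ← e] at h1
  linarith

theorem reg_norm_le {t : ℝ} {ζ : ℂ} (h : Reg t ζ) (ht : t ≤ 1) : ‖ζ‖ ≤ 1 := by
  rcases h with rfl | h
  · simp
  have h1 := norm_add_le (ζ - ((1 - t : ℝ) : ℂ)) ((1 - t : ℝ) : ℂ)
  rw [Complex.norm_of_nonneg (sub_nonneg.2 ht), sub_add_cancel] at h1
  linarith

theorem reg_mul {t t' : ℝ} {ζ ζ' : ℂ} (h : Reg t ζ) (h' : Reg t' ζ') (ht0 : 0 ≤ t) (ht : t ≤ 1)
    (ht0' : 0 ≤ t') (ht' : t' ≤ 1) : Reg (t + t') (ζ * ζ') := by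
  rcases h with rfl | h
  · exact Or.inl (zero_mul _)
  rcases h' with rfl | h'
  · exact Or.inl (mul_zero _)
  refine Or.inr ?_
  obtain ⟨u, rfl⟩ : ∃ u, ζ = u + ((1 - t : ℝ) : ℂ) := ⟨_, (sub_add_cancel _ _).symm⟩
  obtain ⟨v, rfl⟩ : ∃ v, ζ' = v + ((1 - t' : ℝ) : ℂ) := ⟨_, (sub_add_cancel _ _).symm⟩
  rw [add_sub_cancel_right] at h h'
  have e : (u + ((1 - t : ℝ) : ℂ)) * (v + ((1 - t' : ℝ) : ℂ)) - ((1 - (t + t') : ℝ) : ℂ) =
      u * v + u * ((1 - t' : ℝ) : ℂ) + v * ((1 - t : ℝ) : ℂ) + ((t * t' : ℝ) : ℂ) := by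
    push_cast
    ring
  have h1 := norm_add₄_le (a := u * v) (b := u * ((1 - t' : ℝ) : ℂ)) (c := v * ((1 - t : ℝ) : ℂ))
    (d := ((t * t' : ℝ) : ℂ))
  rw [← e, norm_mul u, norm_mul u, norm_mul v, Complex.norm_of_nonneg (sub_nonneg.2 ht),
    Complex.norm_of_nonneg (sub_nonneg.2 ht'), Complex.norm_of_nonneg (mul_nonneg ht0 ht0')] at h1
  have h2 := mul_le_mul h h' (norm_nonneg _) ht0
  have h3 := mul_le_mul_of_nonneg_right h (sub_nonneg.2 ht')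
  have h4 := mul_le_mul_of_nonneg_right h' (sub_nonneg.2 ht)
  linarith

theorem reg_conj {t : ℝ} {ζ : ℂ} (h : Reg t ζ) : Reg t ((starRingEnd ℂ) ζ) := by
  refine h.imp (fun h => by rw [h, map_zero]) fun h => ?_
  rwa [← Complex.conj_ofReal, ← map_sub, Complex.norm_conj]

theorem reg_half {ζ : ℂ} (h : Reg (1 / 2) ζ) : ‖2 * ζ - 1‖ ≤ 1 := by
  rcases h with rfl | h
  · simp
  have e : 2 * ζ - 1 = 2 * (ζ - ((1 - 1 / 2 : ℝ) : ℂ)) := by
    push_cast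
    ring
  rw [e, norm_mul, Complex.norm_two]
  linarith

theorem regl_sq (r θ c : ℝ) :
    ‖pol r θ - (c : ℂ)‖ ^ 2 = r ^ 2 - 2 * r * c * Real.cos θ + c ^ 2 := by
  rw [Complex.sq_norm, Complex.normSq_apply]
  simp only [pol, Complex.sub_re, Complex.sub_im, Complex.re_ofReal_mul, Complex.im_ofReal_mul,
    Complex.exp_ofReal_mul_I_re, Complex.exp_ofReal_mul_I_im, Complex.ofReal_re, Complex.ofReal_im]
  linear_combination r ^ 2 * Real.sin_sq_add_cos_sq θ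

theorem reg_pol {t μ θ : ℝ} (hμ0 : 0 ≤ μ) (hμ : μ ≤ t) (ht : t ≤ 1) (hθ : θ ^ 2 ≤ t * μ) :
    Reg t (pol (1 - μ) θ) := by
  refine Or.inr (le_of_sq_le_sq ?_ (hμ0.trans hμ))
  rw [regl_sq]
  have h1 := Real.one_sub_sq_div_two_le_cos (x := θ)
  have h2 : 0 ≤ (1 - μ) * (1 - t) := mul_nonneg (by linarith) (by linarith)
  have h3 : (1 - μ) * (1 - t) ≤ 1 := mul_le_one₀ (by linarith) (by linarith) (by linarith)
  have h4 := mul_le_mul_of_nonneg_left h1 h2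
  have h5 := mul_le_mul_of_nonneg_right h3 (sq_nonneg θ)
  nlinarith [mul_le_mul_of_nonneg_left hμ hμ0]

theorem norm_one_sub_pol {r η : ℝ} (hr : 1 ≤ r) (hη : |η| ≤ Real.pi) :
    |η| / 2 ≤ ‖1 - pol r η‖ := by
  refine le_of_sq_le_sq ?_ (norm_nonneg _)
  rw [norm_sub_rev, ← Complex.ofReal_one, regl_sq, div_pow, sq_abs]
  have h1 := Real.cos_le_one_sub_mul_cos_sq hη
  have h2 : 1 / 8 ≤ 2 / Real.pi ^ 2 := by
    rw [div_le_div_iff₀ (by norm_num) (by positivity)]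
    nlinarith [Real.pi_lt_four, Real.pi_pos]
  have h3 := mul_le_mul_of_nonneg_right h2 (sq_nonneg η)
  have h4 := mul_nonneg (sub_nonneg.2 hr) (sub_nonneg.2 (Real.cos_le_one η))
  nlinarith [sq_nonneg (r - 1)]

theorem norm_pol_sub_pol (a b : ℝ) : ‖pol 1 a - pol 1 b‖ ≤ |a - b| := by
  have e : pol 1 a - pol 1 b = pol 1 b * (pol 1 (a - b) - ((1 : ℝ) : ℂ)) := by
    rw [mul_sub, pol_mul, mul_one, add_sub_cancel, Complex.ofReal_one, mul_one]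
  rw [e, norm_mul, norm_pol, abs_one, one_mul]
  refine le_of_sq_le_sq ?_ (abs_nonneg _)
  rw [regl_sq, sq_abs]
  linarith [Real.one_sub_sq_div_two_le_cos (x := a - b)]

end Pool.Agent.Lib.MP_343fe0_pr.Up
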