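import Pool.Agent.Lib.MP_343fe0_pr.Up.TwoC
import Pool.Agent.Lib.MP_343fe0_pr.Up.RegL

set_option autoImplicit false

/-! Few grid frequencies are small. -/

namespace Pool.Agent.Lib.MP_343fe0_pr.Up

open Finset

/-- The Laplace transform of a finite sequence. -/
noncomputable def fewF (H : ℕ → ℝ) (n : ℕ) (z : ℂ) : ℂ :=
  ∑ s ∈ range n, (H s : ℂ) * Complex.exp (-z) ^ s

theorem few_diff (H : ℕ → ℝ) (n : ℕ) : Differentiable ℂ (fewF H n) := by
  unfold fewF
  fun_prop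

theorem few_bd (H : ℕ → ℝ) (hH : ∀ s, |H s| ≤ 1) (n : ℕ) {z : ℂ} (hz : 0 ≤ z.re) :
    ‖fewF H n z‖ ≤ n := by
  refine (norm_sum_le _ _).trans ((sum_le_card_nsmul _ _ 1 fun s _ => ?_).trans_eq (by simp))
  rw [norm_mul, norm_pow, Complex.norm_real, Real.norm_eq_abs, Complex.norm_exp]
  exact mul_le_one₀ (hH s) (by positivity)
    (pow_le_one₀ (Real.exp_pos _).le (Real.exp_le_one_iff.2 (by simpa using hz)))

theorem few_pol (H : ℕ → ℝ) (n : ℕ) (x θ : ℝ) : fewF H n (x + ((-θ : ℝ) : ℂ) * Complex.I) =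
    ∑ s ∈ range n, (H s : ℂ) * pol (Real.exp (-x)) θ ^ s := by
  simp only [fewF, pol_exp]

theorem few_axis (H : ℕ → ℝ) (n : ℕ) (y : ℝ) :
    fewF H n (y * Complex.I) = ∑ s ∈ range n, (H s : ℂ) * pol 1 (-y) ^ s := by
  simpa using few_pol H n 0 (-y)

theorem few_lip (H : ℕ → ℝ) (hH : ∀ s, |H s| ≤ 1) (n : ℕ) (y y' : ℝ) :
    ‖fewF H n (y * Complex.I) - fewF H n (y' * Complex.I)‖ ≤ n * (n * |y - y'|) := by
  rw [few_axis, few_axis, ← sum_sub_distrib]
  refine (norm_sum_le _ _).trans ((sum_le_card_nsmul _ _ (n * |y - y'|) fun s hs => ?_).trans_eq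
    (by simp))
  rw [← mul_sub, norm_mul, pol_pow, pol_pow, one_pow, Complex.norm_real, Real.norm_eq_abs]
  refine (mul_le_mul (hH s) (norm_pol_sub_pol _ _) (norm_nonneg _) zero_le_one).trans ?_
  rw [one_mul, ← mul_sub, abs_mul, Nat.abs_cast, neg_sub_neg, abs_sub_comm]
  exact mul_le_mul_of_nonneg_right (Nat.cast_le.2 (mem_range.1 hs).le) (abs_nonneg _)

/-- `two_const` for `f z = ∑_{s<2L} H s * exp (-(s z))`, `M = 2 L`, `Lip = 4 L^2`
(`norm_pol_sub_pol`), `R = 2e8 k x0`, `δ = exp (-(b/(k x0))) / 2`, the point `x0 - θ0 I` (`pol_exp`),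
`N = ⌈4 L^2 (4 R + 1) / η⌉₊`, `φ = 1 / (k N)` and `A` the image of the filter under negation.
`Lip (4R+1) φ ≤ η`, `log (2M/δ) = log (8 L) + b/(k x0) ≤ 2 b/(k x0)` (as `ℓ ≤ b/(k x0)`), so if
`N ≤ 100 card` then `exp (-b) / 2 * exp (-(56e8 b)) ≤ 2 η`, which is false as `b ≥ 20`.
Size: `k x0 ≤ b / 20`, `4 L^2 ≤ exp (2 b)`, `4e7 b + 2 ≤ exp (2 b)` (`exp 20 > 4e8`). -/
theorem few (H : ℕ → ℝ) (hH : ∀ s, |H s| ≤ 1) (L k : ℕ) {b ℓ x0 θ0 : ℝ} (hL : 1 ≤ L) (hk : 1 ≤ k)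
    (hℓ : 20 ≤ ℓ) (hsize : 100 * (L : ℝ) ≤ Real.exp ℓ) (hx0 : 1 / (k : ℝ) ≤ x0)
    (hθ : |θ0| ≤ 1100 * x0) (hb : k * x0 * ℓ ≤ b)
    (hδ : Real.exp (-(b / (k * x0))) / 2 ≤
      ‖∑ s ∈ range (2 * L), (H s : ℂ) * pol (Real.exp (-x0)) θ0 ^ s‖) :
    ∃ N : ℕ, 11 * L ≤ N ∧ (N : ℝ) ≤ Real.exp (4 * b) / Real.exp (-(5600000003 * b)) ∧
      100 * ((Icc (-(N : ℤ)) N).filter (fun i : ℤ =>
        ‖∑ s ∈ range (2 * L), (H s : ℂ) * pol 1 (i / (k * N)) ^ s‖ ≤
          Real.exp (-(5600000003 * b)))).card < N := by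
  classical
  have hk1 : (1 : ℝ) ≤ k := by exact_mod_cast hk
  have hL1 : (1 : ℝ) ≤ L := by exact_mod_cast hL
  have hk0 : (0 : ℝ) < k := by linarith
  have hkx : 1 ≤ k * x0 := by rwa [div_le_iff₀' hk0] at hx0
  have hq : ℓ ≤ b / (k * x0) := (le_div_iff₀' (by linarith)).2 hb
  have hb0 : 0 ≤ b := le_trans (by nlinarith) hb
  have hqb : b / (k * x0) ≤ b := div_le_self hb0 hkx
  have hb20 : 20 ≤ b := by linarith
  have hkb : k * x0 ≤ b / 20 := by nlinarith
  set η := Real.exp (-(5600000003 * b)) with hη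
  have η0 : 0 < η := Real.exp_pos _
  have η1 : η ≤ 1 := Real.exp_le_one_iff.2 (by linarith)
  set X : ℝ := 4 * L ^ 2 * (4 * (200000000 * (k * x0)) + 1) with hX
  have hX1 : 11 * L ≤ X := by
    have : (L : ℝ) * 1 ≤ L ^ 2 * (k * x0) := by nlinarith
    nlinarith
  have hXN : X / η ≤ ⌈X / η⌉₊ := Nat.le_ceil _
  have hX2 : X ≤ X / η := le_div_self (by linarith) η0 η1
  have hN1 : (11 * L : ℝ) ≤ ⌈X / η⌉₊ := hX1.trans (hX2.trans hXN)
  have hN2 : 11 * L ≤ ⌈X / η⌉₊ := by exact_mod_cast hN1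
  refine ⟨⌈X / η⌉₊, hN2, ?_, ?_⟩
  · refine (Nat.ceil_lt_add_one (by linarith)).le.trans ?_
    rw [le_div_iff₀ η0, add_mul, div_mul_cancel₀ _ η0.ne', one_mul]
    have e1 : 100 * (L : ℝ) ≤ Real.exp b := hsize.trans (Real.exp_le_exp.2 (by linarith))
    have e2 : (100 * (L : ℝ)) ^ 2 ≤ Real.exp b ^ 2 := pow_le_pow_left₀ (by positivity) e1 2
    have e3 : (2 * b) ^ 5 / (Nat.factorial 5 : ℕ) ≤ Real.exp (2 * b) :=
      Real.pow_div_factorial_le_exp _ (by linarith) 5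
    have e4 : (20 : ℝ) ^ 4 ≤ b ^ 4 := pow_le_pow_left₀ (by norm_num) hb20 4
    have e5 : 16000 * b + 2 ≤ Real.exp b ^ 2 := by
      rw [← Real.exp_nat_mul]
      norm_num [Nat.factorial] at e3 ⊢
      nlinarith
    have e6 : Real.exp (4 * b) = Real.exp b ^ 2 * Real.exp b ^ 2 := by
      rw [← pow_add, ← Real.exp_nat_mul]
      norm_num
    have e7 : X ≤ Real.exp b ^ 2 / 2500 * (40000000 * b + 1) :=
      mul_le_mul (by linarith) (by linarith) (by linarith) (by positivity)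
    rw [e6]
    generalize Real.exp b ^ 2 = E at e5 e7 ⊢
    nlinarith
  · generalize ⌈X / η⌉₊ = N at hXN hN1 hN2 ⊢
    by_contra hc
    rw [not_lt] at hc
    have hN0 : (0 : ℝ) < N := by linarith
    have hφ : (0 : ℝ) < 1 / (k * N) := by positivity
    have eφ : (N : ℝ) * (1 / (k * N)) = 1 / k := by field_simp
    have h := two_const (fewF H (2 * L)) (few_diff H _) (M := 2 * L) (Lip := 4 * L ^ 2) (η := η)
      (φ := 1 / (k * N)) (x0 := x0) (θ0 := -θ0) (δ := Real.exp (-(b / (k * x0))) / 2)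
      (R := 200000000 * (k * x0)) N
      (((Icc (-(N : ℤ)) N).filter (fun i : ℤ =>
        ‖∑ s ∈ range (2 * L), (H s : ℂ) * pol 1 (i / (k * N)) ^ s‖ ≤ η)).image fun i => -i)
      (fun z hz => (few_bd H hH _ hz).trans_eq (by push_cast; rfl)) (by positivity)
      (fun y y' => (few_lip H hH _ y y').trans_eq (by push_cast; ring)) hφ (by omega)
      (fun i hi => by
        obtain ⟨j, hj, rfl⟩ := mem_image.1 hi
        obtain ⟨h1, h2⟩ := mem_filter.1 hj
        refine ⟨by rw [abs_neg]; exact abs_le.2 (mem_Icc.1 h1), le_trans (le_of_eq ?_) h2⟩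
        rw [few_axis]
        have : -(1 / ((k : ℝ) * N) * ((-j : ℤ) : ℝ)) = j / (k * N) := by push_cast; ring
        rw [this])
      (by rwa [card_image_of_injective _ neg_injective]) (by rwa [eφ]) (by rwa [abs_neg])
      (by rw [eφ]; field_simp; exact le_rfl) (by positivity) (by rw [few_pol]; exact hδ)
    have h1 : 4 * (L : ℝ) ^ 2 * (4 * (200000000 * (k * x0)) + 1) * (1 / (k * N)) ≤ η := by
      rw [mul_one_div, div_le_iff₀ (by positivity)]
      rw [div_le_iff₀ η0] at hXN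
      nlinarith [mul_le_mul_of_nonneg_right hk1 (mul_pos hN0 η0).le]
    set q := b / (k * x0) with hqd
    have h2 : Real.log (2 * (2 * L) / (Real.exp (-q) / 2)) ≤ 2 * q := by
      rw [Real.log_le_iff_le_exp (by positivity), Real.exp_neg, two_mul q, Real.exp_add]
      have e1 : 8 * (L : ℝ) ≤ Real.exp q := by linarith [Real.exp_le_exp.2 hq]
      have e2 := Real.exp_pos q
      rw [show 2 * (2 * (L : ℝ)) / ((Real.exp q)⁻¹ / 2) = 8 * L * Real.exp q by field_simp; ring]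
      exact mul_le_mul_of_nonneg_right e1 e2.le
    have h3 : 14 * (200000000 * (k * x0)) * Real.log (2 * (2 * L) / (Real.exp (-q) / 2)) ≤
        5600000000 * b := by
      refine (mul_le_mul_of_nonneg_left h2 (by positivity)).trans_eq ?_
      have : k * x0 * q = b := mul_div_cancel₀ _ (by linarith)
      linarith
    have h4 : Real.exp (-b) / 2 * Real.exp (-(5600000000 * b)) ≤ η + η := by
      refine le_trans (mul_le_mul (by linarith [Real.exp_le_exp.2 (neg_le_neg hqb)])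
        (Real.exp_le_exp.2 (neg_le_neg h3)) (Real.exp_pos _).le (by positivity)) (h.trans ?_)
      linarith
    have h5 : Real.exp (-b) * Real.exp (-(5600000000 * b)) = η * Real.exp (2 * b) := by
      rw [hη, ← Real.exp_add, ← Real.exp_add]
      congr 1
      ring
    have h6 := Real.add_one_le_exp (2 * b)
    nlinarith

end Pool.Agent.Lib.MP_343fe0_pr.Up
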