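import Pool.Agent.Lib.MP_343fe0_pr.Up.ClB
import Pool.Agent.Lib.MP_343fe0_pr.Up.UDefsEq

set_option autoImplicit false

/-! Members of the class are expectations of bounded functions of one trace. -/

namespace Pool.Agent.Lib.MP_343fe0_pr.Up

open Finset

theorem Ex_add (x : List Bool) (Φ Ψ : List Bool → ℂ) :
    Ex x (fun w => Φ w + Ψ w) = Ex x Φ + Ex x Ψ := by
  induction x generalizing Φ Ψ with
  | nil => rfl
  | cons b x ih =>
    rw [Ex, Ex, Ex, ih, ih]
    ring

theorem Ex_mul (x : List Bool) (c : ℂ) (Φ : List Bool → ℂ) :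
    Ex x (fun w => c * Φ w) = c * Ex x Φ := by
  induction x generalizing Φ with
  | nil => rfl
  | cons b x ih =>
    rw [Ex, Ex, ih, ih]
    ring

theorem Ex_const (x : List Bool) (c : ℂ) : Ex x (fun _ => c) = c := by
  induction x with
  | nil => rfl
  | cons b x ih =>
    rw [Ex, ih]
    ring

/-- The solution of a linear recursion along a list. -/
noncomputable def realiseRec (c ζ : ℂ) (U0 U1 : List Bool → ℂ) : List Bool → ℂ
  | [] => c
  | b :: w => ζ * realiseRec c ζ U0 U1 w + U0 w + bit b * U1 w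

theorem realise {d : ℕ} {K : ℝ} {F : List Bool → ℂ} (h : Cl (1 / 2) d K F) :
    ∃ Φ : List Bool → ℂ, (∀ x, Ex x Φ = F x) ∧
      ∀ w : List Bool, ‖Φ w‖ ≤ K * (2 * (w.length : ℝ) + 1) ^ d := by
  induction h with
  | const d K c h =>
    refine ⟨fun _ => c, fun x => Ex_const x c, fun w => h.trans ?_⟩
    refine le_mul_of_one_le_right ((norm_nonneg _).trans h) (one_le_pow₀ ?_)
    exact le_add_of_nonneg_left (by positivity)
  | add d K K' F G _ _ h h' =>
    obtain ⟨Φ, h1, h2⟩ := h
    obtain ⟨Ψ, h3, h4⟩ := h'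
    refine ⟨fun w => Φ w + Ψ w, fun x => by rw [Ex_add, h1, h3], fun w => ?_⟩
    rw [add_mul]
    exact (norm_add_le _ _).trans (add_le_add (h2 w) (h4 w))
  | loop d K0 K1 K2 ζ U0 U1 F hζ c0 c1 h e h0 h1 =>
    obtain ⟨Φ, h2, h3⟩ := h0
    obtain ⟨Ψ, h4, h5⟩ := h1
    have k0 := cl_nonneg c0
    have k1 := cl_nonneg c1
    have k2 := (norm_nonneg _).trans h
    refine ⟨realiseRec (F []) (2 * ζ - 1) (fun w => 2 * Φ w) fun w => 2 * Ψ w, fun x => ?_,
      fun w => ?_⟩
    · induction x with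
      | nil => rfl
      | cons b x ih =>
        simp only [Ex, realiseRec, Ex_add, Ex_mul, ih, h2, h4, e]
        ring
    have key : ‖realiseRec (F []) (2 * ζ - 1) (fun w => 2 * Φ w) (fun w => 2 * Ψ w) w‖ ≤
        K2 + (K0 + K1) * (2 * w.length) * (2 * (w.length : ℝ) + 1) ^ d := by
      induction w with
      | nil => simpa [realiseRec] using h
      | cons b w ih =>
        have a1 : ‖bit b‖ ≤ 1 := by cases b <;> simp [bit]
        have a2 : (2 * (w.length : ℝ) + 1) ^ d ≤ (2 * ((w.length : ℝ) + 1) + 1) ^ d := by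
          gcongr
          linarith
        have a3 := mul_le_of_le_one_left (norm_nonneg (realiseRec (F []) (2 * ζ - 1)
          (fun w => 2 * Φ w) (fun w => 2 * Ψ w) w)) (reg_half hζ)
        have a4 := mul_le_of_le_one_left (by positivity : 0 ≤ 2 * ‖Ψ w‖) a1
        have a5 := mul_le_mul_of_nonneg_left a2
          (by positivity : 0 ≤ (K0 + K1) * (2 * ((w.length : ℝ) + 1)))
        refine norm_add₃_le.trans ?_
        simp only [norm_mul, Complex.norm_two, List.length_cons, Nat.cast_succ]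
        linarith [h3 w, h5 w]
    have a1 : (1 : ℝ) ≤ (2 * (w.length : ℝ) + 1) ^ (d + 1) :=
      one_le_pow₀ (le_add_of_nonneg_left (by positivity))
    have a2 := le_mul_of_one_le_right k2 a1
    have a3 : 0 ≤ (K0 + K1) * (2 * (w.length : ℝ) + 1) ^ d := by positivity
    rw [pow_succ] at a2 ⊢
    linarith

end Pool.Agent.Lib.MP_343fe0_pr.Up
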