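import Pool.Agent.Lib.MP_343fe0_pr.Up.Geo
import Pool.Agent.Lib.MP_343fe0_pr.Up.Realise
import Pool.Agent.Lib.MP_343fe0_pr.Up.KerBand

set_option autoImplicit false

/-! From the induction hypothesis to a test on one trace. -/

namespace Pool.Agent.Lib.MP_343fe0_pr.Up

open Finset

/-- `geo` for the approximant `G` (moved to `t = 1/2` by `cl_monot`, `‖G‖ ≤ 1 + e`), `ζ` the point of
`IH`, `lam = 1 / (2k)` (`exp_neg_inv_le`), `n = x.length`: `H x - H y = ∑ ζ^s (G (drop s x) - G (drop s y))`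
has norm at least `exp (-b) - 2 e * 2 k ≥ exp (-b) / 2` (`1 ≤ k x0`, `geom_le_inv`).  `realise`, then
divide by `6 k K (2 len + 1) ^ (d + 1)` (`Ex_mul`). -/
theorem finish {ℓ t K e : ℝ} {Λ k b d : ℕ} {x y : List Bool} (hlen : x.length = y.length)
    (ht : t ≤ 1 / 2) (hk : 1 ≤ k) (hK : 1 ≤ K) (he : 8 * k * e ≤ Real.exp (-(b : ℝ)))
    (h : IH ℓ Λ k b t d K e x y) :
    ∃ Φ : List Bool → ℂ, (∀ w : List Bool, w.length ≤ x.length → ‖Φ w‖ ≤ 1) ∧
      Real.exp (-(b : ℝ)) / (12 * k * K * (2 * (x.length : ℝ) + 1) ^ (d + 1)) ≤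
        ‖Ex x Φ - Ex y Φ‖ := by
  obtain ⟨α, hα, -, hA, x0, θ0, hx, -, -, hR, hS⟩ := h
  have e0 := (apx_nonneg hA).2
  obtain ⟨G, hG, hGe⟩ := hA
  have k1 : (1 : ℝ) ≤ k := by exact_mod_cast hk
  have k0 : (0 : ℝ) < k := by linarith
  have l0 : (0 : ℝ) < 1 / (2 * k) := by positivity
  have hn : ‖pol (Real.exp (-x0)) θ0‖ ≤ 1 - 1 / (2 * k) := by
    rw [norm_pol, abs_of_pos (Real.exp_pos _)]
    exact (Real.exp_le_exp.2 (neg_le_neg hx)).trans (exp_neg_inv_le k1)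
  have h1 : Real.exp (-(b : ℝ)) ≤ Real.exp (-(b / (k * x0))) :=
    Real.exp_le_exp.2 (neg_le_neg (div_le_self (Nat.cast_nonneg _) ((div_le_iff₀' k0).1 hx)))
  generalize pol (Real.exp (-x0)) θ0 = ζ at hR hS hn
  obtain ⟨H, hH, -, hs⟩ := geo (cl_monot hG ht) (s0 := e + 1) (fun l => by
    refine (norm_le_norm_sub_add (G l) (α l)).trans (add_le_add (hGe l) ?_)
    rw [Complex.norm_real, Real.norm_of_nonneg (by linarith [(hα l).1])]
    exact (hα l).2) l0 ((div_le_one (by positivity)).2 (by linarith)) hR hn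
  obtain ⟨Φ, hΦ, hb⟩ := realise hH
  have h2 : ‖∑ s ∈ range x.length, ((α (x.drop s) - α (y.drop s) : ℝ) : ℂ) * ζ ^ s -
      (H x - H y)‖ ≤ 2 * e * (1 / (1 / (2 * k))) := by
    rw [hs x x.length, hs y x.length, List.drop_length, List.drop_of_length_le hlen.ge,
      add_sub_add_right_eq_sub, ← sum_sub_distrib, ← sum_sub_distrib]
    refine (norm_sum_le _ _).trans (le_trans ?_ (mul_le_mul_of_nonneg_left
      (geom_le_inv (norm_nonneg ζ) l0 hn x.length) (by positivity)))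
    rw [mul_sum]
    refine sum_le_sum fun s _ => ?_
    rw [show ((α (x.drop s) - α (y.drop s) : ℝ) : ℂ) * ζ ^ s -
        (ζ ^ s * G (x.drop s) - ζ ^ s * G (y.drop s)) =
        ((G (y.drop s) - α (y.drop s)) - (G (x.drop s) - α (x.drop s))) * ζ ^ s by
      push_cast; ring, norm_mul, norm_pow]
    refine mul_le_mul_of_nonneg_right ((norm_sub_le _ _).trans ?_) (by positivity)
    linarith [hGe (x.drop s), hGe (y.drop s)]
  have h3 := (h1.trans hS).trans ((norm_le_norm_sub_add _ (H x - H y)).trans (add_le_add h2 le_rfl))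
  rw [one_div_one_div] at h3
  have c0 : 0 < 6 * k * K * (2 * (x.length : ℝ) + 1) ^ (d + 1) := by positivity
  refine ⟨fun w => ((6 * k * K * (2 * (x.length : ℝ) + 1) ^ (d + 1))⁻¹ : ℝ) * Φ w,
    fun w hw => ?_, ?_⟩
  · rw [norm_mul, Complex.norm_real, Real.norm_of_nonneg (inv_pos.2 c0).le, inv_mul_le_one₀ c0]
    refine (hb w).trans ?_
    rw [div_div_eq_mul_div, div_one, show 3 * K * (2 * k) = 6 * k * K by ring]
    gcongr
  · rw [Ex_mul, Ex_mul, ← mul_sub, norm_mul, Complex.norm_real,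
      Real.norm_of_nonneg (inv_pos.2 c0).le, hΦ, hΦ, le_inv_mul_iff₀ c0, ← mul_div_assoc,
      div_le_iff₀ (by positivity)]
    nlinarith

end Pool.Agent.Lib.MP_343fe0_pr.Up
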