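import Pool.Agent.Lib.MP_343fe0_pr.Up.Par

set_option autoImplicit false

/-! The last level and its sizes. -/

namespace Pool.Agent.Lib.MP_343fe0_pr.Up

open Finset

theorem level_bb (b0 i T : ℕ) (hi : i ≤ T) : bb b0 i ≤ b0 * GG T :=
  (Nat.le_mul_of_pos_right _ (by positivity)).trans (bb_le b0 i T hi)

/-- `N` is the least index with `n ≤ Lam N`; `N ≤ T` by `kk_le_Lam`, `two_pow_le_kk`, and `N ≥ 1`.
For `j < N`: `kk j ≤ n k0` (`j = 0`, or `kk j ≤ Lam j < n`), `bb j ≤ b0 G`.  With `N = j + 1`: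
`kk N = 11 kk j ^ 2 ≤ 11 LL j`, `Lam N = Lam j + 9 LL j < n + 9 LL j`, `100 n^2 ≤ exp ℓ`. -/
theorem level (n T ℓ : ℕ) (hn : 1 ≤ n) (hT1 : 1 ≤ T) (hT : n ≤ 2 ^ 2 ^ T) (hℓ : 20 ≤ ℓ)
    (hsize : 100 * ((n : ℝ) ^ 2 * k0f T ^ 2 * (C8 * (b0f T ℓ * GG T))) ≤ Real.exp ℓ) :
    ∃ N, N ≤ T ∧ n ≤ Lam (k0f T) (b0f T ℓ) N ∧
      (∀ j < N, 100 * (LL (k0f T) (b0f T ℓ) j : ℝ) ≤ Real.exp ℓ) ∧
      (kk (k0f T) N : ℝ) ≤ Real.exp ℓ ∧
      2 * ((Lam (k0f T) (b0f T ℓ) N : ℝ) + n) + 1 ≤ Real.exp ℓ := by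
  classical
  have hG := (pow_le_GG T).2.2.2
  have hk : 2 ≤ k0f T := by unfold k0f; omega
  have hb : 1 ≤ b0f T ℓ := Nat.mul_pos (by omega) (by omega)
  have hC : 1 ≤ C8 := by decide
  generalize k0f T = k0 at *
  generalize b0f T ℓ = b0 at *
  have hL : n ≤ Lam k0 b0 T := by
    obtain ⟨i, rfl⟩ := Nat.exists_eq_add_of_le' hT1
    exact hT.trans ((two_pow_le_kk k0 _ hk).trans (kk_le_Lam k0 b0 i hb))
  have hex : ∃ N, n ≤ Lam k0 b0 N := ⟨T, hL⟩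
  have hN := Nat.find_min' hex hL
  have h1 := Nat.find_spec hex
  have h2 : ∀ j < Nat.find hex, Lam k0 b0 j < n := fun j hj => not_le.1 (Nat.find_min hex hj)
  generalize Nat.find hex = N at hN h1 h2
  have hS : ∀ m : ℕ, m ≤ 100 * (n ^ 2 * k0 ^ 2 * (C8 * (b0 * GG T))) → (m : ℝ) ≤ Real.exp ℓ :=
    fun m hm => le_trans (by exact_mod_cast hm) hsize
  have h3 : ∀ j < N, LL k0 b0 j ≤ n ^ 2 * k0 ^ 2 * (C8 * (b0 * GG T)) := fun j hj => by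
    have h4 : kk k0 j ≤ n * k0 := by
      rcases j with _ | j
      · exact Nat.le_mul_of_pos_left _ hn
      · exact ((kk_le_Lam k0 b0 j hb).trans (h2 _ hj).le).trans
          (Nat.le_mul_of_pos_right _ (by omega))
    rw [← mul_pow]
    exact Nat.mul_le_mul (Nat.pow_le_pow_left h4 2)
      (Nat.mul_le_mul_left _ (level_bb b0 j T (by omega)))
  have h5 : n ≤ n ^ 2 * k0 ^ 2 * (C8 * (b0 * GG T)) :=
    ((Nat.le_self_pow two_ne_zero n).trans (Nat.le_mul_of_pos_right _ (by positivity))).trans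
      (Nat.le_mul_of_pos_right _ (by positivity))
  rcases N with _ | j
  · exact absurd h1 (by simp only [Lam]; omega)
  have h6 := h3 j j.lt_succ_self
  have h7 := h2 j j.lt_succ_self
  have h8 : kk k0 j ^ 2 ≤ LL k0 b0 j :=
    Nat.le_mul_of_pos_right _ (by unfold bb; positivity)
  refine ⟨j + 1, hN, h1, fun i hi => ?_, hS _ ?_, ?_⟩
  · exact_mod_cast hS (100 * LL k0 b0 i) (Nat.mul_le_mul_left _ (h3 i hi))
  · rw [kk]
    omega
  · exact_mod_cast hS (2 * (Lam k0 b0 (j + 1) + n) + 1) (by rw [Lam]; omega)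

/-- Take logarithms: `8 ≤ exp 3`, `5^N ≤ exp (2 T)`, `bb N + ℓ + 3 + 2 T ≤ B`; and
`12 ≤ exp 3`, `d + 1 ≤ 3^(N+1) ≤ 3 G`, `bb N + 3 + ℓ + 3 G B + 3 G ℓ ≤ 4 G B`. -/
theorem level_num (T ℓ N : ℕ) (hℓ : 20 ≤ ℓ) (hN : N ≤ T) {k len : ℝ} (hk1 : 1 ≤ k)
    (hk : k ≤ Real.exp ℓ) (hlen0 : 0 ≤ len) (hlen : 2 * len + 1 ≤ Real.exp ℓ) :
    8 * k * (5 ^ N * Real.exp (-(Bf T ℓ : ℝ))) ≤ Real.exp (-(bb (b0f T ℓ) N : ℝ)) ∧
      Real.exp (-(4 * (GG T : ℝ) * Bf T ℓ)) ≤ Real.exp (-(bb (b0f T ℓ) N : ℝ)) /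
        (12 * k * Real.exp ((3 ^ (N + 1) - 2) * (Bf T ℓ : ℝ)) * (2 * len + 1) ^ (dd N + 1)) := by
  obtain ⟨g5, g3, -, g1⟩ := pow_le_GG T
  have a1 : ℓ ≤ b0f T ℓ := Nat.le_mul_of_pos_left _ (by unfold k0f; omega)
  have a2 : (bb (b0f T ℓ) N : ℝ) ≤ (b0f T ℓ * GG T : ℕ) := by exact_mod_cast level_bb _ N T hN
  have a3 : (ℓ : ℝ) ≤ (b0f T ℓ * GG T : ℕ) := by
    exact_mod_cast a1.trans (Nat.le_mul_of_pos_right _ g1)
  have a4 : (GG T : ℝ) ≤ (b0f T ℓ * GG T : ℕ) := by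
    exact_mod_cast Nat.le_mul_of_pos_left _ (by omega)
  have a5 : 6 * ((b0f T ℓ * GG T : ℕ) : ℝ) ≤ Bf T ℓ := by
    have : 6 * (b0f T ℓ * GG T) ≤ Bf T ℓ := by
      rw [Bf, mul_assoc (400 * C8)]
      exact Nat.mul_le_mul_right _ (by decide)
    exact_mod_cast this
  have a6 : (20 : ℝ) ≤ ℓ := by exact_mod_cast hℓ
  have a7 : (5 : ℝ) ^ N ≤ GG T := by
    exact_mod_cast (Nat.pow_le_pow_right (by norm_num) hN).trans g5
  have a8 : 3 ^ (N + 1) ≤ 3 * GG T := by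
    rw [pow_succ']
    exact Nat.mul_le_mul_left _ ((Nat.pow_le_pow_right (by norm_num) hN).trans g3)
  have a9 : ((dd N + 1 : ℕ) : ℝ) * ℓ ≤ 3 * (b0f T ℓ * GG T : ℕ) := by
    have h1 := dd_le N
    have : (dd N + 1) * ℓ ≤ 3 * (b0f T ℓ * GG T) := by
      rw [mul_comm (b0f T ℓ), ← mul_assoc]
      exact Nat.mul_le_mul (by omega) a1
    exact_mod_cast this
  have a10 : (3 : ℝ) ^ (N + 1) ≤ 3 * GG T := by exact_mod_cast a8
  have a11 : (1 : ℝ) ≤ GG T := by exact_mod_cast g1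
  have e : ∀ x : ℝ, x ≤ Real.exp x := fun x => by linarith [Real.add_one_le_exp x]
  have hB : (0 : ℝ) ≤ Bf T ℓ := Nat.cast_nonneg _
  generalize ((b0f T ℓ * GG T : ℕ) : ℝ) = P at *
  generalize (Bf T ℓ : ℝ) = B at *
  generalize (GG T : ℝ) = G at *
  constructor
  · calc _ ≤ Real.exp 8 * Real.exp ℓ * (Real.exp G * Real.exp (-B)) := by
          gcongr
          exacts [e 8, a7.trans (e G)]
      _ ≤ _ := by
          simp only [← Real.exp_add]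
          exact Real.exp_le_exp.2 (by linarith)
  · rw [le_div_iff₀ (by positivity)]
    calc _ ≤ Real.exp (-(4 * G * B)) * (Real.exp 12 * Real.exp ℓ * Real.exp (3 * G * B) *
          Real.exp ℓ ^ (dd N + 1)) := by
          gcongr
          exacts [e 12, by linarith]
      _ ≤ _ := by
          simp only [← Real.exp_nat_mul, ← Real.exp_add]
          exact Real.exp_le_exp.2 (by nlinarith)

end Pool.Agent.Lib.MP_343fe0_pr.Up
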