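import Pool.Agent.Lib.MP_343fe0_pr.Up.UDefs
import Pool.Agent.Lib.MP_343fe0_pr.Defs
import Pool.Agent.Lib.MP_343fe0_pr.Up.UDefsEq

set_option autoImplicit false

/-! The list average and the masks. -/

namespace Pool.Agent.Lib.MP_343fe0_pr.Up

open Finset

theorem trace_length_le {n : ℕ} (x s : Fin n → Bool) : (trace x s).length ≤ n := by
  simpa [trace] using List.length_filter_le s (List.finRange n)

theorem link_cons {n : ℕ} (x : Fin (n + 1) → Bool) (b : Bool) (s : Fin n → Bool) :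
    trace x (Fin.cons b s) =
      if b then x 0 :: trace (fun i => x i.succ) s else trace (fun i => x i.succ) s := by
  cases b <;> simp [trace, List.finRange_succ, List.filter_map, Function.comp_def]

/-- Induction on `n` (for all `Φ`): `List.finRange_succ`, `List.ofFn_succ`, masks as
`Fin.cons b s` (`Fin.consEquiv` or `Fin.insertNthEquiv`, `Fintype.sum_prod_type`). -/
theorem link {n : ℕ} (x : Fin n → Bool) (Φ : List Bool → ℂ) :
    ∑ s : Fin n → Bool, Φ (trace x s) = 2 ^ n * Ex (List.ofFn x) Φ := by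
  induction n generalizing Φ with
  | zero => simp [trace, Ex]
  | succ n ih =>
    rw [← (Fin.consEquiv fun _ => Bool).sum_comp, Fintype.sum_prod_type, Fintype.sum_bool,
      List.ofFn_succ, Ex]
    simp only [Fin.consEquiv, Equiv.coe_fn_mk, link_cons, if_true, Bool.false_eq_true, if_false]
    rw [ih, ih (fun i => x i.succ) fun w => Φ (x 0 :: w)]
    ring

theorem link_avg (x : List Bool) (Φ Ψ : List Bool → ℂ) :
    Ex x (fun w => (Φ w + Ψ w) / 2) = (Ex x Φ + Ex x Ψ) / 2 := by
  induction x generalizing Φ Ψ with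
  | nil => rfl
  | cons b x ih =>
    simp only [Ex]
    rw [ih, ih (fun w => Φ (b :: w)) fun w => Ψ (b :: w)]
    ring

/-- Induction on `r`: `Ex (false :: z) Φ = Ex z (fun w => (Φ w + Φ (false :: w)) / 2)` (prove the
linearity of `Ex` here again). -/
theorem pad (r n : ℕ) (Φ : List Bool → ℂ) (hΦ : ∀ w : List Bool, w.length ≤ r + n → ‖Φ w‖ ≤ 1) :
    ∃ Ψ : List Bool → ℂ, (∀ w : List Bool, w.length ≤ n → ‖Ψ w‖ ≤ 1) ∧
      ∀ x : List Bool, Ex (List.replicate r false ++ x) Φ = Ex x Ψ := by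
  induction r generalizing Φ with
  | zero => exact ⟨Φ, by simpa using hΦ, fun _ => rfl⟩
  | succ r ih =>
    obtain ⟨Ψ, h1, h2⟩ := ih (fun w => (Φ w + Φ (false :: w)) / 2) fun w hw => by
      have := (norm_add_le _ _).trans (add_le_add (hΦ w (by omega))
        (hΦ (false :: w) (by rw [List.length_cons]; omega)))
      rw [norm_div, Complex.norm_two]
      linarith
    exact ⟨Ψ, h1, fun x => by rw [List.replicate_succ, List.cons_append, Ex, ← h2, link_avg]⟩

/-- Rotate by a unit `u` with `u * (Ex x Φ - Ex y Φ) = ‖..‖`, take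
`Ψ w = if w.length ≤ n then re (u * Φ w) else 0`, `link`, `trace_length_le`. -/
theorem sep {n : ℕ} (x y : Fin n → Bool) (Φ : List Bool → ℂ)
    (hΦ : ∀ w : List Bool, w.length ≤ n → ‖Φ w‖ ≤ 1) {δ : ℝ}
    (hδ : δ ≤ ‖Ex (List.ofFn x) Φ - Ex (List.ofFn y) Φ‖) :
    ∃ Ψ : List Bool → ℝ, (∀ w, |Ψ w| ≤ 1) ∧
      δ * 2 ^ n ≤ ∑ s : Fin n → Bool, Ψ (trace x s) - ∑ s : Fin n → Bool, Ψ (trace y s) := by
  obtain ⟨u, hu, e⟩ := Complex.exists_norm_eq_mul_self (Ex (List.ofFn x) Φ - Ex (List.ofFn y) Φ)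
  refine ⟨fun w => if w.length ≤ n then (u * Φ w).re else 0, fun w => ?_, ?_⟩
  · dsimp only
    split_ifs with h
    · refine (Complex.abs_re_le_norm _).trans ?_
      rw [norm_mul, hu, one_mul]
      exact hΦ w h
    · simp
  · simp only [trace_length_le, if_true]
    rw [← Complex.re_sum, ← Complex.re_sum, ← Complex.sub_re, ← mul_sum, ← mul_sum, link, link,
      ← mul_sub, ← mul_sub, mul_left_comm, ← e]
    norm_cast
    rw [mul_comm]
    exact mul_le_mul_of_nonneg_left hδ (by positivity)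

end Pool.Agent.Lib.MP_343fe0_pr.Up
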