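import Pool.Agent.Lib.MP_343fe0_pr.Up.Iter
import Pool.Agent.Lib.MP_343fe0_pr.Up.Finish
import Pool.Agent.Lib.MP_343fe0_pr.Up.Link
import Pool.Agent.Lib.MP_343fe0_pr.Up.Level

set_option autoImplicit false

/-! Any two strings are separated by one trace. -/

namespace Pool.Agent.Lib.MP_343fe0_pr.Up

open Finset

theorem gap_getD (r j : ℕ) (l : List Bool) :
    (List.replicate r false ++ l).getD j false = if j < r then false else l.getD (j - r) false := by
  induction r generalizing j with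
  | zero => simp
  | succ r ih =>
    cases j with
    | zero => simp [List.replicate_succ]
    | succ j => simpa [List.replicate_succ] using ih j

/-- Pad both strings so that the first difference sits at `Lam N`. -/
theorem gap (n T ℓ : ℕ) (hT1 : 1 ≤ T) (hT : n ≤ 2 ^ 2 ^ T) (hℓ : 20 ≤ ℓ)
    (hsize : 100 * ((n : ℝ) ^ 2 * k0f T ^ 2 * (C8 * (b0f T ℓ * GG T))) ≤ Real.exp ℓ)
    (x y : Fin n → Bool) (hxy : x ≠ y) :
    ∃ Ψ : List Bool → ℝ, (∀ w, |Ψ w| ≤ 1) ∧
      Real.exp (-(4 * (GG T : ℝ) * Bf T ℓ)) * 2 ^ n ≤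
        ∑ s : Fin n → Bool, Ψ (trace x s) - ∑ s : Fin n → Bool, Ψ (trace y s) := by
  have hex : ∃ p, (List.ofFn x).getD p false ≠ (List.ofFn y).getD p false := by
    obtain ⟨i, hi⟩ := Function.ne_iff.1 hxy
    exact ⟨i, by simpa using hi⟩
  have hp : Nat.find hex < n := by
    by_contra h
    exact Nat.find_spec hex (by
      rw [List.getD_eq_default _ _ (by simpa using h), List.getD_eq_default _ _ (by simpa using h)])
  obtain ⟨N, hN, hn, hL, hk, hΛ⟩ := level n T ℓ (by omega) hT1 hT hℓ hsize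
  obtain ⟨r, hr⟩ := Nat.exists_eq_add_of_le (hp.le.trans hn)
  have hk1 : 1 ≤ kk (k0f T) N := by
    have := (pow_le_GG T).2.2.2
    exact le_trans (by rw [k0f]; omega) (k0_le_kk _ N)
  have hl : (List.replicate r false ++ List.ofFn x).length = r + n := by simp
  have hl' : (List.replicate r false ++ List.ofFn x).length =
      (List.replicate r false ++ List.ofFn y).length := by simp
  have hI := iter T ℓ hℓ N hN hL _ _ hl' (fun j hj => by
    rw [gap_getD, gap_getD]
    split_ifs with h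
    · rfl
    · exact not_not.1 (Nat.find_min hex (by omega))) (by
    rw [gap_getD, gap_getD, if_neg (by omega), if_neg (by omega), hr, Nat.add_sub_cancel]
    exact Nat.find_spec hex)
  obtain ⟨h1, h2⟩ := level_num T ℓ N hℓ hN (len := ((r + n : ℕ) : ℝ)) (Nat.one_le_cast.2 hk1) hk
    (Nat.cast_nonneg _) (by
      have : (r : ℝ) ≤ Lam (k0f T) (b0f T ℓ) N := Nat.cast_le.2 (by omega)
      push_cast
      linarith)
  have h3 : (3 : ℝ) ^ N ≤ 3 ^ T := pow_le_pow_right₀ (by norm_num) hN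
  have h4 : (1 : ℝ) ≤ 3 ^ N := one_le_pow₀ (by norm_num)
  obtain ⟨Φ, hΦ, h5⟩ := finish hl' (by rw [div_le_div_iff₀ (by positivity) two_pos]; linarith) hk1
    (Real.one_le_exp (mul_nonneg (by rw [pow_succ]; linarith) (Nat.cast_nonneg _))) h1 hI
  rw [hl] at hΦ h5
  obtain ⟨Ψ, hΨ, h6⟩ := pad r n Φ hΦ
  rw [h6, h6] at h5
  exact sep x y Ψ hΨ (h2.trans h5)

end Pool.Agent.Lib.MP_343fe0_pr.Up
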