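import Pool.Agent.Lib.MP_343fe0_pr.Up.ClB

set_option autoImplicit false

/-! Geometric sums over the suffixes stay in the class. -/

namespace Pool.Agent.Lib.MP_343fe0_pr.Up

open Finset

/-- The geometric sum over the proper suffixes. -/
noncomputable def geoRec (ζ : ℂ) (G : List Bool → ℂ) : List Bool → ℂ
  | [] => G [] / (1 - ζ)
  | _ :: x => ζ * geoRec ζ G x + G x

theorem geo {t : ℝ} {d : ℕ} {K : ℝ} {G : List Bool → ℂ} (hG : Cl t d K G) {s0 lam : ℝ}
    (hs : ∀ x, ‖G x‖ ≤ s0) (hlam0 : 0 < lam) (hlam : lam ≤ 1) {ζ : ℂ} (hζ : Reg t ζ)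
    (hn : ‖ζ‖ ≤ 1 - lam) :
    ∃ H : List Bool → ℂ, Cl t (d + 1) (3 * K / lam) H ∧ (∀ x, ‖H x‖ ≤ s0 / lam) ∧
      ∀ (x : List Bool) (n : ℕ),
        H x = ∑ s ∈ range n, ζ ^ s * G (x.drop s) + ζ ^ n * H (x.drop n) := by
  have h1 : lam ≤ ‖1 - ζ‖ := by
    have := norm_sub_norm_le (1 : ℂ) ζ
    rw [norm_one] at this
    linarith
  have h2 : 1 - ζ ≠ 0 := norm_pos_iff.1 (hlam0.trans_le h1)
  have h3 : ∀ c : ℝ, ‖G []‖ ≤ c → ‖geoRec ζ G []‖ ≤ c / lam := fun c hc => by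
    rw [geoRec, norm_div]
    exact div_le_div₀ ((norm_nonneg _).trans hc) hc hlam0 h1
  have hK := cl_nonneg hG
  have hF : Cl t (d + 1) (K + 0 + K / lam) (geoRec ζ G) :=
    .loop _ _ _ _ ζ G (fun _ => 0) _ hζ hG (.const _ _ 0 norm_zero.le) (h3 K (cl_nil hG))
      fun b x => by rw [geoRec, mul_zero, add_zero]
  have h4 : ∀ x, ‖geoRec ζ G x‖ ≤ s0 / lam → ‖ζ * geoRec ζ G x + G x‖ ≤ s0 / lam := fun x hx => by
    have a := mul_le_mul hn hx (norm_nonneg _) (sub_nonneg.2 hlam)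
    have e : (1 - lam) * (s0 / lam) + s0 = s0 / lam := by field_simp; ring
    refine (norm_add_le _ _).trans ?_
    rw [norm_mul]
    linarith [hs x]
  have h5 : ∀ x, ‖geoRec ζ G x‖ ≤ s0 / lam := fun x => by
    induction x with
    | nil => exact h3 _ (hs _)
    | cons b x ih => exact h4 x ih
  have h6 : ∀ x, geoRec ζ G x = ζ * geoRec ζ G x.tail + G x.tail := fun x => by
    cases x with
    | nil =>
      rw [List.tail_nil, geoRec]
      field_simp
      ring
    | cons b x => rfl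
  refine ⟨fun x => ζ * geoRec ζ G x + G x,
    cl_monoK (.add _ _ _ _ _ (cl_smul hF ζ) (cl_monod hG (Nat.le_succ d))) ?_,
    fun x => h4 x (h5 x), fun x n => ?_⟩
  · have a : K ≤ K / lam := (le_div_iff₀ hlam0).2 (mul_le_of_le_one_right hK hlam)
    have b := mul_le_of_le_one_left (cl_nonneg hF) (hn.trans (sub_le_self _ hlam0.le))
    rw [mul_div_assoc]
    linarith
  · induction n with
    | zero => simp
    | succ n ih =>
      rw [sum_range_succ, ← List.tail_drop]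
      beta_reduce at ih ⊢
      rw [← h6, ih]
      ring

end Pool.Agent.Lib.MP_343fe0_pr.Up
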