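import Pool.Agent.Lib.MP_343fe0_pr.Up.UDefs

set_option autoImplicit false

/-! Arithmetic of the parameters. -/

namespace Pool.Agent.Lib.MP_343fe0_pr.Up

open Finset

theorem dd_le (i : ℕ) : dd i + 2 ≤ 3 ^ (i + 1) := by
  induction i with
  | zero => simp [dd]
  | succ i ih => rw [dd, pow_succ]; omega

theorem k0_le_kk (k0 i : ℕ) : k0 ≤ kk k0 i := by
  induction i with
  | zero => exact le_rfl
  | succ i ih => rw [kk]; nlinarith [Nat.le_self_pow two_ne_zero (kk k0 i)]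

theorem two_pow_le_kk (k0 i : ℕ) (hk : 2 ≤ k0) : 2 ^ 2 ^ i ≤ kk k0 i := by
  induction i with
  | zero => exact hk
  | succ i ih =>
    rw [kk, pow_succ, pow_mul]
    nlinarith [Nat.pow_le_pow_left ih 2]

/-- `11 k^2 ≤ 9 k^2 C8 b`. -/
theorem kk_le_Lam (k0 b0 i : ℕ) (hb : 1 ≤ b0) : kk k0 (i + 1) ≤ Lam k0 b0 (i + 1) := by
  have h : 11 ≤ 9 * (C8 * bb b0 i) := by
    have h1 : 1 ≤ bb b0 i := Nat.mul_pos hb (pow_pos (by decide) i)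
    have h2 : C8 * 1 ≤ C8 * bb b0 i := Nat.mul_le_mul_left _ h1
    have h3 : 2 ≤ C8 := by decide
    omega
  rw [kk, Lam, LL]
  nlinarith [Nat.mul_le_mul_left (kk k0 i ^ 2) h]

theorem bb_succ (b0 i : ℕ) : bb b0 (i + 1) = 2 * C8 * bb b0 i := by
  rw [bb, bb, pow_succ]
  ring

theorem bb_le (b0 i T : ℕ) (hi : i ≤ T) : bb b0 i * 3 ^ T ≤ b0 * GG T := by
  rw [bb, GG, show 6 * C8 = 2 * C8 * 3 by ring, mul_pow (2 * C8), ← mul_assoc]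
  exact Nat.mul_le_mul_right _ (Nat.mul_le_mul_left _ (Nat.pow_le_pow_right (by decide) hi))

theorem pow_le_GG (T : ℕ) : 5 ^ T ≤ GG T ∧ 3 ^ T ≤ GG T ∧ T ≤ GG T ∧ 1 ≤ GG T := by
  have h5 : 5 ^ T ≤ GG T := Nat.pow_le_pow_left (by decide) T
  exact ⟨h5, Nat.pow_le_pow_left (by decide) T, (Nat.lt_pow_self (by decide)).le.trans h5,
    pow_pos (show 0 < 6 * C8 by decide) T⟩

theorem Bf_eq (T ℓ : ℕ) : 32 * Bf T ℓ = k0f T * (C8 * b0f T ℓ) := by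
  rw [Bf, k0f]
  ring

theorem par_Bf (T ℓ : ℕ) (hℓ : 20 ≤ ℓ) : 400 * GG T ≤ Bf T ℓ := by
  have h1 : 0 < b0f T ℓ :=
    Nat.mul_pos (Nat.mul_pos two_pos (Nat.mul_pos (by decide) (pow_le_GG T).2.2.2)) (by omega)
  rw [Bf, mul_assoc 400]
  exact Nat.mul_le_mul_right _ (Nat.le_mul_of_pos_right _ (Nat.mul_pos (by decide) h1))

/-- All the side conditions of `step` at level `i < T` for `t = 3^i / (2 * 3^T)`. -/
theorem par_step (T ℓ i : ℕ) (hℓ : 20 ≤ ℓ) (hi : i < T) :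
    700 ≤ kk (k0f T) i ∧ (0 : ℝ) < 3 ^ i / (2 * 3 ^ T) ∧ (3 : ℝ) ^ i / (2 * 3 ^ T) ≤ 1 / 6 ∧
      (4 : ℝ) ≤ kk (k0f T) i * (3 ^ i / (2 * 3 ^ T)) ∧
      200 * (C8 * bb (b0f T ℓ) i : ℝ) ≤ Bf T ℓ * (3 ^ i / (2 * 3 ^ T)) ∧
      32 * Bf T ℓ ≤ kk (k0f T) i * (C8 * bb (b0f T ℓ) i) ∧
      (5 : ℝ) ^ i * Real.exp (-(Bf T ℓ : ℝ)) ≤ 1 / 2 := by
  obtain ⟨g5, g3, -, g1⟩ := pow_le_GG T
  have k1 : 12800 * GG T ≤ kk (k0f T) i := k0_le_kk _ i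
  have t0 : (0 : ℝ) < 3 ^ T := by positivity
  have t1 : (1 : ℝ) ≤ 3 ^ i := one_le_pow₀ (by norm_num)
  refine ⟨by omega, by positivity, ?_, ?_, ?_, ?_, ?_⟩
  · have : (3 : ℝ) ^ (i + 1) ≤ 3 ^ T := pow_le_pow_right₀ (by norm_num) hi
    rw [div_le_div_iff₀ (by positivity) (by norm_num)]
    rw [pow_succ] at this
    linarith
  · have : ((8 * 3 ^ T : ℕ) : ℝ) ≤ kk (k0f T) i := Nat.cast_le.2 (by omega)
    rw [← mul_div_assoc, le_div_iff₀ (by positivity)]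
    push_cast at this
    nlinarith
  · have : ((C8 * (bb (b0f T ℓ) i * 3 ^ T) : ℕ) : ℝ) ≤ (C8 * (b0f T ℓ * GG T) : ℕ) :=
      Nat.cast_le.2 (Nat.mul_le_mul_left _ (bb_le _ i T hi.le))
    have h0 : (0 : ℝ) ≤ (C8 : ℝ) * (b0f T ℓ * GG T) := by positivity
    rw [← mul_div_assoc, le_div_iff₀ (by positivity), Bf]
    push_cast at this ⊢
    nlinarith
  · rw [Bf_eq]
    exact Nat.mul_le_mul (k0_le_kk _ i) (Nat.mul_le_mul_left _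
      (Nat.le_mul_of_pos_right _ (pow_pos (by decide) i)))
  · have h1 : ((2 * 5 ^ i : ℕ) : ℝ) ≤ Bf T ℓ := Nat.cast_le.2 (by
      have := Nat.pow_le_pow_right (show 0 < 5 by decide) hi.le
      have := par_Bf T ℓ hℓ
      omega)
    have h2 := Real.add_one_le_exp (Bf T ℓ : ℝ)
    rw [Real.exp_neg, ← div_eq_mul_inv, div_le_div_iff₀ (Real.exp_pos _) two_pos]
    push_cast at h1
    linarith

/-- `log 2 + 5 (d+1) log 3 ≤ 1 + 6 * 3^(i+1) ≤ B`. -/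
theorem par_cost (T ℓ i : ℕ) (hℓ : 20 ≤ ℓ) (hi : i < T) :
    2 * 3 ^ (5 * (dd i + 1)) * Real.exp ((3 ^ (i + 1) - 2) * (Bf T ℓ : ℝ)) ^ 3 *
        Real.exp (3 * (Bf T ℓ : ℝ)) ≤ Real.exp ((3 ^ (i + 2) - 2) * (Bf T ℓ : ℝ)) := by
  obtain ⟨-, g3, -, g1⟩ := pow_le_GG T
  have h1 : ((1 + 2 * (5 * (dd i + 1)) : ℕ) : ℝ) ≤ Bf T ℓ := Nat.cast_le.2 (by
    have := Nat.pow_le_pow_right (show 0 < 3 by decide) (Nat.succ_le_of_lt hi)
    have := par_Bf T ℓ hℓ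
    have := dd_le i
    simp only [Nat.succ_eq_add_one] at *
    omega)
  have h2 : (2 : ℝ) * 3 ^ (5 * (dd i + 1)) ≤ Real.exp (Bf T ℓ) := by
    refine le_trans ?_ (Real.exp_le_exp.2 h1)
    rw [Nat.cast_add, Real.exp_add, Nat.cast_mul, mul_comm ((2 : ℕ) : ℝ), Real.exp_nat_mul]
    refine mul_le_mul ?_ (pow_le_pow_left₀ (by norm_num) ?_ _) (by positivity) (by positivity)
    · linarith [Real.add_one_le_exp ((1 : ℕ) : ℝ), Nat.cast_one (R := ℝ)]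
    · linarith [Real.add_one_le_exp ((2 : ℕ) : ℝ), Nat.cast_two (R := ℝ)]
  refine (mul_le_mul_of_nonneg_right (mul_le_mul_of_nonneg_right h2 (by positivity))
    (by positivity)).trans (le_of_eq ?_)
  rw [← Real.exp_nat_mul, ← Real.exp_add, ← Real.exp_add]
  congr 1
  push_cast
  ring

end Pool.Agent.Lib.MP_343fe0_pr.Up
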