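import Pool.Agent.Lib.MP_343fe0_pr.Up.Step
import Pool.Agent.Lib.MP_343fe0_pr.Up.Base0
import Pool.Agent.Lib.MP_343fe0_pr.Up.Par

set_option autoImplicit false

/-! Iterating the step. -/

namespace Pool.Agent.Lib.MP_343fe0_pr.Up

open Finset

/-- Induction on `i`.  Base: `base0` (`b0f = 2 k0 ℓ`, `2 ≤ exp B`, `IH_mono`).  Step: the suffixes
`drop (9 L)` have equal lengths, agree below `Lam i` and differ at `Lam i` (`List.getD` of a drop);
`step`, `par_step`, `par_cost`, `4 * 5^i + 1 ≤ 5^(i+1)`, `IH_mono`. -/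
theorem iter (T ℓ : ℕ) (hℓ : 20 ≤ ℓ) (i : ℕ) (hi : i ≤ T)
    (hsize : ∀ j < i, 100 * (LL (k0f T) (b0f T ℓ) j : ℝ) ≤ Real.exp ℓ) (x y : List Bool)
    (hlen : x.length = y.length)
    (hag : ∀ j < Lam (k0f T) (b0f T ℓ) i, x.getD j false = y.getD j false)
    (hne : x.getD (Lam (k0f T) (b0f T ℓ) i) false ≠ y.getD (Lam (k0f T) (b0f T ℓ) i) false) :
    IH ℓ (Lam (k0f T) (b0f T ℓ) i) (kk (k0f T) i) (bb (b0f T ℓ) i) (3 ^ i / (2 * 3 ^ T)) (dd i)
      (Real.exp ((3 ^ (i + 1) - 2) * (Bf T ℓ : ℝ))) (5 ^ i * Real.exp (-(Bf T ℓ : ℝ))) x y := by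
  have hB : (1 : ℝ) ≤ Bf T ℓ := Nat.one_le_cast.2 (by
    have := par_Bf T ℓ hℓ
    have := (pow_le_GG T).2.2.2
    omega)
  have l20 : (20 : ℝ) ≤ ℓ := by exact_mod_cast hℓ
  induction i generalizing x y with
  | zero =>
    refine IH_mono (base0 (k0f T) _ x y hlen hne (Nat.mul_pos (by decide) (pow_le_GG T).2.2.2)
      (by linarith) (by simp [bb, b0f])) le_rfl le_rfl ?_ (by positivity)
    refine le_trans ?_ (Real.add_one_le_exp _)
    norm_num
    linarith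
  | succ i ih =>
    obtain ⟨p1, p2, p3, p4, p5, p6, p7⟩ := par_step T ℓ i hℓ hi
    have hd : ∀ (z : List Bool) (j : ℕ), (z.drop (9 * LL (k0f T) (b0f T ℓ) i)).getD j false =
        z.getD (j + 9 * LL (k0f T) (b0f T ℓ) i) false := fun z j => by
      rw [List.getD_eq_getElem?_getD, List.getD_eq_getElem?_getD, List.getElem?_drop, add_comm]
    have h1 := ih (Nat.le_of_succ_le hi) (fun j hj => hsize j (Nat.lt_succ_of_lt hj))
      (x.drop (9 * LL (k0f T) (b0f T ℓ) i)) (y.drop (9 * LL (k0f T) (b0f T ℓ) i))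
      (by rw [List.length_drop, List.length_drop, hlen])
      (fun j hj => by rw [hd, hd]; exact hag _ (Nat.add_lt_add_right hj _))
      (by rw [hd, hd]; exact hne)
    have h2 : (2 : ℝ) ≤ 3 ^ (i + 1) := by
      rw [pow_succ]
      linarith [one_le_pow₀ (n := i) (show (1 : ℝ) ≤ 3 by norm_num)]
    have h3 := step _ _ _ _ _ _ x y rfl hlen hag l20 (hsize i i.lt_succ_self) p1 p2 p3 p4 p5 p6
      (Real.one_le_exp (mul_nonneg (by linarith) (by linarith))) p7 h1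
    rw [bb_succ]
    refine IH_mono h3 (le_of_eq (by ring)) le_rfl (par_cost T ℓ i hℓ hi) ?_
    have h4 := mul_le_mul_of_nonneg_right (one_le_pow₀ (n := i) (show (1 : ℝ) ≤ 5 by norm_num))
      (Real.exp_pos (-(Bf T ℓ : ℝ))).le
    rw [pow_succ]
    linarith

end Pool.Agent.Lib.MP_343fe0_pr.Up
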