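import Pool.Agent.Lib.MP_343fe0_pr.Up.UDefs

set_option autoImplicit false

/-! Coefficients of the smoothed plateau. -/

namespace Pool.Agent.Lib.MP_343fe0_pr.Up

open Finset

/-! Write `P = (C (1/k) * ∑_{i<k} X^i) ^ b`: nonnegative coefficients, degree at most `b (k-1)`,
coefficients summing to `P.eval 1 = 1`.  Then `ker o a k b s = ∑_{i<a} P.coeff (s - o - i)` over the
`i` with `o + i ≤ s` (`Polynomial.coeff_X_pow_mul'`). -/

noncomputable def kerP (k b : ℕ) : Polynomial ℝ :=
  (Polynomial.C (1 / (k : ℝ)) * ∑ i ∈ range k, Polynomial.X ^ i) ^ b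

lemma kerP_nonneg (k b n : ℕ) : 0 ≤ (kerP k b).coeff n := by
  unfold kerP
  induction b generalizing n with
  | zero => rw [pow_zero, Polynomial.coeff_one]; split_ifs <;> norm_num
  | succ b ih =>
    rw [pow_succ, Polynomial.coeff_mul]
    refine sum_nonneg fun p _ => mul_nonneg (ih _) ?_
    rw [Polynomial.coeff_C_mul, Polynomial.finsetSum_coeff]
    refine mul_nonneg (by positivity) (sum_nonneg fun i _ => ?_)
    rw [Polynomial.coeff_X_pow]; split_ifs <;> norm_num

lemma kerP_deg (k b : ℕ) : (kerP k b).natDegree ≤ b * k := by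
  refine Polynomial.natDegree_pow_le.trans (Nat.mul_le_mul_left _ ?_)
  refine (Polynomial.natDegree_C_mul_le _ _).trans ?_
  exact Polynomial.natDegree_sum_le_of_forall_le _ _ fun i hi => by
    rw [Polynomial.natDegree_X_pow]; exact (mem_range.1 hi).le

lemma kerP_sum (k b n : ℕ) (hk : 1 ≤ k) (hn : b * k < n) : ∑ i ∈ range n, (kerP k b).coeff i = 1 := by
  have h := Polynomial.eval_eq_sum_range' ((kerP_deg k b).trans_lt hn) (1 : ℝ)
  simp only [one_pow, mul_one] at h
  have hk0 : (k : ℝ) ≠ 0 := by positivity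
  rw [← h, kerP]
  simp [Polynomial.eval_finsetSum, hk0]

lemma ker_eq (o a k b s : ℕ) :
    ker o a k b s = ∑ i ∈ range a, if o + i ≤ s then (kerP k b).coeff (s - (o + i)) else 0 := by
  unfold ker Qp
  rw [mul_sum, sum_mul, Polynomial.finsetSum_coeff]
  refine sum_congr rfl fun i _ => ?_
  rw [← pow_add, Polynomial.coeff_X_pow_mul']; rfl

lemma ker_full (o a k b s : ℕ) (h1 : o ≤ s) (h2 : s < o + a) :
    ker o a k b s = ∑ n ∈ range (s - o + 1), (kerP k b).coeff n := by
  rw [ker_eq, ← sum_range_reflect (fun n => (kerP k b).coeff n),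
    ← sum_subset (range_subset_range.2 (show s - o + 1 ≤ a by omega))]
  · refine sum_congr rfl fun i hi => ?_
    have := mem_range.1 hi
    rw [if_pos (by omega)]; congr 1; omega
  · intro i _ hi
    rw [mem_range] at hi
    exact if_neg (by omega)

theorem ker_nonneg (o a k b s : ℕ) : 0 ≤ ker o a k b s := by
  rw [ker_eq]
  refine sum_nonneg fun i _ => ?_
  split_ifs
  exacts [kerP_nonneg _ _ _, le_rfl]

theorem ker_le_one (o a k b s : ℕ) (hk : 1 ≤ k) : ker o a k b s ≤ 1 := by
  rcases lt_or_ge s o with h | h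
  · rw [ker_eq, sum_eq_zero fun i _ => if_neg (by omega)]; norm_num
  have h1 : ker o a k b s ≤ ker o (a + s + 1) k b s := by
    rw [ker_eq, ker_eq]
    refine sum_le_sum_of_subset_of_nonneg (range_subset_range.2 (by omega)) fun i _ _ => ?_
    split_ifs
    exacts [kerP_nonneg _ _ _, le_rfl]
  rw [ker_full o (a + s + 1) k b s h (by omega)] at h1
  refine h1.trans ?_
  rw [← kerP_sum k b (s - o + 1 + b * k) hk (by omega)]
  exact sum_le_sum_of_subset_of_nonneg (range_subset_range.2 (by omega)) fun i _ _ => kerP_nonneg _ _ _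

theorem ker_eq_zero_of_lt (o a k b s : ℕ) (hs : s < o) : ker o a k b s = 0 := by
  rw [ker_eq, sum_eq_zero fun i _ => if_neg (by omega)]

theorem ker_eq_zero_of_ge (o a k b s : ℕ) (hs : o + a + b * k ≤ s) : ker o a k b s = 0 := by
  rw [ker_eq]
  refine sum_eq_zero fun i hi => ?_
  have := mem_range.1 hi
  rw [if_pos (by omega)]
  exact Polynomial.coeff_eq_zero_of_natDegree_lt ((kerP_deg k b).trans_lt (by omega))

theorem ker_eq_one (o a k b s : ℕ) (hk : 1 ≤ k) (h1 : o + b * k ≤ s) (h2 : s < o + a) :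
    ker o a k b s = 1 := by
  rw [ker_full o a k b s (by omega) h2, kerP_sum k b _ hk (by omega)]

theorem ker_sum (o a k b D : ℕ) (hk : 1 ≤ k) (hD : o + a + b * k ≤ D) :
    ∑ s ∈ range D, ker o a k b s = a := by
  have hdeg : (Qp o a k b).natDegree < D + 1 :=
    Nat.lt_succ_of_le (Polynomial.natDegree_le_iff_coeff_eq_zero.2 fun n hn =>
      ker_eq_zero_of_ge o a k b n (by omega))
  have h := Polynomial.eval_eq_sum_range' hdeg (1 : ℝ)
  have h0 : (Qp o a k b).coeff D = 0 := ker_eq_zero_of_ge o a k b D hD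
  simp only [one_pow, mul_one, sum_range_succ, h0, add_zero] at h
  have hk0 : (k : ℝ) ≠ 0 := by positivity
  unfold ker
  rw [← h, Qp]
  simp [Polynomial.eval_finsetSum, hk0]

end Pool.Agent.Lib.MP_343fe0_pr.Up
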