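import Pool.Agent.Lib.MP_343fe0_pr.Up.UDefs

set_option autoImplicit false

/-! A common virtual starting point for three sums. -/

namespace Pool.Agent.Lib.MP_343fe0_pr.Up

open Finset

lemma unity_shift (L j : ℕ) (χ V : ℕ → ℂ) (hV : ∀ n, n < 8 * L ∨ 11 * L ≤ n → V n = 0)
    (hχ : ∀ s, L ≤ s → s < 8 * L → χ s = 1) (h1 : 3 * L ≤ j) (h2 : j < 7 * L) :
    ∑ s ∈ range (9 * L), χ s * V (j + s) = ∑ n ∈ range (11 * L), V n := by
  have e1 : ∑ s ∈ range (9 * L), χ s * V (j + s) = ∑ s ∈ range (9 * L), V (j + s) := by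
    refine sum_congr rfl fun s _ => ?_
    by_cases h : j + s < 8 * L ∨ 11 * L ≤ j + s
    · rw [hV _ h, mul_zero]
    · rw [hχ s (by omega) (by omega), one_mul]
  have e2 : ∑ n ∈ range (j + 9 * L), V n = ∑ s ∈ range (9 * L), V (j + s) := by
    rw [sum_range_add, sum_eq_zero fun n hn => hV n (Or.inl (by have := mem_range.1 hn; omega)), zero_add]
  rw [e1, ← e2]
  exact (sum_subset (range_subset_range.2 (by omega)) fun n _ hn =>
    hV n (Or.inr (by rw [mem_range] at hn; omega))).symm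

/-- For each `j`: if `j ∉ [3L, 7L)` the first factor vanishes termwise; if `j ∈ [3L, 7L)` the second
and third factors equal the full sums (`n = j + s`, `n ∈ [8L, 11L)` gives `s ∈ (L, 8L)`).  So the
summand is (first factor) times the two full sums, and summing the first factor over `j < J`
(swap the sums; for `s ≤ 5 L` the inner sum over `j` is the full sum) gives the full sum. -/
theorem unity (L J : ℕ) (hJ : 11 * L ≤ J) (χ1 χ V1 V2 V3 : ℕ → ℂ)
    (hV1 : ∀ n, n < 8 * L ∨ 11 * L ≤ n → V1 n = 0) (hV2 : ∀ n, n < 8 * L ∨ 11 * L ≤ n → V2 n = 0)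
    (hV3 : ∀ n, n < 8 * L ∨ 11 * L ≤ n → V3 n = 0)
    (hχ1 : ∀ s, s < 4 * L ∨ 5 * L < s → χ1 s = 0) (hm : ∑ s ∈ range (9 * L), χ1 s = 1)
    (hχ : ∀ s, L ≤ s → s < 8 * L → χ s = 1) :
    (∑ n ∈ range (11 * L), V1 n) * (∑ n ∈ range (11 * L), V2 n) * (∑ n ∈ range (11 * L), V3 n) =
      ∑ j ∈ range J, (∑ s ∈ range (9 * L), χ1 s * V1 (j + s)) *
        (∑ s ∈ range (9 * L), χ s * V2 (j + s)) * (∑ s ∈ range (9 * L), χ s * V3 (j + s)) := by
  have e1 : ∀ j ∈ range J, (∑ s ∈ range (9 * L), χ1 s * V1 (j + s)) *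
      (∑ s ∈ range (9 * L), χ s * V2 (j + s)) * (∑ s ∈ range (9 * L), χ s * V3 (j + s)) =
      (∑ s ∈ range (9 * L), χ1 s * V1 (j + s)) * (∑ n ∈ range (11 * L), V2 n) *
        (∑ n ∈ range (11 * L), V3 n) := fun j _ => by
    by_cases h : 3 * L ≤ j ∧ j < 7 * L
    · rw [unity_shift L j χ V2 hV2 hχ h.1 h.2, unity_shift L j χ V3 hV3 hχ h.1 h.2]
    · have : ∑ s ∈ range (9 * L), χ1 s * V1 (j + s) = 0 := sum_eq_zero fun s _ => by
        by_cases h' : s < 4 * L ∨ 5 * L < s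
        · rw [hχ1 s h', zero_mul]
        · rw [hV1 _ (by omega), mul_zero]
      simp [this]
  rw [sum_congr rfl e1, ← sum_mul, ← sum_mul, sum_comm]
  congr 2
  have e2 : ∀ s ∈ range (9 * L), ∑ j ∈ range J, χ1 s * V1 (j + s) = χ1 s * ∑ n ∈ range (11 * L), V1 n :=
    fun s _ => by
      rw [← mul_sum]
      by_cases h' : s < 4 * L ∨ 5 * L < s
      · rw [hχ1 s h', zero_mul, zero_mul]
      · congr 1
        have e3 : ∑ n ∈ range (s + J), V1 n = ∑ j ∈ range J, V1 (j + s) := by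
          rw [sum_range_add, sum_eq_zero fun n hn => hV1 n (Or.inl (by have := mem_range.1 hn; omega)),
            zero_add]
          exact sum_congr rfl fun j _ => by rw [add_comm]
        rw [← e3]
        exact (sum_subset (range_subset_range.2 (by omega)) fun n _ hn =>
          hV1 n (Or.inr (by rw [mem_range] at hn; omega))).symm
  rw [sum_congr rfl e2, ← sum_mul, hm, one_mul]

end Pool.Agent.Lib.MP_343fe0_pr.Up
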