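import Pool.Agent.Lib.MP_343fe0_pr.Up.Pigeon
import Pool.Agent.Lib.MP_343fe0_pr.Up.Unity
import Pool.Agent.Lib.MP_343fe0_pr.Up.KerBand

set_option autoImplicit false

/-! The three-point discrepancy as one Laplace transform. -/

namespace Pool.Agent.Lib.MP_343fe0_pr.Up

open Finset

/-- Let `ρ = exp (-(1 / (33 k^2)))`, `w = ker (8L) (2L) (k^2) b2` (zero outside `[8L, 11L)` as
`b2 k^2 = L`), `χ1 = ker (4L) 1 (32k) B`, `χ = ker 0 (8L) (32k) B`.  `unity` with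
`V n = (w n * g n) * pol 1 θ ^ n` rewrites both triple products.  `ker_band` for `w` with
`N = J + 9 L + 1`, radius `ρ`, `β = 32 / k^2`: `C = 2 L exp (b2 / 3)` exactly, `ε = C (1/8)^b2 ≤
C exp (-2 b2)`.  `factor` six times, `norm_Av_le` with `M = 8 L`, then `pigeon` with `G = 22 k^2 ≤ 22 L`
(`ρ^3 = exp (-(1/(11 k^2)))`, `exp_neg_inv_le`, `geom_le_inv`):
`14 C^2 ε M^3 G ≤ 14 * 8 * 512 * 22 L^7 exp (-b2) ≤ (100 L)^7 exp (-b2) / 2 ≤ E / 2`.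
Take `ψi = θi + η mi`; `2 C^3 = 16 L^3 exp b2`; `pol_mul`. -/
theorem mix (g g' : ℕ → ℝ) (hg : ∀ n, |g n| ≤ 1) (hg' : ∀ n, |g' n| ≤ 1) (L k b2 B J : ℕ)
    (hk : 1 ≤ k) (hb2 : 1 ≤ b2) (hL : L = k ^ 2 * b2) (hB : B * (32 * k) ≤ L) (hJ : 11 * L ≤ J)
    (θ1 θ2 θ3 : ℝ) {E : ℝ} (hE0 : 0 < E) (hE1 : (100 * (L : ℝ)) ^ 7 * Real.exp (-(b2 : ℝ)) ≤ E)
    (hE : E ≤ ‖Sw (11 * L) (ker (8 * L) (2 * L) (k ^ 2) b2) g θ1 *
        Sw (11 * L) (ker (8 * L) (2 * L) (k ^ 2) b2) g θ2 *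
        Sw (11 * L) (ker (8 * L) (2 * L) (k ^ 2) b2) g θ3 -
      Sw (11 * L) (ker (8 * L) (2 * L) (k ^ 2) b2) g' θ1 *
        Sw (11 * L) (ker (8 * L) (2 * L) (k ^ 2) b2) g' θ2 *
        Sw (11 * L) (ker (8 * L) (2 * L) (k ^ 2) b2) g' θ3‖) :
    ∃ ψ1 ψ2 ψ3 : ℝ, |ψ1 - θ1| ≤ 32 / k ^ 2 ∧ |ψ2 - θ2| ≤ 32 / k ^ 2 ∧ |ψ3 - θ3| ≤ 32 / k ^ 2 ∧
      E / (16 * L ^ 3 * Real.exp b2) ≤
        ‖∑ j ∈ range J, pol (Real.exp (-(1 / (11 * k ^ 2)))) (ψ1 + ψ2 + ψ3) ^ j *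
          (Av (9 * L) (ker (4 * L) 1 (32 * k) B) (pol (Real.exp (-(1 / (33 * k ^ 2)))) ψ1) g j *
            Av (9 * L) (ker 0 (8 * L) (32 * k) B) (pol (Real.exp (-(1 / (33 * k ^ 2)))) ψ2) g j *
            Av (9 * L) (ker 0 (8 * L) (32 * k) B) (pol (Real.exp (-(1 / (33 * k ^ 2)))) ψ3) g j -
          Av (9 * L) (ker (4 * L) 1 (32 * k) B) (pol (Real.exp (-(1 / (33 * k ^ 2)))) ψ1) g' j *
            Av (9 * L) (ker 0 (8 * L) (32 * k) B) (pol (Real.exp (-(1 / (33 * k ^ 2)))) ψ2) g' j *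
            Av (9 * L) (ker 0 (8 * L) (32 * k) B) (pol (Real.exp (-(1 / (33 * k ^ 2)))) ψ3) g' j)‖ := by
  have κ1 : (1 : ℝ) ≤ (k : ℝ) ^ 2 := one_le_pow₀ (by exact_mod_cast hk)
  have b1 : (1 : ℝ) ≤ b2 := by exact_mod_cast hb2
  have eL : (L : ℝ) = k ^ 2 * b2 := by exact_mod_cast hL
  have hL' : b2 * k ^ 2 = L := by rw [hL, mul_comm]
  have L1 : 1 ≤ L := hL ▸ Nat.mul_pos (by positivity) hb2
  have k32 : 1 ≤ 32 * k := by omega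
  generalize hρ : Real.exp (-(1 / (33 * (k : ℝ) ^ 2))) = ρ
  have ρ0 : 0 < ρ := hρ ▸ Real.exp_pos _
  have ρ1 : ρ ≤ 1 := hρ ▸ Real.exp_le_one_iff.2 (neg_nonpos.2 (by positivity))
  have ρ3 : Real.exp (-(1 / (11 * (k : ℝ) ^ 2))) = ρ ^ 3 := by
    rw [← hρ, ← Real.exp_nat_mul]
    congr 1
    field_simp
    norm_num
  obtain ⟨c, η, h1, h2, h3⟩ := ker_band (8 * L) (2 * L) (k ^ 2) b2 (J + 9 * L + 1)
    (Nat.pow_pos hk) (by omega) ρ0 ρ1 (β := 32 / k ^ 2) (by positivity)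
  have eC : ((2 * L : ℕ) : ℝ) * ρ⁻¹ ^ (8 * L + 2 * L + b2 * k ^ 2) = 2 * L * Real.exp (b2 / 3) := by
    rw [← hρ, ← Real.exp_neg, ← Real.exp_nat_mul, hL']
    push_cast
    rw [eL]
    congr 2
    field_simp
    norm_num
  rw [eC] at h2 h3
  rw [show 4 / (((k ^ 2 : ℕ) : ℝ) * (32 / k ^ 2)) = 1 / 8 by push_cast; field_simp; norm_num] at h3
  have e3 : (2 * L * Real.exp (b2 / 3)) ^ 3 = 8 * L ^ 3 * Real.exp b2 := by
    rw [mul_pow, ← Real.exp_nat_mul, mul_pow]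
    norm_num [mul_div_cancel₀]
  have C0 : 0 ≤ 2 * L * Real.exp (b2 / 3) := by positivity
  generalize 2 * L * Real.exp (b2 / 3) = C at h2 h3 e3 C0
  have s1 : ∑ s ∈ range (9 * L), ker (4 * L) 1 (32 * k) B s = 1 := by
    rw [ker_sum _ _ _ _ _ k32 (by omega), Nat.cast_one]
  have m1 : ∑ s ∈ range (9 * L), ker (4 * L) 1 (32 * k) B s ≤ 8 * L := by
    rw [s1]
    exact_mod_cast (by omega : 1 ≤ 8 * L)
  have m2 : ∑ s ∈ range (9 * L), ker 0 (8 * L) (32 * k) B s ≤ 8 * L := by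
    rw [ker_sum _ _ _ _ _ k32 (by omega)]
    norm_num
  have nz (θ : ℝ) : ‖pol ρ θ‖ ≤ ρ := by rw [norm_pol, abs_of_pos ρ0]
  have V (f : ℕ → ℝ) (θ : ℝ) (n : ℕ) (hn : n < 8 * L ∨ 11 * L ≤ n) :
      ((ker (8 * L) (2 * L) (k ^ 2) b2 n * f n : ℝ) : ℂ) * pol 1 θ ^ n = 0 := by
    rw [hn.elim (ker_eq_zero_of_lt _ _ _ _ _) fun h => ker_eq_zero_of_ge _ _ _ _ _ (by omega)]
    simp
  have U (f : ℕ → ℝ) := unity L J hJ (fun s => ker (4 * L) 1 (32 * k) B s)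
    (fun s => ker 0 (8 * L) (32 * k) B s) _ _ _ (V f θ1) (V f θ2) (V f θ3)
    (fun s hs => by
      rw [hs.elim (ker_eq_zero_of_lt _ _ _ _ _) fun h => ker_eq_zero_of_ge _ _ _ _ _ (by omega),
        Complex.ofReal_zero])
    (by exact_mod_cast s1) fun s a b => by
      rw [ker_eq_one _ _ _ _ _ k32 (by omega) (by omega), Complex.ofReal_one]
  simp only [Sw] at hE
  rw [U g, U g'] at hE
  have ε0 : 0 ≤ C * (1 / 8) ^ b2 := by positivity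
  have A (f : ℕ → ℝ) (hf : ∀ n, |f n| ≤ 1) (m : Fin (J + 9 * L + 1)) (j : ℕ) := And.intro
    (norm_Av_le _ _ f _ j (ker_nonneg _ _ _ _) m1 ((nz (θ1 + η m)).trans ρ1) hf) (And.intro
      (norm_Av_le _ _ f _ j (ker_nonneg _ _ _ _) m2 ((nz (θ2 + η m)).trans ρ1) hf)
      (norm_Av_le _ _ f _ j (ker_nonneg _ _ _ _) m2 ((nz (θ3 + η m)).trans ρ1) hf))
  have F (f : ℕ → ℝ) (hf : ∀ n, |f n| ≤ 1) (j : ℕ) (hj : j < J) :=
    have t : j + 9 * L ≤ J + 9 * L + 1 := by omega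
    And.intro (factor _ _ j t _ _ f θ1 c η ρ0.le ρ1 ε0 (ker_nonneg _ _ _ _) m1 hf h3) (And.intro
      (factor _ _ j t _ _ f θ2 c η ρ0.le ρ1 ε0 (ker_nonneg _ _ _ _) m2 hf h3)
      (factor _ _ j t _ _ f θ3 c η ρ0.le ρ1 ε0 (ker_nonneg _ _ _ _) m2 hf h3))
  obtain ⟨a1, a2, a3, h⟩ := pigeon J c _ _ _ _ _ _ _ _ _ _ _ _ _ _ _ ρ0.le ε0
    (mul_le_of_le_one_right C0 (pow_le_one₀ (by norm_num) (by norm_num))) (by positivity) hE0 h2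
    (fun m => ⟨nz _, nz _, nz _⟩) (A g hg) (A g' hg') (F g hg) (F g' hg')
    (geom_le_inv (by positivity) (by positivity)
      (ρ3 ▸ exp_neg_inv_le (k := 11 * k ^ 2) (by linarith)) J) (by
      have a : 14 * C ^ 2 * (C * (1 / 8) ^ b2) * (8 * L) ^ 3 * (1 / (1 / (2 * (11 * k ^ 2)))) =
          1261568 * L ^ 6 * (k ^ 2 * (Real.exp b2 * (1 / 8) ^ b2)) := by
        rw [one_div_one_div]
        linear_combination 14 * (1 / 8) ^ b2 * (8 * (L : ℝ)) ^ 3 * (22 * k ^ 2) * e3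
      have b : Real.exp b2 * (1 / 8) ^ b2 ≤ Real.exp (-(b2 : ℝ)) := by
        refine (mul_le_mul_of_nonneg_left (eighth_pow_le b2) (Real.exp_pos _).le).trans_eq ?_
        rw [← Real.exp_add]
        congr 1
        ring
      have d := mul_le_mul (show (k : ℝ) ^ 2 ≤ L by nlinarith) b (by positivity) (Nat.cast_nonneg _)
      have e : (0 : ℝ) ≤ L ^ 7 * Real.exp (-(b2 : ℝ)) := by positivity
      rw [a]
      nlinarith [mul_le_mul_of_nonneg_left d (by positivity : (0 : ℝ) ≤ L ^ 6)]) hE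
  refine ⟨θ1 + η a1, θ2 + η a2, θ3 + η a3, by simpa using h1 a1, by simpa using h1 a2,
    by simpa using h1 a3, ?_⟩
  rwa [pol_mul, pol_mul, e3, ← mul_assoc, ← mul_assoc, show (2 : ℝ) * 8 = 16 by norm_num,
    show ρ * ρ * ρ = ρ ^ 3 by ring, ← ρ3] at h

end Pool.Agent.Lib.MP_343fe0_pr.Up
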