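import Pool.Agent.Lib.MP_343fe0_pr.Up.ClMul

set_option autoImplicit false

/-! The new real statistic. -/

namespace Pool.Agent.Lib.MP_343fe0_pr.Up

open Finset

theorem newstat_prod {a1 a2 a3 g1 g2 g3 : ℂ} {M e : ℝ} (heM : e ≤ M) (h1 : ‖g1 - a1‖ ≤ e)
    (h2 : ‖g2 - a2‖ ≤ e) (h3 : ‖g3 - a3‖ ≤ e) (b1 : ‖a1‖ ≤ M) (b2 : ‖a2‖ ≤ M) (b3 : ‖a3‖ ≤ M) :
    ‖g1 * g2 * g3 - a1 * a2 * a3‖ ≤ 7 * M ^ 2 * e := by
  have k : ∀ {g a : ℂ}, ‖g - a‖ ≤ e → ‖a‖ ≤ M → ‖g‖ ≤ 2 * M := fun {g a} h b => by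
    linarith [norm_le_norm_add_norm_sub' g a]
  have e0 := (norm_nonneg _).trans h1
  have M0 := (norm_nonneg _).trans b1
  have c2 := k h2 b2
  have c3 := k h3 b3
  have E : g1 * g2 * g3 - a1 * a2 * a3 =
      (g1 - a1) * g2 * g3 + a1 * (g2 - a2) * g3 + a1 * a2 * (g3 - a3) := by ring
  rw [E]
  refine norm_add₃_le.trans ?_
  simp only [norm_mul]
  calc _ ≤ e * (2 * M) * (2 * M) + M * e * (2 * M) + M * M * e := by gcongr
    _ = _ := by ring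

theorem newstat {t : ℝ} (ht0 : 0 ≤ t) (ht : t ≤ 1 / 2) {d : ℕ} {K e M : ℝ}
    {A1 A2 A3 : List Bool → ℂ} (h1 : Apx t d K e A1) (h2 : Apx t d K e A2) (h3 : Apx t d K e A3)
    (hM : 1 ≤ M) (heM : e ≤ M) (hA : ∀ x, ‖A1 x‖ ≤ M ∧ ‖A2 x‖ ≤ M ∧ ‖A3 x‖ ≤ M)
    (u : ℂ) (hu : ‖u‖ ≤ 1) :
    (∀ x, 1 / 3 ≤ (2 + (u * (A1 x * A2 x * A3 x)).re / M ^ 3) / 3 ∧
      (2 + (u * (A1 x * A2 x * A3 x)).re / M ^ 3) / 3 ≤ 1) ∧
    Apx (3 * t) (3 * d) (1 + 3 ^ (5 * d) * K ^ 3) (4 * e / M)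
      (fun x => (((2 + (u * (A1 x * A2 x * A3 x)).re / M ^ 3) / 3 : ℝ) : ℂ)) := by
  have M0 : 0 < M := one_pos.trans_le hM
  have M3 : 0 < M ^ 3 := by positivity
  have hre : ∀ z : ℂ, |(u * z).re| ≤ ‖z‖ := fun z => (Complex.abs_re_le_norm _).trans
    ((norm_mul _ _).trans_le (mul_le_of_le_one_left (norm_nonneg _) hu))
  refine ⟨fun x => ?_, ?_⟩
  · obtain ⟨b1, b2, b3⟩ := hA x
    have a : ‖A1 x * A2 x * A3 x‖ ≤ M ^ 3 := by
      rw [norm_mul, norm_mul]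
      calc _ ≤ M * M * M := by gcongr
        _ = _ := by ring
    have b : |(u * (A1 x * A2 x * A3 x)).re / M ^ 3| ≤ 1 := by
      rw [abs_div, abs_of_pos M3, div_le_one M3]
      exact (hre _).trans a
    constructor <;> linarith [abs_le.1 b]
  have e0 := (apx_nonneg h1).2
  obtain ⟨G1, c1, a1⟩ := h1
  obtain ⟨G2, c2, a2⟩ := h2
  obtain ⟨G3, c3, a3⟩ := h3
  have p := cl_mul (add_nonneg ht0 ht0) (by linarith) ht0 (by linarith)
    (cl_mul ht0 (by linarith) ht0 (by linarith) c1 c2) c3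
  have n : ‖((1 / (3 * M ^ 3) : ℝ) : ℂ)‖ ≤ 1 := by
    rw [Complex.norm_of_nonneg (by positivity), div_le_one (by positivity)]
    linarith [one_le_pow₀ (n := 3) hM]
  have q := Cl.add _ _ _ _ _ (Cl.const _ 1 ((2 / 3 : ℝ) : ℂ) (by
    rw [Complex.norm_of_nonneg] <;> norm_num)) (clmul_one (cl_re (clmul_one p hu)) n)
  refine ⟨_, clb_congr (cl_monod (cl_monot q (by linarith)) (by omega)) ?_ fun _ => rfl,
    fun x => ?_⟩
  · rw [show 5 * d = d + d + d + (d + d) by omega, pow_add _ (d + d + d)]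
    ring
  obtain ⟨b1, b2, b3⟩ := hA x
  have a := (hre _).trans (newstat_prod heM (a1 x) (a2 x) (a3 x) b1 b2 b3)
  rw [mul_sub, Complex.sub_re] at a
  beta_reduce
  rw [← Complex.ofReal_mul, ← Complex.ofReal_add, ← Complex.ofReal_sub, Complex.norm_real,
    Real.norm_eq_abs]
  generalize (u * (G1 x * G2 x * G3 x)).re = r at a ⊢
  generalize (u * (A1 x * A2 x * A3 x)).re = s at a ⊢
  rw [show 2 / 3 + 1 / (3 * M ^ 3) * r - (2 + s / M ^ 3) / 3 = (r - s) / (3 * M ^ 3) by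
    field_simp; ring, abs_div, abs_of_pos (by positivity : 0 < 3 * M ^ 3),
    div_le_div_iff₀ (by positivity) M0]
  linarith [mul_le_mul_of_nonneg_right a M0.le, mul_nonneg e0 M3.le]

theorem pick (J : ℕ) (z P Q : ℕ → ℂ) :
    ∃ u : ℂ, ‖u‖ ≤ 1 ∧ ‖∑ j ∈ range J, z j * (P j - Q j)‖ / 2 ≤
      ‖∑ j ∈ range J, (((u * P j).re - (u * Q j).re : ℝ) : ℂ) * z j‖ := by
  have e : ∑ j ∈ range J, z j * (P j - Q j) =
      ∑ j ∈ range J, (((1 * P j).re - (1 * Q j).re : ℝ) : ℂ) * z j + Complex.I *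
        ∑ j ∈ range J, (((-Complex.I * P j).re - (-Complex.I * Q j).re : ℝ) : ℂ) * z j := by
    rw [mul_sum, ← sum_add_distrib]
    refine sum_congr rfl fun j _ => ?_
    rw [← Complex.re_add_im (P j - Q j)]
    simp
    ring
  by_contra h
  push Not at h
  have h1 := h 1 norm_one.le
  have h2 := h (-Complex.I) (by simp)
  have h3 := (congrArg norm e).trans_le (norm_add_le _ _)
  rw [norm_mul, Complex.norm_I, one_mul] at h3
  linarith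

end Pool.Agent.Lib.MP_343fe0_pr.Up
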