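import Pool.Agent.Lib.MP_343fe0_pr.Up.RegL

set_option autoImplicit false

/-! Expanding the window and selecting one frequency triple. -/

namespace Pool.Agent.Lib.MP_343fe0_pr.Up

open Finset

theorem norm_Av_le (D : ℕ) (χ g : ℕ → ℝ) (z : ℂ) (j : ℕ) {M : ℝ} (hχ : ∀ s, 0 ≤ χ s)
    (hM : ∑ s ∈ range D, χ s ≤ M) (hz : ‖z‖ ≤ 1) (hg : ∀ n, |g n| ≤ 1) : ‖Av D χ z g j‖ ≤ M := by
  refine (norm_sum_le _ _).trans ((sum_le_sum fun s _ => ?_).trans hM)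
  rw [norm_mul, norm_mul, norm_pow, Complex.norm_real, Complex.norm_real, Real.norm_eq_abs, Real.norm_eq_abs,
    abs_of_nonneg (hχ s), mul_assoc]
  exact mul_le_of_le_one_right (hχ s) (mul_le_one₀ (pow_le_one₀ (norm_nonneg _) hz) (abs_nonneg _) (hg _))

/-- Insert the expansion of `w (j + s)`: `pol ρ (η m) ^ (j+s) * pol 1 θ ^ (j+s) = pol ρ (θ + η m) ^ j *
pol ρ (θ + η m) ^ s`; the remainder is at most `∑ χ s * ε ρ ^ (j+s) ≤ ε M ρ ^ j`. -/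
theorem factor (D Nd j : ℕ) (hj : j + D ≤ Nd) (χ w g : ℕ → ℝ) (θ : ℝ) {ι : Type} [Fintype ι]
    (c : ι → ℂ) (η : ι → ℝ) {ρ ε M : ℝ} (hρ0 : 0 ≤ ρ) (hρ : ρ ≤ 1) (hε : 0 ≤ ε)
    (hχ : ∀ s, 0 ≤ χ s) (hM : ∑ s ∈ range D, χ s ≤ M) (hg : ∀ n, |g n| ≤ 1)
    (hw : ∀ n < Nd, ‖(w n : ℂ) - ∑ m, c m * pol ρ (η m) ^ n‖ ≤ ε * ρ ^ n) :
    ‖∑ s ∈ range D, (χ s : ℂ) * (((w (j + s) * g (j + s) : ℝ) : ℂ) * pol 1 θ ^ (j + s)) -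
      ∑ m, c m * pol ρ (θ + η m) ^ j * Av D χ (pol ρ (θ + η m)) g j‖ ≤ ε * M * ρ ^ j := by
  have e1 : ∑ m, c m * pol ρ (θ + η m) ^ j * Av D χ (pol ρ (θ + η m)) g j =
      ∑ s ∈ range D, (χ s : ℂ) * ((∑ m, c m * pol ρ (η m) ^ (j + s)) * (g (j + s) : ℂ) * pol 1 θ ^ (j + s)) := by
    simp only [Av, mul_sum, sum_mul]
    rw [sum_comm]
    refine sum_congr rfl fun s _ => sum_congr rfl fun m _ => ?_
    have : pol ρ (θ + η m) = pol ρ (η m) * pol 1 θ := by rw [pol_mul, mul_one, add_comm]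
    rw [this]; ring
  rw [e1, ← sum_sub_distrib]
  refine (norm_sum_le _ _).trans ((sum_le_sum (g := fun s => χ s * (ε * ρ ^ j)) fun s hs => ?_).trans ?_)
  · have e2 : (χ s : ℂ) * (((w (j + s) * g (j + s) : ℝ) : ℂ) * pol 1 θ ^ (j + s)) -
        (χ s : ℂ) * ((∑ m, c m * pol ρ (η m) ^ (j + s)) * (g (j + s) : ℂ) * pol 1 θ ^ (j + s)) =
        (χ s : ℂ) * (((w (j + s) : ℂ) - ∑ m, c m * pol ρ (η m) ^ (j + s)) * (g (j + s) : ℂ) *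
          pol 1 θ ^ (j + s)) := by push_cast; ring
    rw [e2, norm_mul, norm_mul, norm_mul, norm_pow, norm_pol, abs_one, one_pow, mul_one, Complex.norm_real,
      Complex.norm_real, Real.norm_eq_abs, Real.norm_eq_abs, abs_of_nonneg (hχ s)]
    refine mul_le_mul_of_nonneg_left ?_ (hχ s)
    refine (mul_le_of_le_one_right (norm_nonneg _) (hg _)).trans
      ((hw _ (by have := mem_range.1 hs; omega)).trans ?_)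
    exact mul_le_mul_of_nonneg_left (pow_le_pow_of_le_one hρ0 hρ (by omega)) hε
  · rw [← sum_mul]
    calc (∑ s ∈ range D, χ s) * (ε * ρ ^ j) ≤ M * (ε * ρ ^ j) :=
          mul_le_mul_of_nonneg_right hM (by positivity)
      _ = _ := by ring

lemma pigeon_three (P1 P2 P3 p1 p2 p3 : ℂ) {u e : ℝ} (he : e ≤ u) (h1 : ‖p1‖ ≤ u) (h2 : ‖p2‖ ≤ u)
    (h3 : ‖p3‖ ≤ u) (d1 : ‖P1 - p1‖ ≤ e) (d2 : ‖P2 - p2‖ ≤ e) (d3 : ‖P3 - p3‖ ≤ e) :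
    ‖P1 * P2 * P3 - p1 * p2 * p3‖ ≤ 7 * u ^ 2 * e := by
  have u0 : 0 ≤ u := (norm_nonneg _).trans h1
  have e0 : 0 ≤ e := (norm_nonneg _).trans d1
  have a2 : ‖P2‖ ≤ 2 * u := by linarith [norm_le_norm_add_norm_sub' P2 p2]
  have a3 : ‖P3‖ ≤ 2 * u := by linarith [norm_le_norm_add_norm_sub' P3 p3]
  have e1 : P1 * P2 * P3 - p1 * p2 * p3 = (P1 - p1) * P2 * P3 + p1 * (P2 - p2) * P3 + p1 * p2 * (P3 - p3) := by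
    ring
  rw [e1]
  refine (norm_add₃_le).trans ?_
  simp only [norm_mul]
  have b1 : ‖P1 - p1‖ * ‖P2‖ * ‖P3‖ ≤ e * (2 * u) * (2 * u) := by gcongr
  have b2 : ‖p1‖ * ‖P2 - p2‖ * ‖P3‖ ≤ u * e * (2 * u) := by gcongr
  have b3 : ‖p1‖ * ‖p2‖ * ‖P3 - p3‖ ≤ u * u * e := by gcongr
  linarith

lemma pigeon_main {ι : Type} [Fintype ι] (c z a : ι → ℂ) {ρ C M : ℝ} (hρ0 : 0 ≤ ρ) (hM : 0 ≤ M)
    (hC : ∑ m, ‖c m‖ ≤ C) (hz : ∀ m, ‖z m‖ ≤ ρ) (ha : ∀ m, ‖a m‖ ≤ M) (j : ℕ) :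
    ‖∑ m, c m * z m ^ j * a m‖ ≤ C * M * ρ ^ j := by
  refine (norm_sum_le _ _).trans ((sum_le_sum (g := fun m => ‖c m‖ * (M * ρ ^ j)) fun m _ => ?_).trans ?_)
  · rw [norm_mul, norm_mul, norm_pow, mul_assoc, mul_comm M]
    refine mul_le_mul_of_nonneg_left ?_ (norm_nonneg _)
    exact mul_le_mul (pow_le_pow_left₀ (norm_nonneg _) (hz m) j) (ha m) (norm_nonneg _) (by positivity)
  · rw [← sum_mul, mul_assoc]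
    exact mul_le_mul_of_nonneg_right hC (by positivity)

lemma pigeon_err (J : ℕ) {ι : Type} [Fintype ι] (c : ι → ℂ) (z1 z2 z3 : ι → ℂ)
    (P1 P2 P3 : ℕ → ℂ) (a1 a2 a3 : ι → ℕ → ℂ) {ρ ε C M G : ℝ}
    (hρ0 : 0 ≤ ρ) (hε0 : 0 ≤ ε) (hεC : ε ≤ C) (hM : 0 ≤ M) (hC : ∑ m, ‖c m‖ ≤ C)
    (hz : ∀ m, ‖z1 m‖ ≤ ρ ∧ ‖z2 m‖ ≤ ρ ∧ ‖z3 m‖ ≤ ρ)
    (ha : ∀ m j, ‖a1 m j‖ ≤ M ∧ ‖a2 m j‖ ≤ M ∧ ‖a3 m j‖ ≤ M)
    (hP : ∀ j < J, ‖P1 j - ∑ m, c m * z1 m ^ j * a1 m j‖ ≤ ε * M * ρ ^ j ∧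
      ‖P2 j - ∑ m, c m * z2 m ^ j * a2 m j‖ ≤ ε * M * ρ ^ j ∧
      ‖P3 j - ∑ m, c m * z3 m ^ j * a3 m j‖ ≤ ε * M * ρ ^ j)
    (hG : ∑ j ∈ range J, (ρ ^ 3) ^ j ≤ G) :
    ‖∑ j ∈ range J, P1 j * P2 j * P3 j - ∑ q : ι × ι × ι, c q.1 * c q.2.1 * c q.2.2 *
      ∑ j ∈ range J, (z1 q.1 * z2 q.2.1 * z3 q.2.2) ^ j * (a1 q.1 j * a2 q.2.1 j * a3 q.2.2 j)‖ ≤
      7 * C ^ 2 * ε * M ^ 3 * G := by
  have e1 : ∑ q : ι × ι × ι, c q.1 * c q.2.1 * c q.2.2 *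
      ∑ j ∈ range J, (z1 q.1 * z2 q.2.1 * z3 q.2.2) ^ j * (a1 q.1 j * a2 q.2.1 j * a3 q.2.2 j) =
      ∑ j ∈ range J, (∑ m, c m * z1 m ^ j * a1 m j) * (∑ m, c m * z2 m ^ j * a2 m j) *
        (∑ m, c m * z3 m ^ j * a3 m j) := by
    simp only [mul_sum (range J)]
    rw [sum_comm]
    refine sum_congr rfl fun j _ => ?_
    rw [mul_assoc, sum_mul_sum, ← Fintype.sum_prod_type', sum_mul_sum, ← Fintype.sum_prod_type']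
    exact sum_congr rfl fun q _ => by ring
  rw [e1, ← sum_sub_distrib]
  refine (norm_sum_le _ _).trans ((sum_le_sum (g := fun j => 7 * C ^ 2 * ε * M ^ 3 * (ρ ^ 3) ^ j)
    fun j hj => ?_).trans ?_)
  · obtain ⟨d1, d2, d3⟩ := hP j (mem_range.1 hj)
    refine (pigeon_three _ _ _ _ _ _ (by gcongr)
      (pigeon_main c z1 (a1 · j) hρ0 hM hC (fun m => (hz m).1) (fun m => (ha m j).1) j)
      (pigeon_main c z2 (a2 · j) hρ0 hM hC (fun m => (hz m).2.1) (fun m => (ha m j).2.1) j)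
      (pigeon_main c z3 (a3 · j) hρ0 hM hC (fun m => (hz m).2.2) (fun m => (ha m j).2.2) j) d1 d2 d3).trans
      (le_of_eq (by ring))
  · rw [← mul_sum]
    exact mul_le_mul_of_nonneg_left hG (by positivity)

/-- Each main part has norm at most `C M ρ^j`, each full factor at most `2 C M ρ^j`; the product of
the full factors differs from the product of the main parts by at most `7 C^2 ε M^3 ρ^(3j)`, for both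
families; the products of the main parts expand as a triple sum over `m1 m2 m3` with weights
`c m1 c m2 c m3` of total norm at most `C^3`.  If every triple were below the bound the left side
of `hE` would be below `E / 2 + E / 2` (treat `C = 0` or an empty index type: then all main parts
vanish and `ε = 0`). -/
theorem pigeon (J : ℕ) {ι : Type} [Fintype ι] (c : ι → ℂ) (z1 z2 z3 : ι → ℂ)
    (P1 P2 P3 Q1 Q2 Q3 : ℕ → ℂ) (a1 a2 a3 b1 b2 b3 : ι → ℕ → ℂ) {ρ ε C M E G : ℝ}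
    (hρ0 : 0 ≤ ρ) (hε0 : 0 ≤ ε) (hεC : ε ≤ C) (hM : 0 ≤ M) (hE0 : 0 < E) (hC : ∑ m, ‖c m‖ ≤ C)
    (hz : ∀ m, ‖z1 m‖ ≤ ρ ∧ ‖z2 m‖ ≤ ρ ∧ ‖z3 m‖ ≤ ρ)
    (ha : ∀ m j, ‖a1 m j‖ ≤ M ∧ ‖a2 m j‖ ≤ M ∧ ‖a3 m j‖ ≤ M)
    (hb : ∀ m j, ‖b1 m j‖ ≤ M ∧ ‖b2 m j‖ ≤ M ∧ ‖b3 m j‖ ≤ M)
    (hP : ∀ j < J, ‖P1 j - ∑ m, c m * z1 m ^ j * a1 m j‖ ≤ ε * M * ρ ^ j ∧
      ‖P2 j - ∑ m, c m * z2 m ^ j * a2 m j‖ ≤ ε * M * ρ ^ j ∧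
      ‖P3 j - ∑ m, c m * z3 m ^ j * a3 m j‖ ≤ ε * M * ρ ^ j)
    (hQ : ∀ j < J, ‖Q1 j - ∑ m, c m * z1 m ^ j * b1 m j‖ ≤ ε * M * ρ ^ j ∧
      ‖Q2 j - ∑ m, c m * z2 m ^ j * b2 m j‖ ≤ ε * M * ρ ^ j ∧
      ‖Q3 j - ∑ m, c m * z3 m ^ j * b3 m j‖ ≤ ε * M * ρ ^ j)
    (hG : ∑ j ∈ range J, (ρ ^ 3) ^ j ≤ G) (herr : 14 * C ^ 2 * ε * M ^ 3 * G ≤ E / 2)
    (hE : E ≤ ‖∑ j ∈ range J, P1 j * P2 j * P3 j - ∑ j ∈ range J, Q1 j * Q2 j * Q3 j‖) :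
    ∃ m1 m2 m3 : ι, E / (2 * C ^ 3) ≤
      ‖∑ j ∈ range J, (z1 m1 * z2 m2 * z3 m3) ^ j *
        (a1 m1 j * a2 m2 j * a3 m3 j - b1 m1 j * b2 m2 j * b3 m3 j)‖ := by
  have h1 := pigeon_err J c z1 z2 z3 P1 P2 P3 a1 a2 a3 hρ0 hε0 hεC hM hC hz ha hP hG
  have h2 := pigeon_err J c z1 z2 z3 Q1 Q2 Q3 b1 b2 b3 hρ0 hε0 hεC hM hC hz hb hQ hG
  obtain ⟨T, hT⟩ : ∃ T : ι × ι × ι → ℂ, T = fun q => ∑ j ∈ range J, (z1 q.1 * z2 q.2.1 * z3 q.2.2) ^ j *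
    (a1 q.1 j * a2 q.2.1 j * a3 q.2.2 j - b1 q.1 j * b2 q.2.1 j * b3 q.2.2 j) := ⟨_, rfl⟩
  have h3 : E / 2 ≤ ‖∑ q : ι × ι × ι, c q.1 * c q.2.1 * c q.2.2 * T q‖ := by
    simp only [hT, mul_sub, sum_sub_distrib]
    set A := ∑ j ∈ range J, P1 j * P2 j * P3 j
    set B := ∑ j ∈ range J, Q1 j * Q2 j * Q3 j
    set A' := ∑ q : ι × ι × ι, c q.1 * c q.2.1 * c q.2.2 *
      ∑ j ∈ range J, (z1 q.1 * z2 q.2.1 * z3 q.2.2) ^ j * (a1 q.1 j * a2 q.2.1 j * a3 q.2.2 j)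
    set B' := ∑ q : ι × ι × ι, c q.1 * c q.2.1 * c q.2.2 *
      ∑ j ∈ range J, (z1 q.1 * z2 q.2.1 * z3 q.2.2) ^ j * (b1 q.1 j * b2 q.2.1 j * b3 q.2.2 j)
    have e1 : A - B = (A - A') + (A' - B') + -(B - B') := by ring
    have := norm_add₃_le (a := A - A') (b := A' - B') (c := -(B - B'))
    rw [← e1, norm_neg] at this
    linarith
  have h4 : E / 2 ≤ ∑ q : ι × ι × ι, ‖c q.1‖ * ‖c q.2.1‖ * ‖c q.2.2‖ * ‖T q‖ := by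
    refine h3.trans ((norm_sum_le _ _).trans (le_of_eq ?_))
    simp only [norm_mul]
  have h5 : ∑ q : ι × ι × ι, ‖c q.1‖ * ‖c q.2.1‖ * ‖c q.2.2‖ ≤ C ^ 3 := by
    have : ∑ q : ι × ι × ι, ‖c q.1‖ * ‖c q.2.1‖ * ‖c q.2.2‖ = (∑ m, ‖c m‖) ^ 3 := by
      rw [pow_three, sum_mul_sum, ← Fintype.sum_prod_type', sum_mul_sum, ← Fintype.sum_prod_type']
      exact sum_congr rfl fun q _ => by ring
    rw [this]
    exact pow_le_pow_left₀ (sum_nonneg fun _ _ => norm_nonneg _) hC 3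
  by_contra hcon
  have h6 : ∀ q, ‖T q‖ < E / (2 * C ^ 3) := fun q => by
    rw [hT]; exact not_le.1 fun h => hcon ⟨q.1, q.2.1, q.2.2, h⟩
  obtain ⟨q0, -, hq0⟩ := exists_lt_of_sum_lt (s := univ) (f := fun _ : ι × ι × ι => (0 : ℝ))
    (g := fun q => ‖c q.1‖ * ‖c q.2.1‖ * ‖c q.2.2‖ * ‖T q‖) (by rw [sum_const_zero]; linarith)
  have h7 : 0 < ‖c q0.1‖ * ‖c q0.2.1‖ * ‖c q0.2.2‖ := (pos_iff_pos_of_mul_pos hq0).2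
    (lt_of_le_of_ne (norm_nonneg _) fun h => by rw [← h, mul_zero] at hq0; exact lt_irrefl _ hq0)
  have h8 : 0 < C ^ 3 := h7.trans_le ((single_le_sum (f := fun q : ι × ι × ι =>
    ‖c q.1‖ * ‖c q.2.1‖ * ‖c q.2.2‖) (fun _ _ => by positivity) (mem_univ q0)).trans h5)
  have h9 := sum_lt_sum (s := univ) (f := fun q : ι × ι × ι => ‖c q.1‖ * ‖c q.2.1‖ * ‖c q.2.2‖ * ‖T q‖)
    (g := fun q => ‖c q.1‖ * ‖c q.2.1‖ * ‖c q.2.2‖ * (E / (2 * C ^ 3)))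
    (fun q _ => mul_le_mul_of_nonneg_left (h6 q).le (by positivity))
    ⟨q0, mem_univ _, mul_lt_mul_of_pos_left (h6 q0) h7⟩
  rw [← sum_mul] at h9
  have h10 := mul_le_mul_of_nonneg_right h5 (show 0 ≤ E / (2 * C ^ 3) by positivity)
  have h11 : C ^ 3 * (E / (2 * C ^ 3)) = E / 2 := by
    rw [mul_div_assoc', mul_comm, mul_div_mul_right _ _ h8.ne']
  linarith

end Pool.Agent.Lib.MP_343fe0_pr.Up
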