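import Pool.Agent.Lib.MP_343fe0_pr.Up.Chern
import Pool.Agent.Lib.MP_343fe0_pr.Defs

set_option autoImplicit false

/-! Pairwise tests give a reconstruction rule. -/

namespace Pool.Agent.Lib.MP_343fe0_pr.Up

open Finset

/-- Choose `Ψ z y` for `z ≠ y`, `μ z f = (∑ s, f (trace z s)) / 2^n`.  Call `z` good for the data `w`
if `m (μ z (Ψ z y) - δ/2) < ∑ i, Ψ z y (w i)` for all `y ≠ z`; `R w` is a good `z` if there is one
(`Classical.epsilon` or `if h : ∃ .. then h.choose`).  For the true `x`, outside the `2 * 2^n` events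
`m δ/2 ≤ ∑ i, (μ x (Ψ x y) - Ψ x y (trace x (s i)))` and `m δ/2 ≤ ∑ i, (Ψ z x (trace x (s i)) - μ x (Ψ z x))`
the string `x` is good and no `z ≠ x` is (test it against `y = x`, `μ x (Ψ z x) + δ ≤ μ z (Ψ z x)`).
`chern` bounds each event by `2^(n m) exp (-(m δ^2/64))`, and
`2 * 2^n * exp (-(n + 4)) ≤ 1 / 10`. -/
theorem sample (n m : ℕ) {δ : ℝ} (hδ0 : 0 < δ) (hδ : δ ≤ 1)
    (h : ∀ x y : Fin n → Bool, x ≠ y → ∃ Ψ : List Bool → ℝ, (∀ w, |Ψ w| ≤ 1) ∧
      δ * 2 ^ n ≤ ∑ s : Fin n → Bool, Ψ (trace x s) - ∑ s : Fin n → Bool, Ψ (trace y s))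
    (hm : 100 * ((n : ℝ) + 4) ≤ m * δ ^ 2) : Reconstructible n m := by
  classical
  choose! Ψ h1 h2 using h
  have p2 : (0 : ℝ) < 2 ^ n := by positivity
  let μ (z : Fin n → Bool) (f : List Bool → ℝ) : ℝ := (∑ s, f (trace z s)) / 2 ^ n
  let G (w : Fin m → List Bool) (z : Fin n → Bool) : Prop :=
    ∀ y, z ≠ y → m * (μ z (Ψ z y) - δ / 2) < ∑ i, Ψ z y (w i)
  refine ⟨fun w => Classical.epsilon (G w), fun x => ?_⟩
  let B (f : List Bool → ℝ) := univ.filter fun s : Fin m → Fin n → Bool =>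
    m * δ / 2 ≤ ∑ i, (f (trace x (s i)) - μ x f)
  have key (f : List Bool → ℝ) (hf : ∀ w, |f w| ≤ 1) :
      ((B f).card : ℝ) ≤ 2 ^ (n * m) * Real.exp (-((n : ℝ) + 4)) := by
    have c : (Fintype.card (Fin n → Bool) : ℝ) = 2 ^ n := by simp
    have a : |μ x f| ≤ 1 := by
      rw [abs_div, abs_of_pos p2, div_le_one p2, ← c]
      simpa using (abs_sum_le_sum_abs _ _).trans
        (sum_le_card_nsmul univ (fun s => |f (trace x s)|) 1 fun s _ => hf _)
    refine (chern (fun s => f (trace x s) - μ x f) (fun s => (abs_sub _ _).trans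
      (by linarith [hf (trace x s)])) ?_ hδ0 hδ m).trans ?_
    · rw [sum_sub_distrib, sum_const, card_univ, nsmul_eq_mul, c, mul_div_cancel₀ _ p2.ne', sub_self]
    · rw [c, ← pow_mul]
      exact mul_le_mul_of_nonneg_left (Real.exp_le_exp.2 (by linarith [Nat.cast_nonneg (α := ℝ) n]))
        (by positivity)
  have sub : (univ.filter fun s : Fin m → Fin n → Bool =>
      ¬Classical.epsilon (G fun i => trace x (s i)) = x) ⊆
      (univ.erase x).biUnion fun y => B (fun w => -Ψ x y w) ∪ B (Ψ y x) := fun s hs => by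
    by_contra hn
    simp only [mem_biUnion, mem_erase, mem_union, B, mem_filter, mem_univ, true_and, and_true,
      not_exists, not_and, not_or, not_le, sum_sub_distrib, sum_const, card_univ, Fintype.card_fin,
      nsmul_eq_mul, μ, sum_neg_distrib, neg_div] at hn
    have gx : G (fun i => trace x (s i)) x := fun y hy => by
      have := (hn y hy.symm).1
      simp only [μ]
      linarith
    have hz := (mem_filter.1 hs).2
    have a := Classical.epsilon_spec (⟨x, gx⟩ : ∃ z, G _ z) x hz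
    have b := (hn _ hz).2
    have c := h2 _ _ hz
    rw [← le_div_iff₀ p2, sub_div] at c
    simp only [μ] at a
    nlinarith [mul_le_mul_of_nonneg_left c (Nat.cast_nonneg (α := ℝ) m)]
  have c1 : (((univ.erase x).biUnion fun y => B (fun w => -Ψ x y w) ∪ B (Ψ y x)).card : ℝ) ≤
      2 ^ n * (2 * (2 ^ (n * m) * Real.exp (-((n : ℝ) + 4)))) := by
    refine (Nat.cast_le.2 card_biUnion_le).trans ?_
    rw [Nat.cast_sum]
    refine (sum_le_card_nsmul _ _ (2 * (2 ^ (n * m) * Real.exp (-((n : ℝ) + 4))))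
      fun y hy => ?_).trans ?_
    · have hy := (mem_erase.1 hy).1
      refine (Nat.cast_le.2 (card_union_le _ _)).trans ?_
      rw [Nat.cast_add, two_mul]
      exact add_le_add (key (fun w => -Ψ x y w) fun w => (abs_neg _).trans_le (h1 _ _ hy.symm w))
        (key (Ψ y x) (h1 _ _ hy))
    · rw [nsmul_eq_mul]
      refine mul_le_mul_of_nonneg_right ?_ (by positivity)
      exact (Nat.cast_le.2 (card_le_univ _)).trans (by simp)
  have c2 : (2 : ℝ) ^ n * (2 * Real.exp (-((n : ℝ) + 4))) ≤ 1 / 10 := by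
    have a : (2 : ℝ) ^ n ≤ Real.exp n := by
      rw [← Real.exp_one_pow]
      exact pow_le_pow_left₀ zero_le_two (by linarith [Real.add_one_le_exp (1 : ℝ)]) n
    have b : (20 : ℝ) ≤ Real.exp 4 := by
      have := Real.sum_le_exp_of_nonneg (x := 4) (by norm_num) 4
      norm_num [sum_range_succ, Nat.factorial] at this
      linarith
    rw [Real.exp_neg, Real.exp_add, ← mul_assoc, ← div_eq_mul_inv, div_le_iff₀ (by positivity)]
    nlinarith [Real.exp_pos (n : ℝ)]
  have c3 := card_filter_add_card_filter_not (s := univ) fun s : Fin m → Fin n → Bool =>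
    Classical.epsilon (G fun i => trace x (s i)) = x
  have c4 := (Nat.cast_le.2 (card_le_card sub)).trans c1
  have c5 := congrArg (Nat.cast (R := ℝ)) c3
  rw [Nat.cast_add, card_univ, show (Fintype.card (Fin m → Fin n → Bool) : ℝ) = 2 ^ (n * m) by
    simp [pow_mul]] at c5
  have : (0 : ℝ) < 2 ^ (n * m) := by positivity
  nlinarith

end Pool.Agent.Lib.MP_343fe0_pr.Up
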