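import Pool.Agent.Lib.MP_343fe0_pr.Up.Few
import Pool.Agent.Lib.MP_343fe0_pr.Up.Bisp
import Pool.Agent.Lib.MP_343fe0_pr.Up.KerBand

set_option autoImplicit false

/-! From the Laplace transform to a three-point discrepancy. -/

namespace Pool.Agent.Lib.MP_343fe0_pr.Up

open Finset

/-- Truncation: with `h s = g (9L+s) - g' (9L+s)` and `H s = w (9L+s) * h s`, the sums
`∑_{s<m} h s z^s` and `∑_{s<2L} H s z^s` agree termwise for `s < L`, both extend by zero terms to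
`s < m + 2L`, and the remaining terms are at most `exp (-x0) ^ s`, in total at most
`exp (-x0 L) * 2 k ≤ 2 k exp (-2 b) ≤ exp (-b) / 2` (`exp_neg_inv_le`, `geom_le_inv`,
`4 k ≤ exp ℓ ≤ exp b`). -/
theorem trunc (g g' w : ℕ → ℝ) (L k m : ℕ) {b ℓ x0 θ0 : ℝ}
    (hg : ∀ j, 1 / 3 ≤ g j ∧ g j ≤ 1) (hg' : ∀ j, 1 / 3 ≤ g' j ∧ g' j ≤ 1)
    (hend : ∀ s, m ≤ s → g (9 * L + s) = g' (9 * L + s))
    (hw : ∀ j, 0 ≤ w j ∧ w j ≤ 1) (hw0 : ∀ j, 11 * L ≤ j → w j = 0)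
    (hw1 : ∀ j, 9 * L ≤ j → j < 10 * L → w j = 1)
    (hk : 1 ≤ k) (hkL : k ≤ L) (hℓ : 20 ≤ ℓ) (hsize : 100 * (L : ℝ) ≤ Real.exp ℓ)
    (hbL : 2 * k * b ≤ L) (hx0 : 1 / (k : ℝ) ≤ x0) (hb : k * x0 * ℓ ≤ b)
    (hδ : Real.exp (-(b / (k * x0))) ≤
      ‖∑ s ∈ range m, ((g (9 * L + s) - g' (9 * L + s) : ℝ) : ℂ) * pol (Real.exp (-x0)) θ0 ^ s‖) :
    Real.exp (-(b / (k * x0))) / 2 ≤
      ‖∑ s ∈ range (2 * L), ((w (9 * L + s) * (g (9 * L + s) - g' (9 * L + s)) : ℝ) : ℂ) *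
        pol (Real.exp (-x0)) θ0 ^ s‖ := by
  have hk1 : (1 : ℝ) ≤ k := by exact_mod_cast hk
  have hkL' : (k : ℝ) ≤ L := by exact_mod_cast hkL
  have hk0 : (0 : ℝ) < k := by linarith
  have hkx : 1 ≤ k * x0 := by rwa [div_le_iff₀' hk0] at hx0
  have hlb : ℓ ≤ b := le_trans (by nlinarith) hb
  have hb0 : 0 ≤ b := by linarith
  have hqb : b / (k * x0) ≤ b := div_le_self hb0 hkx
  set z := pol (Real.exp (-x0)) θ0 with hz
  set r := Real.exp (-x0) with hr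
  have r0 : 0 < r := Real.exp_pos _
  have nz : ‖z‖ = r := by rw [hz, norm_pol, abs_of_pos r0]
  have r1 : r ≤ 1 - 1 / (2 * k) :=
    (Real.exp_le_exp.2 (neg_le_neg hx0)).trans (exp_neg_inv_le hk1)
  have e1 : ∑ s ∈ range m, ((g (9 * L + s) - g' (9 * L + s) : ℝ) : ℂ) * z ^ s =
      ∑ s ∈ range (L + (L + m)), ((g (9 * L + s) - g' (9 * L + s) : ℝ) : ℂ) * z ^ s :=
    sum_subset (range_mono (by omega)) fun s _ hs => by
      rw [hend s (not_lt.1 fun h => hs (mem_range.2 h)), sub_self]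
      simp
  have e2 : ∑ s ∈ range (2 * L), ((w (9 * L + s) * (g (9 * L + s) - g' (9 * L + s)) : ℝ) : ℂ) * z ^ s =
      ∑ s ∈ range (L + (L + m)),
        ((w (9 * L + s) * (g (9 * L + s) - g' (9 * L + s)) : ℝ) : ℂ) * z ^ s :=
    sum_subset (range_mono (by omega)) fun s _ hs => by
      have : 2 * L ≤ s := not_lt.1 fun h => hs (mem_range.2 h)
      rw [hw0 _ (by omega), zero_mul]
      simp
  rw [e1] at hδ
  rw [e2]
  have e3 : ‖∑ s ∈ range (L + (L + m)), ((g (9 * L + s) - g' (9 * L + s) : ℝ) : ℂ) * z ^ s -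
      ∑ s ∈ range (L + (L + m)),
        ((w (9 * L + s) * (g (9 * L + s) - g' (9 * L + s)) : ℝ) : ℂ) * z ^ s‖ ≤
      r ^ L * (1 / (1 / (2 * k))) := by
    rw [← sum_sub_distrib, sum_range_add, sum_eq_zero fun s hs => by
      have := mem_range.1 hs
      rw [hw1 _ (by omega) (by omega), one_mul, sub_self], zero_add]
    refine (norm_sum_le _ _).trans (le_trans ?_
      (mul_le_mul_of_nonneg_left (geom_le_inv r0.le (by positivity) r1 (L + m)) (by positivity)))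
    rw [mul_sum]
    refine sum_le_sum fun s _ => ?_
    rw [← sub_mul, norm_mul, norm_pow, nz, ← pow_add, ← Complex.ofReal_sub, Complex.norm_real,
      Real.norm_eq_abs]
    refine mul_le_of_le_one_left (by positivity) ?_
    obtain ⟨a1, a2⟩ := hg (9 * L + (L + s))
    obtain ⟨a3, a4⟩ := hg' (9 * L + (L + s))
    obtain ⟨a5, a6⟩ := hw (9 * L + (L + s))
    rw [abs_le]
    constructor <;> nlinarith
  have e4 : r ^ L * (1 / (1 / (2 * k))) ≤ Real.exp (-b) / 2 := by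
    have a1 : r ^ L ≤ Real.exp (-b) * Real.exp (-b) := by
      rw [hr, ← Real.exp_nat_mul, ← Real.exp_add, Real.exp_le_exp]
      have : 2 * k * b * x0 ≤ L * x0 := mul_le_mul_of_nonneg_right hbL (by nlinarith)
      nlinarith
    have a2 : 4 * k * Real.exp (-b) ≤ 1 := by
      rw [Real.exp_neg, ← div_eq_mul_inv, div_le_one (Real.exp_pos _)]
      linarith [Real.exp_le_exp.2 hlb]
    rw [one_div_one_div]
    have := Real.exp_pos (-b)
    nlinarith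
  have e5 := Real.exp_le_exp.2 (neg_le_neg hqb)
  have e6 := norm_sub_norm_le
    (∑ s ∈ range (L + (L + m)), ((g (9 * L + s) - g' (9 * L + s) : ℝ) : ℂ) * z ^ s)
    (∑ s ∈ range (L + (L + m)),
      ((w (9 * L + s) * (g (9 * L + s) - g' (9 * L + s)) : ℝ) : ℂ) * z ^ s)
  linarith

theorem spec_norm {g w : ℕ → ℝ} (hg : ∀ j, 1 / 3 ≤ g j ∧ g j ≤ 1) (hw : ∀ j, 0 ≤ w j ∧ w j ≤ 1)
    (D : ℕ) (θ : ℝ) : ‖Sw D w g θ‖ ≤ ∑ j ∈ range D, w j := by
  refine (norm_sum_le _ _).trans (sum_le_sum fun j _ => ?_)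
  rw [norm_mul, norm_pow, norm_pol, abs_one, one_pow, mul_one, Complex.norm_real, Real.norm_eq_abs,
    abs_of_nonneg (mul_nonneg (hw j).1 (by linarith [(hg j).1]))]
  exact mul_le_of_le_one_right (hw j).1 (hg j).2

theorem spec_conj (D : ℕ) (w g : ℕ → ℝ) (θ : ℝ) :
    (starRingEnd ℂ) (Sw D w g θ) = Sw D w g (-θ) := by
  simp only [Sw, map_sum, map_mul, map_pow, pol_conj, Complex.conj_ofReal]

theorem spec_zero {g w : ℕ → ℝ} {L : ℕ} (hg : ∀ j, 1 / 3 ≤ g j ∧ g j ≤ 1)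
    (hw : ∀ j, 0 ≤ w j ∧ w j ≤ 1) (hw1 : ∀ j, 9 * L ≤ j → j < 10 * L → w j = 1) (hL : 3 ≤ L) :
    1 ≤ (Sw (11 * L) w g 0).re := by
  have e : Sw (11 * L) w g 0 = ((∑ j ∈ range (11 * L), w j * g j : ℝ) : ℂ) := by
    simp [Sw, pol_zero]
  rw [e, Complex.ofReal_re]
  refine le_trans ?_ (sum_le_sum_of_subset_of_nonneg (s := Ico (9 * L) (9 * L + 3))
    (fun j hj => mem_range.2 (by have := mem_Ico.1 hj; omega))
    fun j _ _ => mul_nonneg (hw j).1 (by linarith [(hg j).1]))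
  refine le_trans (by simp) (card_nsmul_le_sum _ _ (1 / 3) fun j hj => ?_)
  have := mem_Ico.1 hj
  rw [hw1 j this.1 (by omega), one_mul]
  exact (hg j).1

/-- `trunc`, `few`, then `bisp` for `S i = Sw (11L) w g (i / (k N))`, `T i` the same with `g'`,
`M = 2 L`, `η = exp (-(5600000003 b))`: `S i - T i = pol 1 θ ^ (9L) * ∑_{s<2L} H s * pol 1 θ ^ s`
(`Finset.sum_range_add`, the first `9 L` terms vanish), `re (S 0) ≥ L / 3 ≥ 1`.
Finally `η^4 / (8000 L^3 N) ≥ η^5 exp (-4 b) exp (-3 b)` and `1 / (k N) ≤ 1 / (11 L)`. -/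
theorem spec (g g' w : ℕ → ℝ) (L k m : ℕ) {b ℓ x0 θ0 : ℝ}
    (hg : ∀ j, 1 / 3 ≤ g j ∧ g j ≤ 1) (hg' : ∀ j, 1 / 3 ≤ g' j ∧ g' j ≤ 1)
    (heq : ∀ j, j < 9 * L → g j = g' j) (hend : ∀ s, m ≤ s → g (9 * L + s) = g' (9 * L + s))
    (hw : ∀ j, 0 ≤ w j ∧ w j ≤ 1) (hw0 : ∀ j, 11 * L ≤ j → w j = 0)
    (hw1 : ∀ j, 9 * L ≤ j → j < 10 * L → w j = 1) (hwm : ∑ j ∈ range (11 * L), w j ≤ 2 * L)
    (hk : 1 ≤ k) (hkL : k ≤ L) (hL : 3 ≤ L) (hℓ : 20 ≤ ℓ) (hsize : 100 * (L : ℝ) ≤ Real.exp ℓ)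
    (hbL : 2 * k * b ≤ L) (hx0 : 1 / (k : ℝ) ≤ x0) (hθ : |θ0| ≤ 1100 * x0) (hb : k * x0 * ℓ ≤ b)
    (hδ : Real.exp (-(b / (k * x0))) ≤
      ‖∑ s ∈ range m, ((g (9 * L + s) - g' (9 * L + s) : ℝ) : ℂ) * pol (Real.exp (-x0)) θ0 ^ s‖) :
    ∃ θ1 θ2 θ3 : ℝ, |θ1| ≤ 1 / k ∧ |θ2| ≤ 1 / k ∧ |θ3| ≤ 1 / k ∧ |θ1 + θ2 + θ3| ≤ 1 / (11 * L) ∧
      Real.exp (-(29000000000 * b)) ≤
        ‖Sw (11 * L) w g θ1 * Sw (11 * L) w g θ2 * Sw (11 * L) w g θ3 -
          Sw (11 * L) w g' θ1 * Sw (11 * L) w g' θ2 * Sw (11 * L) w g' θ3‖ := by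
  classical
  have hk1 : (1 : ℝ) ≤ k := by exact_mod_cast hk
  have hL3 : (3 : ℝ) ≤ L := by exact_mod_cast hL
  have hk0 : (0 : ℝ) < k := by linarith
  have hkx : 1 ≤ k * x0 := by rwa [div_le_iff₀' hk0] at hx0
  have hlb : ℓ ≤ b := le_trans (by nlinarith) hb
  have ht := trunc g g' w L k m hg hg' hend hw hw0 hw1 hk hkL hℓ hsize hbL hx0 hb hδ
  obtain ⟨N, hN1, hN2, hN3⟩ := few (fun s => w (9 * L + s) * (g (9 * L + s) - g' (9 * L + s)))
    (fun s => by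
      obtain ⟨a1, a2⟩ := hg (9 * L + s)
      obtain ⟨a3, a4⟩ := hg' (9 * L + s)
      obtain ⟨a5, a6⟩ := hw (9 * L + s)
      rw [abs_le]
      constructor <;> nlinarith) L k (by omega) hk hℓ hsize hx0 hθ hb ht
  set η := Real.exp (-(5600000003 * b)) with hη
  have η0 : 0 < η := Real.exp_pos _
  have hN4 : (11 * L : ℝ) ≤ N := by exact_mod_cast hN1
  have hN0 : (0 : ℝ) < N := by linarith
  have e : ∀ θ : ℝ, ‖Sw (11 * L) w g θ - Sw (11 * L) w g' θ‖ =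
      ‖∑ s ∈ range (2 * L), ((w (9 * L + s) * (g (9 * L + s) - g' (9 * L + s)) : ℝ) : ℂ) *
        pol 1 θ ^ s‖ := fun θ => by
    rw [Sw, Sw, ← sum_sub_distrib, show 11 * L = 9 * L + 2 * L by ring, sum_range_add,
      sum_eq_zero fun s hs => by rw [heq s (mem_range.1 hs), sub_self], zero_add]
    have : ‖pol 1 θ ^ (9 * L)‖ = 1 := by rw [norm_pow, norm_pol, abs_one, one_pow]
    refine Eq.trans ?_ ((norm_mul _ _).trans ((congrArg (· * _) this).trans (one_mul _)))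
    rw [mul_sum]
    refine congrArg _ (sum_congr rfl fun s _ => ?_)
    push_cast
    ring
  obtain ⟨i, j, l, hi, hj, hl, hs, h⟩ := bisp N (by omega)
    (fun i => Sw (11 * L) w g (i / (k * N))) (fun i => Sw (11 * L) w g' (i / (k * N)))
    (M := 2 * L) (η := η) (by linarith) η0 (Real.exp_le_one_iff.2 (by linarith))
    (fun i => (spec_norm hg hw _ _).trans hwm) (fun i => (spec_norm hg' hw _ _).trans hwm)
    (fun i => by rw [spec_conj, Int.cast_neg, neg_div])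
    (fun i => by rw [spec_conj, Int.cast_neg, neg_div])
    (by simpa using spec_zero hg hw hw1 hL) (by simpa using spec_zero hg' hw hw1 hL)
    (by simpa only [e] using hN3)
  have fr : ∀ i : ℤ, |i| ≤ N → |(i : ℝ) / (k * N)| ≤ 1 / k := fun i hi => by
    have : |(i : ℝ)| ≤ N := by exact_mod_cast hi
    rw [abs_div, abs_of_pos (mul_pos hk0 hN0), div_le_div_iff₀ (mul_pos hk0 hN0) hk0]
    nlinarith
  refine ⟨_, _, _, fr i hi, fr j hj, fr l hl, ?_, le_trans ?_ h⟩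
  · have : |(i : ℝ) + j + l| ≤ 1 := by exact_mod_cast hs
    rw [← add_div, ← add_div, abs_div, abs_of_pos (mul_pos hk0 hN0)]
    exact div_le_div₀ zero_le_one this (by linarith) (by nlinarith)
  · rw [le_div_iff₀ η0] at hN2
    rw [le_div_iff₀ (by positivity)]
    have a1 : (100 * (L : ℝ)) ^ 3 ≤ Real.exp b ^ 3 :=
      pow_le_pow_left₀ (by positivity) (hsize.trans (Real.exp_le_exp.2 hlb)) 3
    have a2 : 1000 * (2 * (L : ℝ)) ^ 3 ≤ Real.exp b ^ 3 := by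
      have : 0 ≤ (L : ℝ) ^ 3 := by positivity
      nlinarith
    have a3 : 1000 * (2 * (L : ℝ)) ^ 3 * (N * η) ≤ Real.exp b ^ 3 * Real.exp (4 * b) :=
      mul_le_mul a2 hN2 (by positivity) (by positivity)
    have a4 : Real.exp (-(29000000000 * b)) * (Real.exp b ^ 3 * Real.exp (4 * b)) ≤ η ^ 5 := by
      rw [hη, ← Real.exp_nat_mul, ← Real.exp_nat_mul, ← Real.exp_add, ← Real.exp_add,
        Real.exp_le_exp]
      push_cast
      linarith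
    refine le_of_mul_le_mul_right ?_ η0
    calc _ = Real.exp (-(29000000000 * b)) * (1000 * (2 * (L : ℝ)) ^ 3 * (N * η)) := by ring
      _ ≤ _ := mul_le_mul_of_nonneg_left a3 (Real.exp_pos _).le
      _ ≤ η ^ 5 := a4
      _ = _ := by ring

end Pool.Agent.Lib.MP_343fe0_pr.Up
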