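import Pool.Agent.Lib.MP_343fe0_pr.Up.RegL
import Pool.Agent.Lib.MP_343fe0_pr.Up.KerBand

set_option autoImplicit false

/-! Numerical inequalities for the step. -/

namespace Pool.Agent.Lib.MP_343fe0_pr.Up

open Finset

/-- `8 L k^2 ≤ 8 L^2 ≤ exp (2 ℓ) ≤ exp (2 b)`, `162 L / (k^2 t) = 162 C8 b / t ≤ 0.81 B` and
`B ≥ 1200 C8 b`. -/
theorem step_cost {ℓ t : ℝ} (k b B L : ℕ) (hL : L = k ^ 2 * (C8 * b)) (hk : 1 ≤ k) (hℓ : 20 ≤ ℓ)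
    (hℓb : ℓ ≤ b) (hsize : 100 * (L : ℝ) ≤ Real.exp ℓ) (ht0 : 0 < t) (ht : t ≤ 1 / 6)
    (hB : 200 * (C8 * b : ℝ) ≤ B * t) :
    8 * L * k ^ 2 * Real.exp (162 * L / (k ^ 2 * t)) ≤ Real.exp B ∧
      4 * (k : ℝ) ^ 2 * Real.exp (162 * L / (k ^ 2 * t) - 2 * B) ≤ Real.exp (-(B : ℝ)) ∧
      Real.exp (-(B : ℝ)) ≤ 1 / 2 := by
  have hC : (C8 : ℝ) = 30000000000 := by norm_num [C8]
  have hk1 : (1 : ℝ) ≤ k := by exact_mod_cast hk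
  have hb : (20 : ℝ) ≤ b := hℓ.trans hℓb
  have hL' : (L : ℝ) = k ^ 2 * (C8 * b) := by exact_mod_cast hL
  have hB0 : (0 : ℝ) ≤ B := Nat.cast_nonneg _
  have h1 : 162 * L / (k ^ 2 * t) ≤ 81 / 100 * (B : ℝ) := by
    rw [div_le_iff₀ (by positivity), hL']
    nlinarith [mul_le_mul_of_nonneg_left hB (show (0 : ℝ) ≤ (k : ℝ) ^ 2 by positivity)]
  have h2 : 1200 * (b : ℝ) ≤ B := by
    rw [hC] at hB
    nlinarith
  have h3 : (k : ℝ) ^ 2 ≤ L := by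
    rw [hL', hC]
    exact le_mul_of_one_le_right (by positivity) (by linarith)
  have h4 : (1 : ℝ) ≤ L := (one_le_pow₀ hk1).trans h3
  have h5 : 8 * L * (k : ℝ) ^ 2 ≤ Real.exp (2 * b) := by
    have := pow_le_pow_left₀ (by positivity) (hsize.trans (Real.exp_le_exp.2 hℓb)) 2
    rw [← Real.exp_nat_mul] at this
    push_cast at this
    nlinarith
  have h6 : 4 * (k : ℝ) ^ 2 ≤ Real.exp (2 * b) := by nlinarith [sq_nonneg (k : ℝ)]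
  refine ⟨(mul_le_mul_of_nonneg_right h5 (Real.exp_pos _).le).trans ?_,
    (mul_le_mul_of_nonneg_right h6 (Real.exp_pos _).le).trans ?_, ?_⟩
  · rw [← Real.exp_add, Real.exp_le_exp]
    linarith
  · rw [← Real.exp_add, Real.exp_le_exp]
    linarith
  · rw [Real.exp_neg, ← one_div]
    exact one_div_le_one_div_of_le (by norm_num) (by linarith [Real.add_one_le_exp (B : ℝ)])

/-- `(100 L)^7 ≤ exp (7 b)`, `49152 L^6 ≤ (100 L)^6 ≤ exp (6 b)`, `C8 ≥ 29e9 + 7`. -/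
theorem step_disc {ℓ : ℝ} (b L : ℕ) (hL : 1 ≤ L) (hℓb : ℓ ≤ b)
    (hsize : 100 * (L : ℝ) ≤ Real.exp ℓ) :
    (100 * (L : ℝ)) ^ 7 * Real.exp (-((C8 * b : ℕ) : ℝ)) ≤ Real.exp (-(29000000000 * (b : ℝ))) ∧
      Real.exp (-((2 * C8 * b : ℕ) : ℝ)) ≤
        Real.exp (-(29000000000 * (b : ℝ))) / (16 * L ^ 3 * Real.exp ((C8 * b : ℕ) : ℝ)) / 2 /
          (3 * (8 * (L : ℝ)) ^ 3) := by
  have hC : (C8 : ℝ) = 30000000000 := by norm_num [C8]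
  have hb : (0 : ℝ) ≤ b := Nat.cast_nonneg _
  have hL1 : (1 : ℝ) ≤ L := by exact_mod_cast hL
  have h : ∀ n : ℕ, (100 * (L : ℝ)) ^ n ≤ Real.exp (n * b) := fun n => by
    rw [Real.exp_nat_mul]
    exact pow_le_pow_left₀ (by positivity) (hsize.trans (Real.exp_le_exp.2 hℓb)) n
  push_cast
  rw [hC]
  constructor
  · refine (mul_le_mul_of_nonneg_right (h 7) (Real.exp_pos _).le).trans ?_
    rw [← Real.exp_add, Real.exp_le_exp]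
    push_cast
    linarith
  · rw [div_div, div_div, le_div_iff₀ (by positivity)]
    have h1 : 16 * (L : ℝ) ^ 3 * (2 * (3 * (8 * (L : ℝ)) ^ 3)) ≤ Real.exp ((6 : ℕ) * b) := by
      refine le_trans ?_ (h 6)
      have : 0 ≤ (L : ℝ) ^ 6 := by positivity
      nlinarith
    calc _ = Real.exp (-(2 * 30000000000 * (b : ℝ))) * Real.exp (30000000000 * b) *
          (16 * (L : ℝ) ^ 3 * (2 * (3 * (8 * (L : ℝ)) ^ 3))) := by ring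
      _ ≤ _ := mul_le_mul_of_nonneg_left h1 (by positivity)
      _ ≤ _ := by
          rw [← Real.exp_add, ← Real.exp_add, Real.exp_le_exp]
          push_cast
          linarith

/-- With `k' = 11 k^2`: `|ψ| ≤ 1 / (11 L) + 96 / k^2 ≤ 1057 / k'`; `μ = 1 - exp (-1/k')` lies in
`[1 / (2 k'), 1 / k']` and `ψ^2 ≤ μ / 2` as `k' ≥ 11 * 700^2` (`reg_pol`). -/
theorem step_freq (k L : ℕ) (hk : 700 ≤ k) (hkL : k ^ 2 ≤ L) {θ1 θ2 θ3 ψ1 ψ2 ψ3 : ℝ}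
    (h1 : |θ1| ≤ 1 / k) (h2 : |θ2| ≤ 1 / k) (h3 : |θ3| ≤ 1 / k)
    (hs : |θ1 + θ2 + θ3| ≤ 1 / (11 * L)) (e1 : |ψ1 - θ1| ≤ 32 / k ^ 2)
    (e2 : |ψ2 - θ2| ≤ 32 / k ^ 2) (e3 : |ψ3 - θ3| ≤ 32 / k ^ 2) :
    |ψ1| ≤ 2 / k ∧ |ψ2| ≤ 2 / k ∧ |ψ3| ≤ 2 / k ∧
      |ψ1 + ψ2 + ψ3| ≤ 1100 * (1 / (11 * (k : ℝ) ^ 2)) ∧
      Reg (1 / 2) (pol (Real.exp (-(1 / (11 * (k : ℝ) ^ 2)))) (ψ1 + ψ2 + ψ3)) := by
  have hk1 : (700 : ℝ) ≤ k := by exact_mod_cast hk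
  have hk0 : (0 : ℝ) < k := by linarith
  have hL : (k : ℝ) ^ 2 ≤ L := by exact_mod_cast hkL
  have a0 : 32 / (k : ℝ) ^ 2 ≤ 1 / k := by
    rw [div_le_div_iff₀ (by positivity) hk0]
    nlinarith
  have one : ∀ {θ ψ : ℝ}, |θ| ≤ 1 / k → |ψ - θ| ≤ 32 / k ^ 2 → |ψ| ≤ 2 / k := fun {θ ψ} a b => by
    have := abs_add_le θ (ψ - θ)
    rw [add_sub_cancel] at this
    rw [show 2 / (k : ℝ) = 1 / k + 1 / k by ring]
    linarith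
  have a1 : 1 / (11 * (L : ℝ)) ≤ 1 / (11 * (k : ℝ) ^ 2) :=
    one_div_le_one_div_of_le (by positivity) (by linarith)
  have a2 : 32 / (k : ℝ) ^ 2 = 352 * (1 / (11 * (k : ℝ) ^ 2)) := by field_simp; ring
  have k2 : (5390000 : ℝ) ≤ 11 * (k : ℝ) ^ 2 := by nlinarith
  have a3 := exp_neg_inv_le (k := 11 * (k : ℝ) ^ 2) (by linarith)
  rw [show 1 / (2 * (11 * (k : ℝ) ^ 2)) = 1 / (11 * (k : ℝ) ^ 2) / 2 by field_simp] at a3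
  have a4 : 1 / (11 * (k : ℝ) ^ 2) ≤ 1 / 5390000 := one_div_le_one_div_of_le (by norm_num) k2
  have a5 : 0 < 1 / (11 * (k : ℝ) ^ 2) := by positivity
  rw [a2] at e1 e2 e3
  refine ⟨one h1 (a2 ▸ e1), one h2 (a2 ▸ e2), one h3 (a2 ▸ e3), ?_⟩
  generalize 1 / (11 * (k : ℝ) ^ 2) = v at *
  have a6 : |ψ1 + ψ2 + ψ3| ≤ 1100 * v := by
    have b0 := abs_le.1 hs
    have b1 := abs_le.1 e1
    have b2 := abs_le.1 e2
    have b3 := abs_le.1 e3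
    exact abs_le.2 ⟨by linarith, by linarith⟩
  refine ⟨a6, ?_⟩
  have a7 := Real.add_one_le_exp (-v)
  have a8 : (ψ1 + ψ2 + ψ3) ^ 2 ≤ (1100 * v) ^ 2 := sq_le_sq' (abs_le.1 a6).1 (abs_le.1 a6).2
  have := reg_pol (t := 1 / 2) (μ := 1 - Real.exp (-v)) (θ := ψ1 + ψ2 + ψ3) (by linarith)
    (by linarith) (by norm_num) (by nlinarith)
  rwa [sub_sub_cancel] at this

/-- `1 - exp (-v) ≤ v` and `4 ≤ k t ≤ 33 k^2 t`. -/
theorem step_rho (k : ℕ) {t : ℝ} (hk : 1 ≤ k) (hkt : 4 ≤ k * t) :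
    1 - Real.exp (-(1 / (33 * (k : ℝ) ^ 2))) ≤ t / 4 ∧ Real.exp (-(1 / (33 * (k : ℝ) ^ 2))) ≤ 1 := by
  have hk1 : (1 : ℝ) ≤ k := by exact_mod_cast hk
  have ht : 0 < t := by nlinarith
  have a := Real.add_one_le_exp (-(1 / (33 * (k : ℝ) ^ 2)))
  have b : 1 / (33 * (k : ℝ) ^ 2) ≤ t / 4 := by
    rw [div_le_div_iff₀ (by positivity) (by norm_num)]
    nlinarith [mul_le_mul_of_nonneg_left hk1 (show 0 ≤ k * t by linarith)]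
  exact ⟨by linarith, Real.exp_le_one_iff.2 (neg_nonpos.2 (by positivity))⟩

end Pool.Agent.Lib.MP_343fe0_pr.Up
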