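import Pool.Agent.Lib.MP_343fe0_pr.Up.Spec
import Pool.Agent.Lib.MP_343fe0_pr.Up.Mix
import Pool.Agent.Lib.MP_343fe0_pr.Up.NewStat
import Pool.Agent.Lib.MP_343fe0_pr.Up.FGK
import Pool.Agent.Lib.MP_343fe0_pr.Up.StepN

set_option autoImplicit false

/-! From scale `k` to scale `11 k ^ 2`. -/

namespace Pool.Agent.Lib.MP_343fe0_pr.Up

open Finset

theorem step_win {W W' j : ℕ} {α : List Bool → ℝ} (hW : Window W α) {x y : List Bool}
    (h : ∀ i < W', x.getD i false = y.getD i false) (hj : j + W ≤ W') :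
    α (x.drop j) = α (y.drop j) := by
  refine hW _ _ fun i hi => ?_
  have := h (j + i) (by omega)
  simpa only [List.getD_eq_getElem?_getD, List.getElem?_drop] using this

/-- The moving average of the statistic over the suffixes. -/
noncomputable def stepA (α : List Bool → ℝ) (D : ℕ) (χ : ℕ → ℝ) (z : ℂ) (l : List Bool) : ℂ :=
  Av D χ z (fun j => α (l.drop j)) 0

theorem step_shift (α : List Bool → ℝ) (D : ℕ) (χ : ℕ → ℝ) (z : ℂ) (l : List Bool) (j : ℕ) :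
    stepA α D χ z (l.drop j) = Av D χ z (fun j => α (l.drop j)) j := by
  simp only [stepA, Av, List.drop_drop, Nat.zero_add]

theorem step_winA {Λ D : ℕ} {α : List Bool → ℝ} (hW : Window (Λ + 1) α) {x y : List Bool}
    (h : ∀ i < Λ + D + 1, x.getD i false = y.getD i false) (χ : ℕ → ℝ) (z : ℂ) :
    stepA α D χ z x = stepA α D χ z y := by
  unfold stepA Av
  refine sum_congr rfl fun s hs => ?_
  have := mem_range.1 hs
  beta_reduce
  rw [step_win hW h (by omega)]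

/-- Unpack `h` (so `ℓ ≤ b` from `1 ≤ k x0`).  `g j = α (x.drop j)`, `g' j = α (y.drop j)`.
`spec` with `w = ker (8L) (2L) (k^2) (C8 b)`, `m = x.length - 9L` (`List.drop_drop`; the window gives
`g j = g' j` for `j < 9L`; both suffixes are `[]` beyond the length).  `mix` with `b2 = C8 b`,
`J = x.length + 11 L`, `E = exp (-(29e9 b))` (`step_disc`).  `step_freq`, `step_rho`, `fg_ker` three
times and `step_cost`, `apx_mono` give `Apx t (d+1) (exp B * K) (8L e + 2L exp (-B))` for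
`A i l = Av (9L) χi (pol ρ ψi) (fun j => α (l.drop j)) 0`, and `A i (x.drop j) = Av .. g j`.
`pick`, `newstat` with `M = 8 L` (`norm_Av_le`, `ker_sum`).  The new point is `x0 = 1 / (11 k^2)`,
`θ0 = ψ1 + ψ2 + ψ3`; terms with `j ≥ x.length` vanish.  The window of `A i` is `Λ + 9L + 1`. -/
theorem step {ℓ t K e : ℝ} (Λ k b d B L : ℕ) (x y : List Bool) (hL : L = k ^ 2 * (C8 * b))
    (hlen : x.length = y.length) (hag : ∀ i < Λ + 9 * L, x.getD i false = y.getD i false)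
    (hℓ : 20 ≤ ℓ) (hsize : 100 * (L : ℝ) ≤ Real.exp ℓ) (hk : 700 ≤ k) (ht0 : 0 < t)
    (ht : t ≤ 1 / 6) (hkt : 4 ≤ k * t) (hB : 200 * (C8 * b : ℝ) ≤ B * t)
    (hBk : 32 * B ≤ k * (C8 * b)) (hK : 1 ≤ K) (he : e ≤ 1 / 2)
    (h : IH ℓ Λ k b t d K e (x.drop (9 * L)) (y.drop (9 * L))) :
    IH ℓ (Λ + 9 * L) (11 * k ^ 2) (2 * C8 * b) (3 * t) (3 * (d + 1))
      (2 * 3 ^ (5 * (d + 1)) * K ^ 3 * Real.exp (3 * B)) (4 * e + Real.exp (-(B : ℝ))) x y := by
  obtain ⟨α, hα, hW, hA, x0, θ0, hx0, hθ0, hb, -, hδ⟩ := h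
  have hC : C8 = 30000000000 := rfl
  have hk1 : (700 : ℝ) ≤ k := by exact_mod_cast hk
  have hk0 : (0 : ℝ) < k := by linarith
  have hkx : 1 ≤ k * x0 := by rwa [div_le_iff₀' hk0] at hx0
  have hlb : ℓ ≤ b := le_trans (by nlinarith) hb
  have hb1 : 1 ≤ b := by
    have : (1 : ℝ) ≤ b := by linarith
    exact_mod_cast this
  have hb2 : 2 * b ≤ C8 * b := Nat.mul_le_mul_right _ (by norm_num [hC])
  have hk2 : k ≤ k ^ 2 := Nat.le_self_pow two_ne_zero k
  have hk2L : k ^ 2 ≤ L := hL ▸ Nat.le_mul_of_pos_right _ (by omega)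
  have hLc : C8 * b * k ^ 2 = L := by rw [hL, mul_comm]
  have hBL : B * (32 * k) ≤ L := by
    calc B * (32 * k) = k * (32 * B) := by ring
      _ ≤ k * (k * (C8 * b)) := Nat.mul_le_mul_left _ hBk
      _ = L := by rw [hL]; ring
  have hbL : 2 * k * b ≤ L := by
    calc 2 * k * b = k * (2 * b) := by ring
      _ ≤ k ^ 2 * (C8 * b) := Nat.mul_le_mul hk2 hb2
      _ = L := hL.symm
  have hL1 : (1 : ℝ) ≤ L := by exact_mod_cast (show 1 ≤ L by omega)
  have hα1 : ∀ l, |α l| ≤ 1 := fun l => abs_le.2 ⟨by linarith [(hα l).1], (hα l).2⟩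
  have nil : ∀ j, x.length ≤ j → x.drop j = y.drop j := fun j hj => by
    rw [List.drop_eq_nil_of_le hj, List.drop_eq_nil_of_le (hlen ▸ hj)]
  simp only [List.drop_drop] at hδ
  obtain ⟨θ1, θ2, θ3, t1, t2, t3, t4, hE⟩ := spec (fun j => α (x.drop j)) (fun j => α (y.drop j))
    (ker (8 * L) (2 * L) (k ^ 2) (C8 * b)) L k (x.drop (9 * L)).length (fun _ => hα _)
    (fun _ => hα _) (fun j hj => step_win hW hag (by omega))
    (fun s hs => congrArg α (nil _ (by rw [List.length_drop] at hs; omega)))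
    (fun j => ⟨ker_nonneg _ _ _ _ _, ker_le_one _ _ _ _ _ (by omega)⟩)
    (fun j hj => ker_eq_zero_of_ge _ _ _ _ _ (by omega))
    (fun j h1 h2 => ker_eq_one _ _ _ _ _ (by omega) (by omega) (by omega))
    (by rw [ker_sum _ _ _ _ _ (by omega) (by omega)]; push_cast; exact le_rfl)
    (by omega) (by omega) (by omega) hℓ hsize (by exact_mod_cast hbL) hx0 hθ0 hb hδ
  obtain ⟨d1, d2⟩ := step_disc b L (by omega) hlb hsize
  obtain ⟨ψ1, ψ2, ψ3, p1, p2, p3, hM⟩ := mix (fun j => α (x.drop j)) (fun j => α (y.drop j))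
    (fun _ => hα1 _) (fun _ => hα1 _) L k (C8 * b) B (x.length + 11 * L) (by omega) (by omega) hL
    hBL (by omega) θ1 θ2 θ3 (Real.exp_pos _) d1 hE
  obtain ⟨f1, f2, f3, f4, f5⟩ := step_freq k L hk hk2L t1 t2 t3 t4 p1 p2 p3
  obtain ⟨r1, r2⟩ := step_rho k (by omega) hkt
  obtain ⟨c1, c2, c3⟩ := step_cost k b B L hL (by omega) hℓ hlb hsize ht0 ht hB
  set ρ := Real.exp (-(1 / (33 * (k : ℝ) ^ 2))) with hρ
  have ap : ∀ (o a : ℕ) (ψ : ℝ), o + a + B * (32 * k) ≤ 9 * L → 1 ≤ a → a ≤ 8 * L → |ψ| ≤ 2 / k →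
      Apx t (d + 1) (Real.exp B * K) (8 * L * e + 2 * L * Real.exp (-(B : ℝ)))
        (stepA α (9 * L) (ker o a (32 * k) B) (pol ρ ψ)) ∧
      ∀ l, ‖stepA α (9 * L) (ker o a (32 * k) B) (pol ρ ψ) l‖ ≤ 8 * L := by
    intro o a ψ h1 h2 h3 h4
    refine ⟨apx_mono (fg_ker hA hα1 (by linarith) ht0 (by linarith) k B o a L hkt h1 h2 h3 r1 r2 h4)
      le_rfl le_rfl (mul_le_mul_of_nonneg_right c1 (by linarith)) ?_, fun l => ?_⟩
    · nlinarith [mul_le_mul_of_nonneg_left c2 (show (0 : ℝ) ≤ 2 * L by linarith)]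
    · refine norm_Av_le _ _ _ _ _ (fun s => ker_nonneg _ _ _ _ _) ?_ ?_ fun _ => hα1 _
      · rw [ker_sum _ _ _ _ _ (by omega) h1]
        exact_mod_cast h3
      · rw [norm_pol, abs_of_pos (Real.exp_pos _)]
        exact r2
  obtain ⟨a1, n1⟩ := ap (4 * L) 1 ψ1 (by omega) le_rfl (by omega) f1
  obtain ⟨a2, n2⟩ := ap 0 (8 * L) ψ2 (by omega) (by omega) le_rfl f2
  obtain ⟨a3, n3⟩ := ap 0 (8 * L) ψ3 (by omega) (by omega) le_rfl f3
  simp only [← step_shift] at hM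
  set A1 := stepA α (9 * L) (ker (4 * L) 1 (32 * k) B) (pol ρ ψ1) with hA1
  set A2 := stepA α (9 * L) (ker 0 (8 * L) (32 * k) B) (pol ρ ψ2) with hA2
  set A3 := stepA α (9 * L) (ker 0 (8 * L) (32 * k) B) (pol ρ ψ3) with hA3
  set z := pol (Real.exp (-(1 / (11 * (k : ℝ) ^ 2)))) (ψ1 + ψ2 + ψ3) with hz
  obtain ⟨u, hu, hp⟩ := pick (x.length + 11 * L) (fun j => z ^ j)
    (fun j => A1 (x.drop j) * A2 (x.drop j) * A3 (x.drop j))
    (fun j => A1 (y.drop j) * A2 (y.drop j) * A3 (y.drop j))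
  obtain ⟨s1, s2⟩ := newstat (M := 8 * L) ht0.le (by linarith) a1 a2 a3 (by linarith)
    (by nlinarith) (fun l => ⟨n1 l, n2 l, n3 l⟩) u hu
  have ek : ((11 * k ^ 2 : ℕ) : ℝ) = 11 * (k : ℝ) ^ 2 := by push_cast; rfl
  have ek1 : 11 * (k : ℝ) ^ 2 * (1 / (11 * (k : ℝ) ^ 2)) = 1 := mul_one_div_cancel (by positivity)
  refine ⟨fun l => (2 + (u * (A1 l * A2 l * A3 l)).re / (8 * L) ^ 3) / 3, s1, fun l l' hl => ?_,
    apx_mono s2 le_rfl le_rfl ?_ (le_of_eq ?_), 1 / (11 * (k : ℝ) ^ 2), ψ1 + ψ2 + ψ3, ek ▸ le_rfl,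
    f4, ?_, f5, ?_⟩
  · simp only [hA1, hA2, hA3, step_winA hW hl]
  · have e1 : Real.exp (3 * B) = Real.exp B ^ 3 := by rw [← Real.exp_nat_mul]; norm_num
    have e2 : (1 : ℝ) ≤ 3 ^ (5 * (d + 1)) * (Real.exp B * K) ^ 3 :=
      one_le_mul_of_one_le_of_one_le (one_le_pow₀ (by norm_num)) (one_le_pow₀
        (one_le_mul_of_one_le_of_one_le (Real.one_le_exp (Nat.cast_nonneg _)) hK))
    rw [e1]
    calc _ ≤ 2 * (3 ^ (5 * (d + 1)) * (Real.exp B * K) ^ 3) := by linarith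
      _ = _ := by ring
  · field_simp
    ring
  · rw [ek, ek1, one_mul]
    exact hlb.trans (Nat.cast_le.2 (by rw [mul_assoc]; omega))
  · rw [ek, ek1, div_one]
    refine d2.trans ((div_le_div_of_nonneg_right
      ((div_le_div_of_nonneg_right hM two_pos.le).trans hp) (by positivity)).trans_eq ?_)
    rw [← sum_subset (range_mono (Nat.le_add_right x.length (11 * L))) fun j _ hj => by
      rw [nil j (not_lt.1 fun h => hj (mem_range.2 h)), sub_self]
      simp]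
    have e3 : ‖((3 * (8 * (L : ℝ)) ^ 3 : ℝ) : ℂ)‖ = 3 * (8 * (L : ℝ)) ^ 3 := by
      rw [Complex.norm_real, Real.norm_eq_abs, abs_of_pos (by positivity)]
    rw [← e3, ← norm_div, sum_div]
    refine congrArg _ (sum_congr rfl fun j _ => ?_)
    rw [mul_div_right_comm, ← Complex.ofReal_div]
    congr 2
    ring

end Pool.Agent.Lib.MP_343fe0_pr.Up
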