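import Pool.Agent.Lib.MP_343fe0_pr.Up.UDefs

set_option autoImplicit false

/-! Sums of the Poisson bump over integer points. -/

namespace Pool.Agent.Lib.MP_343fe0_pr.Up

open Finset

theorem tail_side (u : ℝ) (A : Finset ℤ) : ∀ J : ℝ, 2 ≤ J → (∀ i ∈ A, J ≤ (i : ℝ) - u) →
    ∑ i ∈ A, 1 / (1 + (u - i) ^ 2) ≤ 1 / (J - 1) := by
  induction A using Finset.induction_on_min with
  | empty => exact fun J hJ _ => by rw [sum_empty]; exact div_nonneg zero_le_one (by linarith)
  | insert a s has ih =>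
    intro J hJ hA
    have ha := hA a (mem_insert_self _ _)
    have h1 := ih (a - u + 1) (by linarith) fun i hi => by
      have : ((a + 1 : ℤ) : ℝ) ≤ i := Int.cast_le.2 (has i hi)
      push_cast at this
      linarith
    rw [sum_insert fun h => lt_irrefl _ (has a h)]
    rw [show (u - a) ^ 2 = (a - u) ^ 2 by ring]
    generalize (a : ℝ) - u = v at ha h1 ⊢
    have h2 : 1 / (1 + v ^ 2) + 1 / (v + 1 - 1) ≤ 1 / (v - 1) := by
      rw [add_sub_cancel_right, div_add_div _ _ (by positivity) (by linarith),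
        div_le_div_iff₀ (mul_pos (by positivity) (by linarith)) (by linarith)]
      nlinarith
    have h3 : 1 / (v - 1) ≤ 1 / (J - 1) := one_div_le_one_div_of_le (by linarith) (by linarith)
    linarith

/-- Split by the sign of `i - u`; on each side `1 / (1 + v ^ 2) ≤ 1 / (|v| - 1) - 1 / |v|` telescopes
over consecutive integers (bound the sum over `A` by the sum over an integer interval). -/
theorem tail_sum (A : Finset ℤ) (u J : ℝ) (hJ : 2 ≤ J) (hA : ∀ i ∈ A, J ≤ |u - i|) :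
    ∑ i ∈ A, 1 / (1 + (u - i) ^ 2) ≤ 2 / (J - 1) := by
  classical
  have hJ1 : 0 < J - 1 := by linarith
  rw [← sum_filter_add_sum_filter_not A fun i : ℤ => u ≤ i]
  have h1 := tail_side u (A.filter fun i : ℤ => u ≤ i) J hJ fun i hi => by
    have h := hA i (mem_filter.1 hi).1
    rwa [abs_sub_comm, abs_of_nonneg (sub_nonneg.2 (mem_filter.1 hi).2)] at h
  have h2 := tail_side (-u) ((A.filter fun i : ℤ => ¬ u ≤ i).image fun i => -i) J hJ fun i hi => by
    obtain ⟨j, hj, rfl⟩ := mem_image.1 hi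
    have h := hA j (mem_filter.1 hj).1
    rw [abs_of_nonneg (sub_nonneg.2 (not_le.1 (mem_filter.1 hj).2).le)] at h
    push_cast
    linarith
  rw [sum_image fun a _ b _ h => neg_injective h] at h2
  have e : ∀ i : ℤ, (-u - ((-i : ℤ) : ℝ)) ^ 2 = (u - i) ^ 2 := fun i => by push_cast; ring
  simp only [e] at h2
  rw [show 2 / (J - 1) = 1 / (J - 1) + 1 / (J - 1) by ring]
  exact add_le_add h1 h2

/-- At most five integers have `|u - i| < 2`; `tail_sum` with `J = 2` for the others. -/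
theorem all_sum (A : Finset ℤ) (u : ℝ) : ∑ i ∈ A, 1 / (1 + (u - i) ^ 2) ≤ 7 := by
  classical
  rw [← sum_filter_add_sum_filter_not A fun i : ℤ => 2 ≤ |u - i|]
  have h1 := tail_sum (A.filter fun i : ℤ => 2 ≤ |u - i|) u 2 le_rfl fun i hi => (mem_filter.1 hi).2
  have h2 : (A.filter fun i : ℤ => ¬ 2 ≤ |u - i|) ⊆ Icc (⌊u⌋ - 2) (⌊u⌋ + 2) := fun i hi => by
    have h := abs_lt.1 (not_le.1 (mem_filter.1 hi).2)
    have a := Int.floor_le u
    have b := Int.lt_floor_add_one u
    have c : ((⌊u⌋ - 2 : ℤ) : ℝ) < i := by push_cast; linarith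
    have d : (i : ℝ) < ((⌊u⌋ + 3 : ℤ) : ℝ) := by push_cast; linarith
    have c' := Int.cast_lt.1 c
    have d' := Int.cast_lt.1 d
    rw [mem_Icc]
    omega
  have h3 := sum_le_card_nsmul (A.filter fun i : ℤ => ¬ 2 ≤ |u - i|)
    (fun i : ℤ => 1 / (1 + (u - i) ^ 2)) 1 fun i _ =>
      (div_le_one (by positivity)).2 (le_add_of_nonneg_right (sq_nonneg _))
  have h4 := card_le_card h2
  rw [Int.card_Icc, show ⌊u⌋ + 2 + 1 - (⌊u⌋ - 2) = 5 by ring] at h4
  have h5 : ((A.filter fun i : ℤ => ¬ 2 ≤ |u - i|).card : ℝ) ≤ 5 := by exact_mod_cast h4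
  rw [nsmul_eq_mul, mul_one] at h3
  linarith

end Pool.Agent.Lib.MP_343fe0_pr.Up
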