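import Pool.Agent.Lib.MP_343fe0_pr.Up.Tail

set_option autoImplicit false

/-! A two-constants estimate in the right half-plane. -/

namespace Pool.Agent.Lib.MP_343fe0_pr.Up

open Finset

/-- The sum of the Cauchy kernels. -/
noncomputable def twocP (A : Finset ℤ) (φ : ℝ) (z : ℂ) : ℂ :=
  ∑ i ∈ A, (φ : ℂ) / (z + φ - ((φ * i : ℝ) : ℂ) * Complex.I)

theorem twoc_re (A : Finset ℤ) (φ : ℝ) (z : ℂ) : (twocP A φ z).re =
    ∑ i ∈ A, φ * (z.re + φ) / ((z.re + φ) ^ 2 + (z.im - φ * i) ^ 2) := by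
  rw [twocP, Complex.re_sum]
  refine sum_congr rfl fun i _ => ?_
  rw [Complex.div_re, Complex.normSq_apply]
  simp only [Complex.ofReal_re, Complex.ofReal_im, Complex.sub_re, Complex.add_re, Complex.mul_re,
    Complex.I_re, Complex.I_im, Complex.sub_im, Complex.add_im, Complex.mul_im, mul_zero, zero_mul,
    sub_zero, add_zero, mul_one, zero_div, sq]

theorem twoc_diff (A : Finset ℤ) {φ : ℝ} (hφ : 0 < φ) {z : ℂ} (hz : 0 ≤ z.re) :
    DifferentiableAt ℂ (twocP A φ) z := by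
  unfold twocP
  refine DifferentiableAt.fun_sum fun i _ => (differentiableAt_const _).div (by fun_prop) fun h => ?_
  have := congrArg Complex.re h
  simp at this
  linarith

theorem twoc_le (A : Finset ℤ) {φ : ℝ} (hφ : 0 < φ) {z : ℂ} (hz : 0 ≤ z.re) :
    (twocP A φ z).re ≤ A.card := by
  rw [twoc_re]
  refine (sum_le_card_nsmul _ _ 1 fun i _ => ?_).trans_eq (by simp)
  rw [div_le_one (by positivity)]
  nlinarith [sq_nonneg (z.im - φ * i)]

theorem twoc_axis (A : Finset ℤ) {φ : ℝ} (hφ : 0 < φ) (y : ℝ) :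
    (twocP A φ (y * Complex.I)).re = ∑ i ∈ A, 1 / (1 + (y / φ - i) ^ 2) := by
  rw [twoc_re]
  refine sum_congr rfl fun i _ => ?_
  have e1 : ((y : ℂ) * Complex.I).re = 0 := by simp
  have e2 : ((y : ℂ) * Complex.I).im = y := by simp
  rw [e1, e2, zero_add, div_eq_div_iff (by positivity) (by positivity)]
  field_simp

theorem twoc_ge (A : Finset ℤ) {φ x0 θ0 : ℝ} (hφ : 0 < φ) (N : ℕ) (hA : ∀ i ∈ A, |i| ≤ N)
    (hx0 : N * φ ≤ x0) (hφx : φ ≤ x0) (hθ : |θ0| ≤ 1100 * x0) :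
    A.card * (φ / (2000000 * x0)) ≤ (twocP A φ (x0 + θ0 * Complex.I)).re := by
  have e1 : ((x0 : ℂ) + θ0 * Complex.I).re = x0 := by simp
  have e2 : ((x0 : ℂ) + θ0 * Complex.I).im = θ0 := by simp
  have hx : 0 < x0 := hφ.trans_le hφx
  rw [twoc_re, e1, e2, ← nsmul_eq_mul]
  refine card_nsmul_le_sum _ _ _ fun i hi => ?_
  have h1 : |(i : ℝ)| ≤ N := by exact_mod_cast hA i hi
  have h2 : |φ * i| ≤ x0 := by
    rw [abs_mul, abs_of_pos hφ, mul_comm]
    exact (mul_le_mul_of_nonneg_right h1 hφ.le).trans hx0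
  have h3 : |θ0 - φ * i| ≤ 1101 * x0 := (abs_sub _ _).trans (by linarith)
  have h4 : (θ0 - φ * i) ^ 2 ≤ (1101 * x0) ^ 2 := sq_le_sq' (abs_le.1 h3).1 (abs_le.1 h3).2
  have h5 : (x0 + φ) ^ 2 ≤ (2 * x0) ^ 2 := pow_le_pow_left₀ (by positivity) (by linarith) 2
  rw [div_le_div_iff₀ (by positivity) (by positivity), mul_assoc]
  refine mul_le_mul_of_nonneg_left ?_ hφ.le
  nlinarith [mul_pos hx hφ, mul_pos hx hx]

/-- Let `lam = 2 R log (2 M / δ) ≥ 0` (`δ ≤ M`), `P z = ∑_{i ∈ A} φ / (z + φ - φ i I)` and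
`g z = f z * exp (lam * P z)`; `g` is differentiable on `re z > -φ` and bounded on `re z ≥ 0`
(`re P ≤ card A`).  On the imaginary axis `re P (y I) = ∑ 1 / (1 + (y/φ - i)^2)`: if some `i ∈ A` has
`|y/φ - i| ≤ 4R+1` then `‖g‖ ≤ (η + Lip (4R+1) φ) exp (7 lam)` (`all_sum`), otherwise
`‖g‖ ≤ M exp (lam / (2R)) = 2 M^2 / δ` (`tail_sum` with `J = 4R+1`).  At `z0 = x0 + θ0 I`,
`re P z0 ≥ card A * φ x0 / ((2 x0)^2 + (1101 x0)^2) ≥ 1 / R`, so `‖g z0‖ ≥ δ exp (lam/R) = 4 M^2/δ`.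
`PhragmenLindelof.right_half_plane_of_bounded_on_real` bounds `‖g z0‖` by the maximum of the two
constants, which must be the first one; and `‖g z0‖ ≥ δ`. -/
theorem two_const (f : ℂ → ℂ) (hf : Differentiable ℂ f) {M Lip η φ x0 θ0 δ R : ℝ} (N : ℕ)
    (A : Finset ℤ) (hM : ∀ z : ℂ, 0 ≤ z.re → ‖f z‖ ≤ M) (hLip0 : 0 ≤ Lip)
    (hLip : ∀ y y' : ℝ, ‖f (y * Complex.I) - f (y' * Complex.I)‖ ≤ Lip * |y - y'|)
    (hφ : 0 < φ) (hN : 1 ≤ N)
    (hA : ∀ i ∈ A, |i| ≤ N ∧ ‖f (((φ * i : ℝ) : ℂ) * Complex.I)‖ ≤ η) (hcard : N ≤ 100 * A.card)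
    (hx0 : N * φ ≤ x0) (hθ : |θ0| ≤ 1100 * x0) (hR : 200000000 * x0 ≤ R * (N * φ))
    (hδ0 : 0 < δ) (hδ : δ ≤ ‖f (x0 + θ0 * Complex.I)‖) :
    δ * Real.exp (-(14 * R * Real.log (2 * M / δ))) ≤ η + Lip * (4 * R + 1) * φ := by
  have hN1 : (1 : ℝ) ≤ N := by exact_mod_cast hN
  have hφx : φ ≤ x0 := le_trans (le_mul_of_one_le_left hφ.le hN1) hx0
  have hx : 0 < x0 := hφ.trans_le hφx
  have hNφ : 0 < N * φ := by positivity
  have hR0 : 0 < R := by
    by_contra hn
    have := mul_nonpos_of_nonpos_of_nonneg (not_lt.1 hn) hNφ.le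
    linarith
  have hR1 : 1 ≤ R := by
    have := mul_le_mul_of_nonneg_left hx0 hR0.le
    nlinarith
  have hre0 : ((x0 : ℂ) + θ0 * Complex.I).re = x0 := by simp
  have him0 : ((x0 : ℂ) + θ0 * Complex.I).im = θ0 := by simp
  have hδM : δ ≤ M := hδ.trans (hM _ (by rw [hre0]; exact hx.le))
  have hM0 : 0 < M := hδ0.trans_le hδM
  have hq : 0 < 2 * M / δ := by positivity
  set T := Real.log (2 * M / δ) with hT
  have hT0 : 0 ≤ T := Real.log_nonneg ((one_le_div hδ0).2 (by linarith))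
  have eT : Real.exp T = 2 * M / δ := Real.exp_log hq
  set g : ℂ → ℂ := fun z => f z * Complex.exp (((2 * R * T : ℝ) : ℂ) * twocP A φ z) with hg
  have ng : ∀ z, ‖g z‖ = ‖f z‖ * Real.exp (2 * R * T * (twocP A φ z).re) := fun z => by
    simp only [hg]
    rw [norm_mul, Complex.norm_exp, Complex.re_ofReal_mul]
  have lam0 : 0 ≤ 2 * R * T := by positivity
  have bd : ∀ z : ℂ, 0 ≤ z.re → ‖g z‖ ≤ M * Real.exp (2 * R * T * A.card) := fun z hz => by
    rw [ng]
    exact mul_le_mul (hM z hz) (Real.exp_le_exp.2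
      (mul_le_mul_of_nonneg_left (twoc_le A hφ hz) lam0)) (Real.exp_pos _).le hM0.le
  have dg : DiffContOnCl ℂ g {z | 0 < z.re} := by
    refine DifferentiableOn.diffContOnCl ?_
    rw [Complex.closure_setOfPred_lt_re]
    exact fun z hz => ((hf z).mul ((twoc_diff A hφ hz).const_mul _).cexp).differentiableWithinAt
  have hη : 0 ≤ η + Lip * (4 * R + 1) * φ := by
    have : A.Nonempty := card_pos.1 (by omega)
    obtain ⟨i, hi⟩ := this
    have := (norm_nonneg _).trans (hA i hi).2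
    positivity
  have key : ‖g (x0 + θ0 * Complex.I)‖ ≤
      max ((η + Lip * (4 * R + 1) * φ) * Real.exp (14 * R * T)) (M * Real.exp T) := by
    refine PhragmenLindelof.right_half_plane_of_bounded_on_real dg ⟨0, two_pos, 0, ?_⟩
      ⟨M * Real.exp (2 * R * T * A.card), ?_⟩ (fun y => ?_) (by rw [hre0]; exact hx.le)
    · refine Asymptotics.IsBigO.of_bound (M * Real.exp (2 * R * T * A.card)) ?_
      refine Filter.eventually_inf_principal.2 (Filter.Eventually.of_forall fun z hz => ?_)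
      simpa using bd z (le_of_lt hz)
    · refine Filter.eventually_map.2 ?_
      filter_upwards [Filter.eventually_ge_atTop (0 : ℝ)] with x hx
      exact bd x (by simpa using hx)
    · rw [ng, twoc_axis A hφ]
      by_cases hc : ∃ i ∈ A, |y / φ - i| ≤ 4 * R + 1
      · obtain ⟨i, hi, hc⟩ := hc
        refine le_max_of_le_left (mul_le_mul ?_ (Real.exp_le_exp.2 ?_) (Real.exp_pos _).le hη)
        · have h1 := hLip y (φ * i)
          have h2 : |y - φ * i| ≤ (4 * R + 1) * φ := by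
            rw [show y - φ * i = (y / φ - i) * φ by field_simp, abs_mul, abs_of_pos hφ]
            exact mul_le_mul_of_nonneg_right hc hφ.le
          have h3 := norm_le_norm_add_norm_sub' (f (y * Complex.I)) (f (((φ * i : ℝ) : ℂ) * Complex.I))
          have h4 := mul_le_mul_of_nonneg_left h2 hLip0
          have h5 := (hA i hi).2
          linarith
        · have := mul_le_mul_of_nonneg_left (all_sum A (y / φ)) lam0
          linarith
      · push Not at hc
        refine le_max_of_le_right (mul_le_mul (hM _ (by simp)) (Real.exp_le_exp.2 ?_)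
          (Real.exp_pos _).le hM0.le)
        refine (mul_le_mul_of_nonneg_left
          (tail_sum A (y / φ) (4 * R + 1) (by linarith) fun i hi => (hc i hi).le) lam0).trans_eq ?_
        rw [add_sub_cancel_right]
        field_simp
        ring
  have low : δ * Real.exp (2 * T) ≤ ‖g (x0 + θ0 * Complex.I)‖ := by
    rw [ng]
    refine mul_le_mul hδ (Real.exp_le_exp.2 ?_) (Real.exp_pos _).le (norm_nonneg _)
    have h1 := twoc_ge A hφ N (fun i hi => (hA i hi).1) hx0 hφx hθ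
    have h2 : (N : ℝ) ≤ 100 * A.card := by exact_mod_cast hcard
    have h3 : 1 / R ≤ A.card * (φ / (2000000 * x0)) := by
      rw [← mul_div_assoc, div_le_div_iff₀ hR0 (by positivity)]
      nlinarith [mul_le_mul_of_nonneg_right h2 (mul_pos hφ hR0).le]
    refine le_trans (le_of_eq ?_) (mul_le_mul_of_nonneg_left (h3.trans h1) lam0)
    field_simp
  have e2 : δ * Real.exp (2 * T) = 2 * (M * Real.exp T) := by
    rw [two_mul T, Real.exp_add, eT]
    field_simp
  have p2 : 0 < M * Real.exp T := by positivity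
  rcases le_max_iff.1 (low.trans key) with h | h
  · rw [Real.exp_neg, ← div_eq_mul_inv, div_le_iff₀ (Real.exp_pos _)]
    exact le_trans (le_mul_of_one_le_right hδ0.le (Real.one_le_exp (by linarith))) h
  · linarith

end Pool.Agent.Lib.MP_343fe0_pr.Up
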