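import Mathlib

set_option autoImplicit false

/-! Definitions for the quasi-polynomial upper bound in trace reconstruction. -/

namespace Pool.Agent.Lib.MP_343fe0_pr.Up

open Finset

/-- The average of `Φ` over the trace of a list (each entry kept with probability `1/2`). -/
noncomputable def Ex : List Bool → (List Bool → ℂ) → ℂ
  | [], Φ => Φ []
  | b :: x, Φ => (Ex x Φ + Ex x (fun w => Φ (b :: w))) / 2

/-- A bit as a complex number. -/
def bit (b : Bool) : ℂ := if b then 1 else 0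

/-- The admissible ratios: `0` and the disc of radius `t` tangent to the unit circle at `1`. -/
def Reg (t : ℝ) (ζ : ℂ) : Prop := ζ = 0 ∨ ‖ζ - ((1 - t : ℝ) : ℂ)‖ ≤ t

/-- Statistics of depth `d` and cost `K` built from geometric loops with ratios in `Reg t`. -/
inductive Cl (t : ℝ) : ℕ → ℝ → (List Bool → ℂ) → Prop
  | const (d : ℕ) (K : ℝ) (c : ℂ) : ‖c‖ ≤ K → Cl t d K (fun _ => c)
  | add (d : ℕ) (K K' : ℝ) (F G : List Bool → ℂ) :
      Cl t d K F → Cl t d K' G → Cl t d (K + K') (fun x => F x + G x)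
  | loop (d : ℕ) (K0 K1 K2 : ℝ) (ζ : ℂ) (U0 U1 F : List Bool → ℂ) :
      Reg t ζ → Cl t d K0 U0 → Cl t d K1 U1 → ‖F []‖ ≤ K2 →
      (∀ b x, F (b :: x) = ζ * F x + U0 x + bit b * U1 x) → Cl t (d + 1) (K0 + K1 + K2) F

/-- `α` is uniformly within `e` of a member of the class. -/
def Apx (t : ℝ) (d : ℕ) (K e : ℝ) (α : List Bool → ℂ) : Prop :=
  ∃ G : List Bool → ℂ, Cl t d K G ∧ ∀ x, ‖G x - α x‖ ≤ e

/-- The smoothed plateau polynomial. -/
noncomputable def Qp (o a k b : ℕ) : Polynomial ℝ :=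
  Polynomial.X ^ o * (∑ i ∈ range a, Polynomial.X ^ i) *
    (Polynomial.C (1 / (k : ℝ)) * ∑ i ∈ range k, Polynomial.X ^ i) ^ b

/-- The smoothed plateau kernel: offset `o`, mass `a`, ramps of `b` box filters of width `k`. -/
noncomputable def ker (o a k b s : ℕ) : ℝ := (Qp o a k b).coeff s

/-- The point `r * exp (i θ)`. -/
noncomputable def pol (r θ : ℝ) : ℂ := (r : ℂ) * Complex.exp ((θ : ℂ) * Complex.I)

/-- `α` depends only on the first `W` entries of the zero-padded list. -/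
def Window (W : ℕ) (α : List Bool → ℝ) : Prop :=
  ∀ l l' : List Bool, (∀ i < W, l.getD i false = l'.getD i false) → α l = α l'

/-- The induction hypothesis at one scale. -/
def IH (ℓ : ℝ) (Λ k b : ℕ) (t : ℝ) (d : ℕ) (K e : ℝ) (x y : List Bool) : Prop :=
  ∃ α : List Bool → ℝ, (∀ l, 1 / 3 ≤ α l ∧ α l ≤ 1) ∧ Window (Λ + 1) α ∧
    Apx t d K e (fun l => (α l : ℂ)) ∧
    ∃ x0 θ0 : ℝ, 1 / (k : ℝ) ≤ x0 ∧ |θ0| ≤ 1100 * x0 ∧ k * x0 * ℓ ≤ b ∧
      Reg (1 / 2) (pol (Real.exp (-x0)) θ0) ∧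
      Real.exp (-(b / (k * x0))) ≤
        ‖∑ s ∈ range x.length,
          ((α (x.drop s) - α (y.drop s) : ℝ) : ℂ) * pol (Real.exp (-x0)) θ0 ^ s‖

/-- The windowed Fourier sum. -/
noncomputable def Sw (D : ℕ) (w g : ℕ → ℝ) (θ : ℝ) : ℂ :=
  ∑ j ∈ range D, ((w j * g j : ℝ) : ℂ) * pol 1 θ ^ j

/-- The modulated moving average of the sequence `g` started at `j`. -/
noncomputable def Av (D : ℕ) (χ : ℕ → ℝ) (z : ℂ) (g : ℕ → ℝ) (j : ℕ) : ℂ :=
  ∑ s ∈ range D, (χ s : ℂ) * z ^ s * (g (j + s) : ℂ)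

/-- The growth constant of the exponents. -/
def C8 : ℕ := 30000000000

/-- The frequency scales. -/
def kk (k0 : ℕ) : ℕ → ℕ
  | 0 => k0
  | i + 1 => 11 * kk k0 i ^ 2

/-- The exponents. -/
def bb (b0 i : ℕ) : ℕ := b0 * (2 * C8) ^ i

/-- The ramp lengths. -/
def LL (k0 b0 i : ℕ) : ℕ := kk k0 i ^ 2 * (C8 * bb b0 i)

/-- The distances from the origin to the first difference. -/
def Lam (k0 b0 : ℕ) : ℕ → ℕ
  | 0 => 0
  | i + 1 => Lam k0 b0 i + 9 * LL k0 b0 i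

/-- The depths. -/
def dd : ℕ → ℕ
  | 0 => 1
  | i + 1 => 3 * (dd i + 1)

/-- The polylogarithmic unit. -/
def GG (T : ℕ) : ℕ := (6 * C8) ^ T

/-- The first frequency scale. -/
def k0f (T : ℕ) : ℕ := 12800 * GG T

/-- The first exponent. -/
def b0f (T ℓ : ℕ) : ℕ := 2 * k0f T * ℓ

/-- The global order of the smoothing kernels. -/
def Bf (T ℓ : ℕ) : ℕ := 400 * C8 * b0f T ℓ * GG T

end Pool.Agent.Lib.MP_343fe0_pr.Up
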