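import Pool.Agent.Lib.MP_343fe0_pr.Up.Gap
import Pool.Agent.Lib.MP_343fe0_pr.Up.Sample
import Pool.Agent.Lib.MP_343fe0_pr.Up.Asym

set_option autoImplicit false

/-! The quasi-polynomial upper bound. -/

namespace Pool.Agent.Lib.MP_343fe0_pr.Up

open Finset

theorem upper : ∃ N0 : ℕ, ∀ n ≥ N0, (mTr n : ℝ) ≤ Real.exp (Real.log n ^ 116) := by
  obtain ⟨N0, h⟩ := asym
  refine ⟨N0, fun n hn => ?_⟩
  obtain ⟨T, ℓ, hT1, hT, hℓ, hsize, hfin⟩ := h n hn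
  set δ : ℝ := Real.exp (-(4 * (GG T : ℝ) * Bf T ℓ)) with hδ
  have hδ0 : 0 < δ := Real.exp_pos _
  have hδ1 : δ ≤ 1 := by
    rw [hδ, Real.exp_le_one_iff]
    have : (0 : ℝ) ≤ 4 * (GG T : ℝ) * Bf T ℓ := by positivity
    linarith
  set v : ℝ := 100 * ((n : ℝ) + 4) * Real.exp (8 * (GG T : ℝ) * Bf T ℓ) with hv
  have hv0 : 0 ≤ v := by positivity
  have hprod : Real.exp (8 * (GG T : ℝ) * Bf T ℓ) * δ ^ 2 = 1 := by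
    rw [hδ, sq, ← Real.exp_add, ← Real.exp_add, ← Real.exp_zero]
    congr 1
    ring
  have hm : 100 * ((n : ℝ) + 4) ≤ (⌈v⌉₊ : ℕ) * δ ^ 2 := by
    have h1 : v * δ ^ 2 ≤ (⌈v⌉₊ : ℕ) * δ ^ 2 :=
      mul_le_mul_of_nonneg_right (Nat.le_ceil v) (sq_nonneg _)
    have h2 : v * δ ^ 2 = 100 * ((n : ℝ) + 4) := by
      rw [hv, mul_assoc, hprod, mul_one]
    linarith
  have hrec : Reconstructible n ⌈v⌉₊ :=
    sample n _ hδ0 hδ1 (fun x y hxy => gap n T ℓ hT1 hT hℓ hsize x y hxy) hm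
  have h1 : mTr n ≤ ⌈v⌉₊ := Nat.sInf_le hrec
  have h2 : ((⌈v⌉₊ : ℕ) : ℝ) ≤ v + 1 := (Nat.ceil_lt_add_one hv0).le
  have h3 : (mTr n : ℝ) ≤ ((⌈v⌉₊ : ℕ) : ℝ) := by exact_mod_cast h1
  linarith

end Pool.Agent.Lib.MP_343fe0_pr.Up
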